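/-
# Project LT: programs of helper65: from the 4-dimensional pieces to the flag 6-sphere and the certificate

This file contains no Lean. The lines below are the base64 text of a tar.xz archive (take the lines between the two
lines of dots, base64 -d, tar xJ).

..........
/Td6WFoAAATm1rRGAgAhARYAAAB0L+Wj4gf/fhVdADKeCkSPKAIrcnBTrszQwS1pHG158PYSUsV4xzU/s4IlkFv5qcf/xhfM3sL5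
Me42Ch6clDu8MCuAodO4AOvqyWHOI6YO4iJc0NzZ/iHCqIlAchQVtncvk2UcBErkGF8Dg7PglefKKgrK1S0GEQpFIXTJzP7m8TzM
/5fJ1Zaa5fkNsg+Mr2srijuybjtxzT7gt5m/xDtXhG8ZtV9634VetukdEmOacYyxrgpt8ibgLUDNqYQymMLP1OTQ1MGnF3gISpAA
B1D7ZrwrnHiWlW/JYGB9ZDt/DWZh7jIxAv4N/ivuHR5jB/JbdaX9nMpusQu0n+clUPnnQHHqiQUIpGZJ9h6nIGuXogMBInBLsY0A
vOu08ep8Zh6S5PcaBY4FVXyHpJfKPjrToVOfQfIJTQAtl1FKS5mOT/9X6VmVryt+3VFSi/V5DzRoC+xJE+p8SjCYdyL4lA/HJFIX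
fRxfb8oHFLIkjt3STQZkxHwxzt/9SwHnSlXW/QxoBrkmD1VuY3S0IyX/+5MivmcDpoFl0fUu7qVroEsl5xr0vh8Sd3wadJJKGm56
LS1JX7d2V1oYC9F1AVvOoI151/cN1FGUipaN7uPI2k1ANRrHCV/pQf+kXr+apEzq5IZKX9VBcArt8GlYmLiQwjmTEi09HD3Y/zMc
RBdvGv6d8s0hwLSAYpEQ/1LR6jKUUxPrnAR801DLkMJTjNxZkKUfVeLgYWtz6pADBtyj2L9JqpFxeCXjUv617kjV5u7+lyEhDAfm
QYRQ7OlaRsp8l8ulyo6C0rIrYoBBIChefA4n3Bc2h+9gdiaL4omEV+6RbCme09ZLfwXFn0hXYS2pc1LTOkpyiUPqLzHSanbsxY0g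
LwYYLHi5RhxMIhUm8eUlTMaaoAMLGP6Mp+OWUZNMuysGwr/yJawH5gwB8ZwjdgQ87EijJP/Ya7KVahWL7syzC/Proee/XsbQUaEo
RuGkmmCIIPCZ8jMPf2hu6P85se4qCkd1ISvJFqDzO62kO9NsxWMKbxsE1ZGNZ3qOV/8uOeRDfGLDFIP+UiK+me6KjNDBS+YVkMYM
QUKLwwGyB6mCvbLXsKL2Yo0QntmwE9tMWXSKfbJ9iV5OGh8IbgucmmFvPTrccelqvoLf2pzAkGt9DFrEjZn2D/nQu5QfhHLjaDJu
zjySdCiO4aLasVkmLH6cbExJdUWYfn+Pv+RduYVFCXfKFJUS6Ut4EKaiRoifSUlo6hrYJ9VnXasP2O2jnx1OQTayjEq5eCay8EiC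
CHOaCr1LaqJVLS7oko1qPf7XgHcYXQV1if1ms8I9qyKLkZtSr+qCMIoM5zgfsm0JyZVHDPgEXutMvziYLl2/MgVRFCYcb5ND1Q13
kvUkux37eITMR8Kd0bgGKE7jx4LZ1X/dVjjZW9AUCU9IIkU9+cjkyFEM2BiIhJykix3FwPoxbuGMTg3xjhU7taogyBGEjK5rD/gU
WC6eTshBpOoRlq7WiCFAG5U89/9+rGP9UhjOOqlphdEj3ZZPEJ0gu444JR0E5UxEz+yYmldhrua0GL1mtEBHon6ZDv+JtrJoOW5H
3l0Me6ipKtOMRJJAvkKFODuHURtljug4UV/AceV5JyLfEM1UJHYmBEYq7Z0b5NWXSGzU5QE395eGyRYPjWVyxKAzjgdRXdxyaQuz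
7y2knxgTnmI565Mqr/Fb4ObRqx0UYfOjHDqiWaXWwz88+UEjLKvno1YEPzM+ELWieLSeKQY8CIW0CfkalXXB3T/ZYdPsfvwxaeuH
KIiGlwUnqiiS53R7Xg5WW+4Ucx41yFCm/h4itif6pqF/G2vcgt20mNurJOxkqILt2L/YWbtfcmSqq3XYlELzqHVtePmChy/eqy/r
9CgXXYAgEpQucTHYL+wXMklS49aPZubE4qOXLqystQgB0Oie994mCsJSdFFSiHpepioaBE2DjJbc2g5v6IVm/LHp5RM5o8/5IJ6h
+IYWz6SEuglXQWFAlewENun6DWQpV0vaF1m73G2Ur0vfb+oiM+/tvUNh6aEhDBspnEGuqEgdbSt0q2LTkwEMqW743nzIlozKc/nN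
9z0UYl0khUKMKLniv30tZu6XK34oar1fs+qq6LnzfoLbzucZ0nWehC2yR/6nUZPiMoQc7fMr2qWC5UFmInRGqrxnxLNhF0gimRZP
XeW7233l3KLnirijJYw6sd/CiuCPvHC2RemRkVCe5u78BIoPaacxcFXbCmSihui6ZCRm5Yj0NQ2z0PZNRGxNifedvWq18tsNLj1a
c8YH5WfBafnfYcY54J9xM56jI5THPS10+KCTTSR2J5IaWMdVpo1h1vyue3+7bM651269qLgm5nFUS/3a7geAj4n2gXB2tkqp4Xbu
Ng+uWX8qpV01+GwWLHNxgjMTJ6j4hSUxOg1LKYQc6oRnr4SfZw0I7xgXX6DraPN8w/8jTIzP8I0O9WscPYJaXmoHhGPPjEvLgvp7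
LRJEXCOfzuqKU3Jl3xsvHbrgYp6xM9yOybuPA24/xGLClLrqYEsvS/PkNlwIpykKRLYjGB+0K3faJfFzTQi34TalAZviyXCx3q6I
7hacZ4aJUf6kKkMecyHtmUk88g8P8KMVXmMfsS9UXxBAlVS1LPGF5VJdqueIQSK0UaBZ8pMUaf633/0inEFewjt3SE+kiXVdQi0r
LtbqbCsoCvO/eYDAh0YIViy7Gzeha4LgNUkmOzKhDyy0q0pYi9okm/i2uPVnklQfsiHEXY+Sc8N2FBilpjNnWlt3wXHHDE4/kTvJ
yN7qmFI/+oERsuBLjnUJ9IirltAB+uhcURwDVNhzXngzLWcamIFB6b0Ek3L5FJUy379KA1nhCd3kTqeWQ4BUKekp0oYCHzh3PLIm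
mTHRz6BaUKlJiJDXk4ASvFHLKX8k27sciODX4WA5tO/fi8YRrZ+qd5n/emMg/EKKb0zQsyU996khzXdzw3iCGNsQ+T1fqQpgbEDr
rWKVqecfsKOB0m716SKlsZPInh3bSuYpgpCt9W61V19W9j87h3zIXZVwEVHRtQ7B+RGGHQ03LhPKgcQCTbOSWXBapvGdYvDEYXD9
/M/a9k6LHqEcsJs9AigEupSuX5H+9WBScy6+6nBPvO5tYhn5npLxMYL8CCIbbxV6J1Jo0if6P25OrTz1PBifZJ5w1xj9vgZbNQO8
Rfhw5WJpWEr+v+A6OlAE7BQLz8P3DDVKomIWYCv4UWYR9HqHL1cLYEnZ7nx78VTDc+inGfo6qaBi2TIzwDoke4wfWlG62kO/oP9m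
bRb27lw5uHW7oVxO1mKw5CDwyIdg2/jjFKUCZcGI7qX3MBig/4XgrFVC5sORGR6gUY1osi+l4n+sN4sOv1FsXCVS5VxnhYWUyHZ3
nNE2q7YmIG79GAksBkTPqmJl/Z8G5sVuvGwra67gLV4of507fvmb6sYWv3wTdAyfIF3NhnhMwK4vllzQ0mWwCgtHIzuImwobWYnd
7mWkF85ZmoIdYHi+Y6lDYzzj1ZA7bVp0vPGpJDSelWZIP61HgV2y8eOeHT0hkw4/6Ao1ZSfOdT9xMreW530kIgyyNng/CvVvVZ9q
f4l2ujfckCMa/xVBqvPI3z/luKSGMyEP9vBqpRuVN8Fc0LBUV0kuSWTklfnkBmJ1I6sgCL/RkVmdsgEtk2RGxYPGGPROmwYYJhCq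
rq7nPd80CXEER69lxQ59QVrOhRp7mHAxmriS+30Q0J6PO7QHHrc9QUQ8Yw7RpiEIgEmbFYC/J6BBnFBO1mpcrfv6UWl2CE8EkR6P
Vn8XXsWqYy2UNlPyXyvXRGaAtMrUqnHA91LsdJ26MILF5NcNa70aUviqmnGxSKhPJMnRXpLRL6Udr/8+SfPBzLls4fxlKbXIJS0p
TnD3ZBK0bkHeUXrL/QsFS80uve5HGzhC8ghgOBCq534mlParlHx0ZNX5bhkVnkvpCSYMXC0VzH8oqY7NV9v02+pFnNIKjbz4cu/F
xZ0f1nIIFlkh6aBtT2TQFaarXI+Z0tWao2UubGepuwEkQrjgLITNoguwRg4LqodRsnxB0uBK84e2bcuqLmAUVH2bTZf1LgismuJC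
OAOT9C5Kg/RDim33Vb5P+jXX2sBSDzfKFwvnb1Vbq6iGLNCjOzjP0MchsFkqmjOdzfSODRC4CvbGnjkQ9LouR5jtZ4el60fgq2FL
kixgzyBqvKszTlFPl7Chb4SnXbnHMqtEGR54IuRL0rZcRXNRQCOqxYwhIbx5bYeO9Ubie/mw0rfLjmEsHymDOst5XyCrXvPALOfS
GZllr3SAz2jEZnKCn7tQUSSXBUCUjm4Wiobj7cDCgnS5ktqyvKiDbOHAbGpZkBWMVL6pkHvHVxDM+O4zGsJLyJd4sw8uvQF/kya6
zceiVVXxA01aLZV8AVwqw0D8nYALvjDRO9OfzyWblY10mZGjmgSlwC8K/FnZrznrHG3fLkZKAh3mXKfE0xofMwjL8e0lxfZt3Ndh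
FntX6N5/LoiRokysvTR3gLdAe/RPFaDEO9uQPfx2Ub/i6UsjJpn8cx6wakU5pfNfddQFXuWZa8LgiGAr3qFAG3V6te49P3QXbx1O
zDNZyvOF0WZkW8Fa4+sEnOYwc2sRsaB+SLXvIDvcqpj6Sp3vFh2tYDcv9oz/aaLrQLpvUrxhTVOirvQOUrPpwyH3DptLqYRNcHtG
21ZxdwtbrK+P+5S0Dh/gPPCuFl9E2xf/cdDyHb+AcCqwKfuQts+gudc6Cad8NghHukuizMoGJR+h/PibU1Y/5zaedc7iRsmnQR5i
ebVJHaFB1UGs9R+YBU7YEO5nOBqhXnrooGdhwU7oBYtcbHQxuR+INcmrfr24xHgccEvt4jdlIOHFGsFvLltSgjwh5g01Y2OEEqRf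
SpvmXz7oM5IgdTO8dibpjan3KCIywITc7tixj6s+k9Nzfl7HrBcUdYeSXu7JYEkqKA1mFL3s8YEvJjW+3+OLy9c9fQ/V5K6L/YPy
4j7y3h7U83jxln68aF63yt444+VgPRbYLFcGNrlkYFyaG8FSvBFdIF4J3kL2sNWuyiTQlR9e2lnl+YleSBnWzr8S7Qq/lBTt436o
Sc6IiN/6efSrJycHI2MrqxYLfLmb28u0ZiVROrpkk4JXEUU/0bcNIDL1FVO8muVS4B7M5LCm2QmaM1EqkI3coMw97+K6fdX4th8Z
PkStNMDgRlSpUxSwjdB8aPRxSW5yzEDzpihVJWJwxya+a6RWsp9CYmiw+ZO6gsCiML2W/fGacdZ7Wf+5OKYP5CL+QUJK2RaW1bGw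
y27q9r5ClpurBppbT+Xl7U1VdcU9bhWFxjv4dcLe7uI7StWOnvPDHnWIu/yW1jMPay58FwR/iHHHfk7OhNZzKKsRys643kML9WiU
pxG2zAqIxy6XRuiznItVnsOYH1IfaZhqA9Nd3NhlNZdf25j/AioXfK5yIubz7MVcF0O3gYYbPJ4jHIcPsBvpy2JF0kf4EI7a0kkZ
griIFD3+kgSzPBAhyh1fszLHO0TGuH5nuqjwCCTiUHLBWmJ7Aq8gqPAC/6QM2YTZlmsJpGznA+ruXpmOxwiMLi/KGZQCxAvCTY4P
DxHmH/b1sEEVCervDXC4G7pvVlAXiSvLKhiUwqqplZwKQ3lxyJG/g5U6PnhLDELutQDU/+gYMSI0WZc+KvzLH7FG+jYZlUS4EJ3j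
6VmWnrFXDgRyuLSoW0tdEd0P2nMHUWwzCt3fWp6RtRZAZ7zojs9/4EsVMcZpXGJtvf+63TkmKkC8tuGuRRB+BnMfJb+NVevesLL3
6r0x3eubk+RdSjUkXeAS0GmUmFh2nkbp4eIOFnGvxa+nLYTO7bqENeCqyZbpK0ThmarYRKhyMy3xWbl1Xp++xvxVkZSP4nkEph6y
Vd+V+bya+Bl7num8TQjfUm3EYnUfqZB0clNBXrYDNDYFZ6EOzGVwopjnaV7BS0GZ/u9rwzK4w3QMZhKRy3YfT48WWRxy1iTAjBW3
h60kCV4dx09K3M1UTEuwSxgjVoTG8vu+FkRqHGMvTn0Dz/32i+moFse65V7m3dUO2oaISiM6XZMKfl8G9j9fcBNGj2DkDYFIOONK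
0vubseoSUYtnNMcbJ6y/p+/b3dc8IlyRDB/0ezrekWogFIVdr+jS1Plkzub1kkGECzfu2Juz6iFmNMBqi3rj8USxc/yHpHvuqnY+
4vB4Mlr6Qnapz+4CdPYTnHG9BT6gSIjU7pWB0nE25GTzXlrFqvit3Fat/oca5iibJHJ/pxSKrVMVYdn+0U9pPbHxw61YPu8qF71f
yaM4dZalDQoUtH1c8O2rbHLu9EI9vQuMag5AuSiOlpDORhOSTpuiS9OXEIuNlrXwQriLIioanWLHIvVc2B7HL0fNBLZXNOTqBJYW
RlS8MVF/+sJDAJcX8lkr//VF8Zk0eenpHEzMe/bfgOLfNJ2JQDR0zxMTiROQzCeRqDIrtMmk1iJ75XWj4U13BZyEMD9BlotNYaYb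
zw1iCLCqMq4FOR33efaC2zUT61QYKijKVO0vKMk4BwXl+GzCZQJpGoYxxOtVdmq/zd4ZBpQMjgT6pTGwtUvmTHITrSJkHdocpgc/
i6s6Mv29wcDYZE6kk1bDdpV3LkeHLMPayKIQHRiRp7EF5FN2VWQ8khrKytkAo6jTmoQw5EDCmK+GML0QegPbeP9Ntgx3ghFzRbtV
m867OmjhalkS7S9gS+D246ERXOdBg+YVSYtzJEqw2vDJLG+bAWni8LEPTImajKwPSLJkBhyJ8kbmWsm9tfNKdFNN4Cr4cJdYr22i
rdtEYXBjFKp9aIp8cY+U6XaS83g+vKT55nyZ6igV9GrzbCa1QbqDmS4zNNKr/rPkHXKeTDCWuukaGQML9v5yysnX3e9zLNCUiMLf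
N17P7I19qAJ2TTbCjt+dMasfe9uEaJbz8R2owMnWzmfMKJ5Q++89VVXeNqEbtVXQYWtB7OFWsW8C1Cg4KBegZK4GJP3UNGDplgSb
9c9DAAZ0FnKQzqo6WT3vLNChzweXAsUj3EXxDTcZROHDb2g5u/JWFgemKOWdujOyKlr/l21AfciVvE90tHdeGq6LfHAsDE8RrcZb
vVBNa1/Ha9xmxCzs9l7P8r/FmHNIqd6vcIxgHQh9KJnRM2Fb/sj+Ud1e/G3m1lrA4u/5TRVZZXPZ59u5crIPOogPZUxib46Q56vS
kK15mSg6PwPGvEQFS724FQ3slHtBoRNF84BsPEd7rvNq4CG3pBJvqyY6vB6FlmRGXVrNYOCw/m32f8G5l7U0vjqnejPmEA7d5SbK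
TOB/pDKyaNd5hsUgPzRexcJ8pzpscD3GMY+CpvMiNVFqyaWbDn62o21qNWFIz8oWH9wQwIGTueibD9+XRUIm/1aZxqregWt8RRjR
WKDYwdGbVjVNSImggRn2nNim5JkNKhvD5KDupFd6iJWfhX4mJ/GLfwRN+nCtKLQz3pv3jDfG4yLkhGqEvOmUmdZkds1cecOi8oy0
296VXp55yrIcRA1yy67vMhIu9Bi08q7gJY+hd3hVChYLITyab3/qitQjNcxeOIe41/h/N7YTIajHGaWQPvdOGt+XcydoDVcLPtNB
mg+l3j3GdzO7tTZ1AKkxYlwloiiuNul5+iQX83xPU4SBStVE8rtKMBHQTWvJMFvjZok82nLOeOLLSiEPYIZ+AqB26k6K68pSLU1V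
CxIa3zzMXUP2ODRtjA30UZmqMNaO+sARXu82bq9nz5Ss0PbWlBwhVPNQMSP3wW3DFB6P7Uc/Rn8hpYOvpPpcahHdzraOym5faWeN
hkqO8EGNvvzIop4fE3eT0xAu0xcw8X61nPTFWukpc3xyhtOoU7QjqmYgkbcCzg9nbov9GK7p1a6XIxHPTbwomU4x8VN/SY5mKY+E
phrE9wfIDI5V1McsOI5VDuRKNvM7N9oZf3pedjiX7iNRpqfrp64+QLDHacvK0guv+qkNTLJ6CaekWfp2FGcX1ALpCzWjTb1AYM//
JslzMI6W+G2Up4sdKGQienBYBx69f7Jiujr6ZDR1l+mjY/Ac33e9/8nmJi41qSP4eezTJaFiSg/6WW7tBIO43w3cLCTR43kyOmv9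
1uXuL4ikqxpmMkhIlRhg6D5RGH/mQnTxEY7zfV5MKLIrug8UbzotgWZ9YQyDMhHl+u/yksoCHL7MX2GNdijGq2yIER3x+ROCXbmx
/qk23wGZbBnejfQyCEdgzwGyIE02e1mWUCKvvWovUnsLufbG/zi2m22ucOAewXsYd7ZReo5HJp+/Q/6tsXfATjvM/as8bhyy9I6P
eMT29h9g3lWle9wC0l0HLMQR3+ZQhsOjtTii44G5BExBjOdaHAOQiL85kXrMYI51BVuC+edlle++7miyG/5/R5aOYmnuCfsaC6rE
I/pWPhdvVymkndTbgHtHvNL8qV1CK/nkp9KX+2ZouwXk7MUWBY6jhZKwiobuu56yB4+zDSRy+EV29TCY7I/WN9E5pnt1U0n0NYj/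
K/22fOx4WUuOw5UyBUR/iuhP1wLQRBJg9kaTTnsi8aKURwU65yfEGjggoMU4utgi+netSVd8eGiP8XIsWkYOW8fYAKxRG3Jft11F
2IhO98IyPL0pHlwB4RxiGR4vcRLNfLU7w0hdz0MQtlku1AWdw9HBfuqjG8epY3ygTvGJdf3TyxvpqwKi1hzaS7kVFo93pjckugmI
G7JrlF6XD5bjNHIZ19ADnXQaplcUZslmlcK7JgnvCuauapHOBtLKsHKEv8GVww88Ab0UXsbgQSlHEF3J7Y6h0uLADyWIgC1yoUoA
9qfj/F3uAjGgeg0nvnLm6TVT2QWXGYAQw+u+lHCK3He9KmbN13c28UGXXWW3S562OpvHXOQ/bW0hWnu9CmPkonjiE2zNaygig6lj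
j+uLxxGROSUJWjJmBhwap0rvG0am9+XOA7GCxFJ5x328Jwk61OGq/F7vJkxlQHmHEkUUSwLjvj8KCP1N0+cTkfZsQQuK3Rg0bIjn
oyEu+xHgRAhkolkYXII3QoSSQQXIdpnxT+6Wfdo3TLCp8z3f9CHA52jyTICSI9tlFyXJ9BzZLiW9Hkl8S5O18X3fqXSnfSg4n0fs
Sgfyf9wMuqPnS0sfq19U5Xbzrl/qzQuokaqmqASLjIk11HuQl2koDuC4UKurgycQ3t7Nfz3eyGtSNfRYD/YYC6AQk01hqrDsTrzH
g7kA2wdgualhTT3H1IoW1wWCaJJQWemUqLz+hko/UAAwiYA0xjSmB515+lMSLfJQSlI/61jKyzKiexHBgXWrsUnRpfCNCYuaRKLH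
wyCA85PFW5as9xyj7XHb65xEalSTFRhUAXH4PkU+Dd9ofu4wcQrnZQ90qBtXJIYP3joTnQ2jmnil5KwCb72RUQwitsHcs39ZAFqz
KCEHPO49LqZSHhL9mPxsFhCT8RB4oVIKPfwnpIbCOOuuxN5u5OWxW2+aEiMgRtfTrOIzUU3A6C666NBGST+nWQTOr35WdX1HduEd
4q0VwJUQmLrsefwhxJm+6f03GfDu7ra3i17r7wzvPM2v80LCM6doWwmGteoMpBrGq/VjVHCVZcHAuLAnn6b/jROfrLy500UgWk01
fQMIq3xBxOyUUYUFfn9aOJB/3CKq85IpJ/yBf9IeA8jgxOzy04pcdFgvOpO/42JUBPdEHzEopn86NaBIk02eZlMoNFWCv5KipVCN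
fKWe17gGNbt1vZtVbPxll1O6FlcCitNz8uyBLaZ+uIxNTaBJVfK/giAB2Z8P80SJJ4OcY031Vs5r7GZb7oJEXKYxGE1Zr/ClQ4Gm
sPkf77mrgq5dAn185FHAkxFDn7kJsDGyIpifXAKVFJECSKQIkwLhHj+r0kyYUf2LuPDbcfXtrm8vgdkJiK/U0Ci7DkHbh7we5hpl
i7XYAxUcPNQotw/MHNN4ZUjrMYSnhtynppywfbk62tkfVs2lYypldJgs56KCsRbCKUsqYvKjKlzBibl00vLtlrtZKqZOQek75tqp
hK5qiGI6dbj/Fi0CxAJIPLCJbgxMDJpUPpDy7f23+6TUzNDljpR4VhK4ust1Q7MqRDdFT0DuZgTdhA5JEPnCTmSqKxZzBfny8U5u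
gSHwWjgN4bpk55PR03xdyniKFKoh2cwwdnl2BUebleaKUdAP0iBVX7DsqkJCK2ElpXpvu+7rhs1+2+EnNiKudMS1G4BiQN395cnw
WeaeqweHsFVop2vldbNjgyNJO4L87k/NEF1lYxgkA7bZXYJgI0iyVGJcCK4apINPd6+3ZXmP8twzcGJoxhhoXWD9n7wAlQSg2plX
yP33HzA/ehB/R7oIWfErk0hd0gjLHyy8UbkYJOgVUBJms7diLOnNHnLB6uKieErWVxlFljNe79DusKU7q113cLbpCguDtQoxUQ1J
4GpxJKI4PBCf+9yuLuzm1vo9biLvZp4dMWKelNWIk3t9UYoSpxhomM0o6ginKlkGry5niTXlxrluAexSmg6JnfFb6IWf5zkid+Xg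
AB8GkkjDxPx0EG3hgzhSev1HJEaPd1jYeP8RANQ8Dv5VwcPxM1AYO8Q5CYfzw+EOtNsSwILnsGZCk1rjFOldAoowH3pXu5fUTHRs
IhgpBlAdVaHCrCV6FMFCMb1u9JT6oT73R+u3sK1lcaNwctIX8ArQ954lNhjMMm5bM+wQA9V65Xzj0Y9cCEVWW7nZRpP65OJ4vbb3
XE3AjejKwGbr6ShjTcwWngpkDLbLzlJbs6T+GeFoZyIhW1zXTUr+hcbJxMyt5hKRhSTQCVc5k+sO+BcTIkIPiF637XyQ2oXqNkke
keLh7jl69G1BM84rmt6Lm7eZe1yBSkOYI08F+QQN9pB7Wkyvu3ubYJRzn4bCKLLeUXukRKFOJHhet36clh8j5TrfKCnt9cIUNI1E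
ZSK5z2Vp5MdA+Hyr3wA3hx8c58vKJ9IyZXdY9oALBb1fIuOGJsiP52uV5aZ3V7FJf8GwkFTwSAK1yl1ajH6Mfcb2FpJwBxY/rO0W
5QeXm3E46gXcERML+f7tL/8WFG946BeIXhv8tToYn2RLUWQ+BnTVgdnjOAF82v02SeJWm6OYrEtLQ6x8epQ8egvkHhhBB0RJqf3I
fKrfGB7mFSB5don9QXlE6esjTRk7Luelg7PkszQ/ha+3YRPidHv8XXCAo7Xln8X1McU9LpefTjzNzu9vjqUpMTNhznVpwNL7dmw1
Mfe8fcl4UuMJMz35sFj8p+CN6EDjKo+kLpQBsm5XB/kMsWIId+mLeLJKaEYGH/qhaexkieXXbwg/7ZElFa8faBbO7zmT1PDQDGVX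
i8n+CK38/WeJjYN5EWxSb+43de8bPctDZZYQElNAPfEnVuRDiYnVju8st36gDHgqJXR40MVBogPmTX1Y2c/HLpM0JkXyJ4stLXUx
auhHEotB0dLicGM5UeHQneSD3eKnvXVt6RkrBvKzphe3YXr6WaCjA7JjMXpxMkvYAc0gCSLEi29jWGTJIr6n668AW9n7FVGAerOX
BHmbduUbdAcuN+UfcPh/v8knqeSNGe8G8g5I+BT/TTLFV68l3ITLuORofItraM3twFQ64hwnUwqqzBa5PmVpRduLBu8Rj5vsaMkF
MiFxujd4X3jvVSBoE464oVTfUERPLXfZ871QRhW84kslkZ6qTDruWgMhJ+uYM9HfI2SzETTgAvBL9HkX82gtQHqCGdW1h/VdI5n2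
goa6JFF9TK5zEf0QIvuelMW2LtJrv8io3uGZYZUgTRHDyxApBk+FKeyztS68pYXsA4tQzWA/ET9/npRU6rhvI7gEquMaLEYE6Vxg
QSoiLVd7hR3dnldrO8/0Dk661DB0nKhzcr171xNusbbdoJOGXynYiLFaGPqGQU23LASY8i+6YDkIYaFjBnibdPy3HiNIgtu7IDcx
MWnU2TOoBs8KcNq/oZ4sEFbYe1lQozfxkx2BUp0MErYQUAxWh0E+GhskrwEwL1aWmVkfWvBFDqYFzytGjitjlA9r/qbhXd9CS+vI
JQpJOkYwfLRp1nFMZHLZforAFWi6NUn22hxD6WvG8jz30ZylDN0Y33qgnOm/crGNamNAfpXiEucXSlxfn+K/sucwVzznUvTZhHOc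
BUGxvNcqoWmsY/YsxnJfObLq0qBaZt9B4f3O/2FmIl0IJ0PVACSGJ7AVEsZQ8ut8kiildVAsmukmXc11esMx6cPZ+7vNc5AU9Gi8
DhRjZjNXeBzsNXR1ubNQuJp8eKItYqz4kOiucj5kTKfLoJv0ltn8fVvhcGxst9ADdyZG1TtgVn5fWJNPFT5BSXIVMZqk5QHKj6uK
jGKD7GcUHXhLchbbW4b/nLaBLD8EsIrLZKXI9HJ9j8Tdqa3OVYrUsAhQVKAUPgEagaDOlLcMcl7uJgT9huOKHA1rS79xGI/NYIFg
53CFbt4QUW7GmK1XQw6QataFpn/Hy3ZP2Vz41XR08YCml6Ob9lRrLp4qpfMxx+9cN7/TicxvaOIs3nxcaHbU8AGYE1UYjN6YY88Y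
D0u6vins44IL6E/W2XKtHbrPiiy5kXakClzV2cf1MZmxuaxbVKGv2Fq+1zadLC1o7xsqY8FtNfUA/tEoNHM7ELbMHtkfJJ+Kajce
lmoLhZNr5rR5eNwoctW6jBKDgaDKrcunpncdoQzV2fG3REVGD9jf4O/bdoqYTDfE6Adc+82WybsLScATJntMS8fzF1PyaZlM0C0k
4ZU0QWdW+Kdf4iKhUu5jIgKec5X1wekJ3GyTDqHjSmUSnbAZsDHfoR4ron68ZjztU3yPSFuaWEvHn/Fychm0nwXpFFwPe3pvoKtN
IVkO18dCsCKhA8KhwEYLHdMhDragcIDYGq1a9CFHCIhkpJnHZcE6ew0m7+dRqNoHKbdtxYG8FpjTNs1KlMt+7ZdEfGXYykMakhxH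
FKbvOeMXHL5xqTND3uFDa9yZvg093Cvy/YL0ghI3ApbQhE/9+t4ef9C7Onbd5WHuWWA/njMonkkOL4OsquqSM9y5k/Od8r/9bB+1
aLs7bNqMQ7P9FLsUpDn5+PjafNOg/iQzCidLp4RfoUlqBa+an8g3itnBC+uM36fiOJCchaqfYfJ4Ex6MrNQ4/gosWp50cq+9In80
ZvVJAPepJhQkCnOqUAPFoW2cMJMtM8XRBblnph9R/sLNvUYGdiwhFBuuxPkr5zW8zf/iub7NN8ta7Ju1A2UkI8MUkNWut3gx24Zo
G1kK8FgqA+lKPgIVUwPTJL40NFWg2eLx03GQnoL9oeYoFSIqHE82iXFCPr/x9YHmm0pwn5y6mrQ/2irshb26WSf51GecXNcttoR/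
QfWBCj0iBEBTwWGFYn8GKBfLDZk+cfYiKAbXhFb8V4IDpvhz4wkqyHtlM98ZAlHRmKoY2RRy5nAKblFqXKsOJUnWUlx6EvhnnlE/
hvzpW0ffbYFBOy2yaV96j2jyOlrsvqq+z8Q8ntMQ+H0YIeZQ9dPQnIiQZwmsHDdUtdwIY5JBuRQ4pBaByBj6rc5XcGACHaYl1r5E
v14lGfyo8QIeCRDavYLZMO3RLXG/lTojAoz+TlLl9ePTQpdDs4XU0UNNnJ9dqEEc14/32hhzcNk4yV3PeDhIwNut7420E3ScfEKW
QCMcFQbRX2frvqlI6xFkkFQRhknvOo/IN8KnIgQGxaIfiHdEwQ4DAVuRRL5GGlcGZw7E3a1xR8KV/S0AuPN5H3wMzJM1hVa3922N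
hUcg0vnzgvWI9huyOqnDQ2vXHhrlrYk2TWT41XExTW5xx4n9m5Sd7pXub3gnTVFNUVKBciRRzsaWEGJEtRAPevIqjDVa9zB9bwTf
pO7j085toag6ZJRmU0dmDt7WZ7C8PWwNTPiF3j/LI3u6FfaUHF+QU+xZgl6W50SJiufVdPhMU9PIb7oKa7fe2ggh/7lOLgFYOo17
s45AHi4fNfp9cr4eMW8esd6eF0uXHh1eBvbJkaXVOxAdlpVzhvvenkcQ8OmTle+DBFZ+tUEIMeWANYMnNRraJ5sFSZ7ZlyntaBzl
2EZ8civRI1qu5mNhCsypzqyQXuGtYJY1rwaEruzWymLjltitnUvc1YSecbZb+aMAf28cpV0T/MaAceFyWuhiZdu2ODUtsD7LNtlO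
p/MerjRSmZnLM0qIjFcVcl4pnd4bEBHHEp2Qg1hRy9PJFX2F9kfG6xDEp2iFHosJ5mJgOw2w1au2b0SRLiyNXuE1l5MbiYhm7Rbr
KR2APRlm80tYsEVPh6TC4MQx7jl6dVrbUerjNdfP55imND1ynFExxCGVcqfHobcTaS0sZoaqkUXb3kCykF9Tft20aiYtFJ2IaQ5O
JaM/UCChPj0T84r60VJhKaOdPO0wpchTRyrs+wBwmPYxKxYnhiHBXbvpC5fCi2Tdv5kcmMXF7IDDqg1CKDTL25+9vdUXQOvYG65O
EX4g5SrkHHpkmFM4GRojYTzdr4XHFz7jA8iKz5utfO64K/+BqaDV5MKa33I8YGgejZcyI9iM1cYm3DPlOmswu6UPv6meLyG+CZlc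
zj4HV+hjWHflkluqShQl7yWBvVmB37O2MbtzAXi0jGRFonejLQjSAyUNixnYlMaS1hvAJUDZOQ2Vn4XvemJnQO8qGU8Kf8emIJRC
aRFGETVq8sms+qbxzvaDbpdTtKOz7Qc+d9OsPflOiqq7ay4p2ykVRoE5NXGMNk0MYsfUVPteXE9+cvMQNXX7CRgmWMoRMyOC9dR1
k8qFgOTNnXrQdxY9JrM7AXMFfwLziUoercPNyhNvMpHdLXQHiCwKGicz8v0d5E6mBVC5+mEgF4eNd/v2HB6MqrvO2vtiLVpyeyiB
hdJOYGs+Shay7bX2XMGDXwj7uHNdLl2Xk/5nJg/edOyrxyAiOO+s3fZmxl463jk1f5nelzUpEfTq2BFC3rzdsTnrInMrumfhHegK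
FjvzlJY7J2Xw32Wu1T1ODDKM0JYdtbcjQlG4676EYRM2Ot0NHeuhid7GbwBUh5F5ZnsFwM1QBaV+QEFMmkJmHIqtfahVONcm2jcO
70bMD+MRN2jLqoEaFKJoUl+QdnYw/Gdd/EBNfLfR1KYyNiZmIoU4GJJRR86i9VycOyfEkK7fnrfUZRHgRDuxLz6q4PuMptQZO0Wo
HW3gkO7hZCxzdhpk26YJLoHBnyOFtNgxexSZNmgXvic/fqsYmKLCv8oMpwnhUCkAwqvvbBKUYo6RGRW07/geXk1JpqoFtHGgVfVV
Oy3kvPsdThXQgMH5M6ShhnneYtxQbK/jqDTkNknWNeFH3gn3hLVYclcyjM7a+KRVMEEh1R7MRbrLK8rpOpjDcVEP4ST3bPC0PBqZ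
Gw1Qi2pwS68KMX9f6W3M81+jibMq+3Gchp1NUKqE5c565YwuR7sMGRNy3SeKu85XXn0PsgqLuYmIXo+pGvKJ3qmlU1DmoM8YpLwi
JjKSG67uEuUcnVFgDpVSMMzpicsccaL+TQTTFEpAnnL21PHbEIevlm9rdTW2kRETpipZL0AOlqblsCAa++gTWxMltIQzwPmPyekA
gUoTVOtxp5jAE7yTPc2TthWrZ74W/Kk7zTWpseSlcfnlCuBGpOnwgcvL2FGJOfE5yZdmOVsdIk5Na171vmrrEPLNOnwwAzA7Sw1S
B1eYtUzSL3bMf3rC5zI7YBm/SyUMOyr9RRHxA1MsN2/uGZU7jZi/HYwA1OkfzvYSS3hnBKE8M43gG4cTstwDZxy2AnQ+sE+MTjx/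
jwpVTqdyWG9uZTIXpWh0cqq9MCFlGgI2JUqz+EFmlaGdPyH4XE5Sk0cPqUbKpYz4ZgDc8K3Zl9zrrVS2anjXLeAR+2ys9/RaUi/4
RG3atxYUm+nOPwlB/WE32bQPGXzwm5UA7bzrsshwnRQ3c2RmS+Y+8HfaxwioxjE+pG9vRcttQECCoz1laR0Y5uPG5nNxKcUIqLau
iMpa85ou3BfL4ziiJFyO+q5AqykU+0BhEem5kDL5Zom9eJ4W4yoQG+tk8CIKpQ8U+wVxiokp+RkH+x1y77uTUMxiZJfjoTQwZpTI
cqW5ntQmBqhk7zWni3NIeIq/uyVrasy2ZXwj0dgzkDBDyaPZg7Uerfn/81WWzHP6NYt7PfPJ9wpJhIfEi6iPStrN9SpY4TdvyK66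
wvIO16Pq6RjDxcPXmTciL8PYvr3D/2KgsvREX38qyOkfuOFqhG/7Wyhp8FRsCAO6IFqaZe5Xtj+fx2eBvM1Oo1tyyxdxOv/Tz+M+
WVbdIur3WnPZfD67AGSEtyJM8Ta8Vrc2NeJpguIRLHUdxMK/N6eaFbbJ8FH7sxOBPyvftcNfNnNIZc+BKV9jXCz52+WCHIQTppV2
qDvssZ4kvdy/K+vn5HDsRGLK4QFLdy7TPej5t7mP3zBa09673ula3zOZYRgjRYUS+kQYSwQYta1kZEcYl4Iw4w5u/spdsX4GzIDv
LBIHq6kuaegu+LueWE+ThiFRBRm3HH8B4NF/XyJRRal4LMZEy0C1nUxDTdUBFpWvX8LOaHTnWw++RXTOmCsoSOS3dNhIqqje8rk3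
VJS14F2QTgiOEOeQmlhILQRYFuFP3RM/dQjTA+Ppx/CyKYXzvDBoDuMwcWPQGPv7AP1hM8A1K7JZuABQDmhTFFMCe1afzVQKrYhL
9PzwtU01S4b441YZLTr98HZQtzm0mK+V79ykUdo0zdydTirIzvpmBzGZSngd2XPaWfgDPueK+ekhevr4DKP3WblmA057DA6SRo6s
Rm2S6ut/aVOEGsWaXZxtfEJzyiQrSKo8T3SwdCMinjjpu2NzhSh3HIjptBzZdG5UvqkYMxqIBKN70RhUw93EIGSd3kKATJbJH1uV
nzqosV/esKg/eoWXcly2wQ/74s1362jKBxG5NZSRIIKhxzm8fAQhvQmBxYUteviWJgZpM7LJsqDbhckCMMHb/3ksRSFjTAelAtpv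
ifC0fBB68jxb5S/XAHK3LRHgmavgQ7UIqGB+ED4WhBY7/QX+I3XhR4Rn6ruLovsNlDvmH128At+ogxtW4rCm5p2WbJmWrYqlAHU8
/8BRQGULzJ6+DduiV36nHN1WNZ5lNoJ7EzwYxntt+6xc6Fr5tKyDCUirfaR78mmntTRJqecoWMayu+NJ5wUPBaeEIyswcAPu7JDW
b07k8a/1+mfooobyx1TLCkHUN1r7h7tCtuZydQxbWrV0dwdhBcRZDW9VRxhdmgKKodS3LZRdbxYXr1ossgAF9MsuOSLgmsaWi5p1
gsbBi5V2Qji+BKIrvJuXrlJNl9JZB/EZgQ85lxdtsC+FW0Wn69iN4EFQM6eUSJHFpeVrpU5BxNTMsSvdzaX+/3KOtMWuwdUP+qAY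
laydsuya+Nlw24E224qtWAN8uJhXxBYJs417LvVZcEs5LYtm9WIha2b5iTpBXiGKygaeMKhsjmxk31ZBWiR05o65v8C7U1oYEMKf
3M72XsFOry+ADmc0RTVZn3z+iVCRLjGE+JmvAxhbtn3B2VfKffn5q+0TjT5mO3dct4wyuBgDlKHP/KRKQxRLMZkg3eE3tnuliwPN
wpT3p0DuyBa/lQkLCQST1h6VRQkVZRwMcHT/20wlleTdX+QAahSb+OD+8FUIz1tfe4TjA4Bq7hWwSSQGW0+QsTDGhXmbIqZXBLoK
un1rvQO0UVFXbqknhcxJpEfR1gQ7589w4Sv5KBLG/lc95pvBI45oWIsyZMuL2vKgaubdSjOX5pqkhB34mt3jrYu1mewNeboK5Ams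
58jxe0fzLXZZNe34d/Vlckz/EmD0l3SnYaQribq/scJFkyd8PSofj9dK9jIeuTyxZ2Q7orVIUOOJ+8kEL1YgHWFkHJYgp56kxAt0
HtClcQJis1QF43ckEuknvL6U2pWlggODcLEqz4XUMiTYDd0vSXRbsBUf7gBYtpGPlPuaOqTb7ly4BALmibZRZ/xAeSlmSem9X5uh
P1O8eEe9VNJe2wKXfcj3oO5ce8o5FyXtq9oADR1q1SF+JZVV4LTCRPxOMgQswoDpMsiJw1wHUJsMpb/9P1ivMEzmj7iVMC05Y81e
w45NQbFQP/Hm+mu3GmhPPFL/t2z3EeX0FcU42OGJcM0kiR+jPlVSlOBBLUap/XDV2p8qA12PZSTFipoD3ZNM4apLptLExuWfjDWz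
DLe56f4wk16iSLr2f9rXFFHNtSt5wI+mtAt58aJdzBupbX9ImHXcF7UwvjwcFkRpuMKv68DWY6bfwaiiopLOT05ggDyb+61ufI4/
6E7FTG/NA9xg2ewm3H69phvMNDrBaxQhdc1pAWcLsIcb59Gll4J5kmHBxuCNbZNcPLGEmdKm/oE+HsA17Bcjc12TDxOlAtGkkTB/
DwKE2zjZvB/TPIF6EkTT+dXkcSffmU6+8AeXzGAgts+BuJCdAcD2I2+KNXjT7+uDQaQFfp0BH/3+kdsNYvnWvmxcglp3T+8Aqqy+
KdNFaCadJsPQUkuzjgiJbTkzjc5yv2aO8WnJ8+c0QNWFBCz6KlrLF8klXKOseYxUrhLBRk+hwy3fTGA3Sj+kC/DLqxYxeZJP071v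
EpT3b5SR2qy6A9X/xuusp5KMDwTYqU+a5hvqUmA46SJLF5RNz0GbjB1tzfxMpMRptr8BvybtkYLXaVjSPnUAbmkzQReQmcgQPi5G
i8d1LqFopu9LHBJhNNNf4I2KIHjaJn7TmKYd4wcW3zR+41mYifbK/uSdu721bgowDX3js+0VRgrLqLmZXB5InthWV2wAkorhMUck
IeUXmT/wvdTL8c9wFTPrDG8Ix3YrZ6VThsrIunjPnhUrDJCPJg9iOWOO05AbpCZFE5wwD27epGpZGYpeoFuH0sOxfJX4BZduLqt/
zq74QEI/Xm/tBAM1tn890RkgGj/vkZSMchUU6JxlSpkmKr+k51AxOUJcFVOsO8F98ZdZuM0pbr0ysnPBBUzpV2pRv5ggqaFXlX3y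
DXp5OzqcFizU6Q+pcCqYAUx5g/WQoUCVzifJz3gCi3u/lML+/OMSOPVe/ZaEb1fQ/WJZUSKQ1Zbk8EKUbv8MH69yiBdIdMa22kHC
59aLa3Lt1V68++W0lQmKTCCPiUDzrNuLdjcJ0rckpeKSKuBYQeYPhQYVhY/lTT6xYeUH7QlyYc1bCPgaWsA2ahaJfS4z/XaRW+EH
wBBL6DZ0hcNJvtFhym+Ni394flhsNzTaQhfUFpArdTATb3gFgeAJ5Dd6FxVZM1f8G+MY9DfN47FMyP8y7Qp7/7AHVKH45HZ0ftTx
NkV/6cZxb8n9G0P0SQYjptCRRifnvvUudYbH/YlK8lOFLz6NcYO2l3i2Mie29NMv9RweqH4e5nAQ2qdRaeZ6sjMW35cVRoDg5Lz/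
ZyhLTfyz8joJZd/dgVFC24R8f9GrNZLQ59riur2i/NjGZQ/chgpLsD9xkgFrYpVyprAKEPXTQd6mu80U6oEotI4vKySORH8W6ULm
UQMq3meSm/Na41yN9ofu5V633Q/wPHMGStJHEfv3dvT5WAA4F/5ZKa/62FOEuVc8UR8DxianLtuuMwDXBqwcPyHAmv2AgvkhkvNT
vripxP4kYqBIRsL0AOMrnUwVEM84KMLj0LScJN9BSjuYsyj0WeGlD//61XGc6kVkfbEF5yOXkqxOZ1smsyjyL0VZGHmX4luSjm5R
lR3TIfZdaymkJb8/smjiO0v7fXDPqScSKT067y7unUndv4AFXYsNYCxn1hSy4PiXBIaL+rUnImLzV427mEx64t1GcgImnAOWrxuI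
Q7sK/RyQchGzS+wGwJWsx0nTitxh7ItBpQsnKrVWFXyU81G05eaG4+95MG5Bn6QAe1SKEz1FEsc/5aAGghqcYeqrUta8zyKrPIs+
RrjiQB1lbC5WdSSVN8eaQFHT292GV1yxLZpSg2L7EeyJiRh7Zp2IKwwi8Xzhp6UnPiCvqds+lHfpniT4g25gJ5V5DRbSfq3Brt8t
K/NQclcBkxfkrNbYRkEBe0rwrGZ77Ru9iiZ8PgXmuxLOjpmv53WT0ksvE8K7+pSoTLE8ajfPezoTiSWm/mf0xhu7bGe8N8FxAiyU
mispNyejuxCXPK+OCF89xp5jYsMw1QFYk1tIAEZOs1W1IVXXEJhmTQxFUMccQUDJrMt2oPDZlZnPSknSyxrMXoeeGpkBMOBVAhz9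
c9+PCSTtnxDQuSBp+FsM1UnuSbD3Oi/Kupbgc8WVXCvcYBBlj3HMvu5Qn7JJ+JRd/42sh/xBiBRzBgeMuC7+7npu6Ta/m+SZ8dDb
FUHIQJNjTK3IHDHRYV3EnswOgc7cMOWK8TZIKQ1q1BVRtzATARoWW+ifMAMNShPnzhe5L0Y4s4zn8Pb6nLnrCcSgeimmB6We8BqS
ORq6X7269tMNbxRs5MMl8P5n8gqZExpZXYRyxp9lbwlj9qQlj3KknuZGAS8mfYxmWyjjATG/8Hn0NtJPnxFSAdlQ1c49y61nWZ3X
h/K6rwz+z4sLUlY/MGPsdrTvw2g2XWRpk8Tsy1bwnkTu0vY2qVaQVDnJ8nteebvvO6XOEEhg1ANit3OuRGdfxH4Ry7TaZEkoIlBz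
Eyz8sMXM6XSZTgsHdvv30j18mrgLn8jK40nkeqFltuQUhDmNHrn5t0cIftYBePROyhW8EWjPV/fCyOzeZPTRvkhIASqmQasBfoDb
oFPDLnsggb4QhsW45WIWSeEZM+BxncnnL/cqrcsn1O0MbfD/BdyzLy3iqMCWL1OJDL2NNn3txmlqUt6So4gWHnCG9p6FSWlBqZOo
wI3yUuGCxTZ+UEm5g8229fOkN+Mhnp9vhavtz1S9dtNLhlAegWqHfIp8UW0XNp00h+ujRiGhA+xscQy0Nq/U8m5p24H+nbhn/86E
Mlq9ohlwHoTz9JsU8rgFroO2Ei8VT68wtHvEYH8CS7qDGkoFs4k2TiFHpmYkvG48IQL4iExdiUQCJGmxmwMppLVm369TEwZY2o+V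
2ZDjGmhDddOeGeV+ims58loJKjcgBR2UIBK60xyv8szTGTH5ggfmI7BcwZbmN7lcKzkM+cgHG9DHPP+R5G9J/bELtTPWpEhdZHAv
Be0FJ+am2QYzVFZrzJlwLWC0x8T8e+9esuoK4qTO/Pb+aC/LZ7OT20XX85K6PllAl/kRVlldaFvQl/f0XBNzwZYOwb1I1RkkgMbU
AJ7lzTdB4TE2p+YXG9rwAafHVTeU6PijKTyDOcX2ujmAfzmB4RY5igk4mg4zn4Sn3IMnC0EpD4lbpRNmevP3ea6pkmfJed/Ke30p
6MAEdhjerPhWMHOyp4yjwhFAjw56jViHAFbxrdFD+fR8hnX1Job+jcfsMaXZJ4XY7WZ2Tofv1mIeHphn2Kd7b08pRXzDsESAzbQm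
F+GbtAljcXrTGjIjPvQZxT+UTsP5hcW8Nl/FWkwDr1BbtOclA/PGnBLSp7SgiEq7LJmAAnpxhFqrYT5zVJ+uXspyaxPIz2qu2AA5
oigf1AxNPNg6VkXMChiX5b809TTBYZTYqQnBNUhtW8iQPf4XB5tiMTY9P0CNWGL2HakdbmaKJyuJ+b8CBszUDpRfJ4Bhu7jQJ6fF
gzBffoUcL/OTljzkurOw9TnmxePQLp6Lvue6U/nHzQd/eETUUeUM9lmQWtS+t9RhAWuOC00u/93oYk5V2SZK9mE3XAp7/sLeq/WR
ASMZ3k4MV1O2WpDfgl7TrxDRn2uyMBW9xuE+APkgT0FzeVDrKnCw6LMI2jrfQ442ZSnSm1g/UrHhbqEeiK4SQnCplC9pIlsz5VJf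
EZdEn5UaBQDjujk0nZfD9SUOZIuVuUo4zkJ6TmUNX+Tx8ah5jKiBVv/0Vo1/SzukorLybeuYg1zRm2+hnqA2axfU67df0LcIzHq7
TB6aipmZtUnMZ4ejG41crTsIfR1OA7GBhPZl3LQ3HZXo9ssYwO77/ySOtvhcq0HCqpbaGLlPc8scdSSDtnPoVXz5H09hjLVMxRVz
5439dLt5iJ4Iq666AFG7Z3B4c1MMylyqRHJzQmEmyXd84cCdklfh+RkU1CkJ57PGzZIm4iA3Tsyi6dwEiFAm9aawFDXWmqer1sQ/
G+ds2hT+g7QOp9tfhX7izRuTRpfHSg+w6z5pO11I0FRMvENOXBavWQQx3nwEqms40dTQY9WuITGCSW5MoDop5Cx1nwime6ZJ12Cx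
Mq9XGwY38qZqKA2M7vod2ZvuNGzGSpDHjaxPxjj9IqXPHYN+q76ZXPp1Rr+C6TB2Q3lKlyIUNv0qtoG9twN0WiysY7yrIpS81dMU
Ekei4c4hjJd3X4G3krkdLDvKgK4d1AZR6f0B+HbTpePYMKw29dkVokvMgtTv7Mmpc0ieAdf61iwAkasOqtn9eZTCjnyCyTQ/pfVj
bY1yG7FxdgpNLqCpjD7NRzeG5Qa9mEKFR/J7dw29GPXdd4aEd9FtpH0IAiEp4H92QPWpj6Z8XW+nu8PW2sgmjG4Gl8IQUdbNmZos
XICYRIA2CaItvIdyPItekpPHdlFQGxyw868BUM9c+1PlMtzUXLMHUt5iyqc8mai4UKFeyk8zzT1yMm16frcLzRzPeq6UVJqV2gJ0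
ZqE5JiitIV0Ol9cEiwYXb/IS1ceCJsM4OMHJKqa6uNYhmKlA4AdzISdYuS4IqY8sV3aBvivVmJOZ8TxTing2dihXQ8l7LR4z1Zg7
Oy22tG4OsnzjtE5x5uFY/ygvAu1w225iZsipqE594SvQAd3BNvIKDArlm/cngDJvY7ZGRDt35d6pnnCknrwHKk4Blo/4eRmGj70A
xcnIAr6LgjXL1QqmjdoyA+EA9xVhpwcmoSYQDACEes1LJJd5dGtMKeDEhabXNRtsP5RagZPazlxUpY3kN/aySkJm10fGCp9uwJp1
pwT4zM2W4aGnWeCIGFYPK5cqjQAnOgVP1Y7yT3FR3aeOiYivFgYkgcjhK9fRDmEQuGyHHQf78f0muyZE0x4nDoFJ3FUInB7nTWV3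
xnhEmrKmIovnreXKcxLWuRiUaJkm2n+foDqIRH6UHRF+kRKyBRmkZQbTV2FnEDXLUSLOVSaTa7rtzQ24Rms5TdFhw49kATprZ9xn
GBD5ux7BUeWmv4W5/jsZ++ZevK/szO79uKp1LeGPqcJ49XgID/8S6kHNtWiwpZ/5A4ObKP3BxhYmMNN372gJsyolyV5+5qFUF3Qg
42W8ILSRajMKSXlTSjsg7BvvfttMjgC50nQ0yvmnMBA/YDZ6CIqTTtVOJPRnixgAX38iCCv3xCCG7as5zjk8uU6kRZDT40RNqGJx
XdQUh4CtCX2ZEr6IeSZtIKFoeZyaWQq1qfzbTELW+HiMg6eEc4sWPPFhhwwtuo13fJxTPrXOTSYt0p1GzYi9dmqnc7tAlRyICHaB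
pIOOUOFuJ9DY74igmCMpsSNnlXsccNc4wbQv+mgpnxnH7vUNZzsrJ6N6FAEdgbt55uCfb3IneEmoRqqnHIBM439uDVhI5cysCul2
KKvbe+O2k2NHmGfci8IBAJfTQeT3d1VAnk/sWuIawAfNaR+A0HsOegpx6n2vK3FcB8/ZqApAtNsECxSlYIXdSEweDEnpWslzEUIc
h8AWhApLbCXY5jUR1dDtxmo/XY1hqF0iQX4Eep8QWs3SJ+saN0916ukE50Dr8rPqpUxhtc3TjX5Fv3KAUit22d+Kklc2yi4iCCtF
LTkveTmD3x3r4U4Tqu1tdBA18VyKznd8ojtxFjlKR4CkLp1c7qGjs0oMi2iKLl8Rl88qtAwXeeG+1xurvISXxAtCx65IBc40yjkq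
Z81JrMawFTxOgxeec0nt9crujIH+71p9nXY64MXPWAWr5Vg9fhnupjf+kXLLuvt+1koDZi9k/14r/vxh9aIjmdvw0AX+zTBTqX0i
O79xV7eKSqlimwbZM1xWiklRKzMYACpVC8obPeWNzD+no5llTfDDVXtXirJkYlZS/3DQA5cqBnDg5tlNhEsBOpo3aoaoaiFcv2A6
ZbM+G/TPHM/2hXEKO1QZxcwx/WRwMNm6ZEeJ4SlzE157gjMIpQKzVQwAi6JYt8w2GwK23g91xCwKSn6a1QJT4zFsNlWvEy6pAuCJ
+moqIyK/Tr+H9kzxdDDyxr3omzB9Rn9neS9ZqQatyulxf1sBtO95Y9Nu8I8cL5PYlJuIErZQphanranNm9kFECtlb/u8YY24hXdP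
msbEk4gYbKw96WRWYctNiOAYifllVPMUeQsXwGg9UB61Ckij74f2DBqXYKkqGiYsglZflAOGqs8EnfFpp0n91S9juF3EBACQbCuJ
w2XeJGLetGYfT48/dXaarINQN0aoM10DLtrWQE0dwhBTYxrNKT0nxVeMxyv9CsWFOZSCQJqpTf78recuIsF9NnuMGQJeQMuI2Sq2
Ly7xbdQcm+9Fy5/2lUkoZwn2A76lp2G9jsjMKVohctYp2uIxAqntQCo2PQ0nasLO12WW7jyQgmZ8o2Uhd63Afy/ZwScjRq5a6I58
ESS2H4L8o/t9Oaoo7wn7giyvjvS63kRCzYBvHBfZGlU74QQ/evJfn3iYKXB3RkR/4h4lKnX8SWfUve/Lt7PoHOwk8TSinglfUeNO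
VOslpOKk62MMLIHEMAlkLrMmnkZcQ9vxDqkJg4iOt3hRAHNPwAY8duPhCSbMoOXy/P3LgAlAMLW8NSw/j+5aeMXjVF2VUVW9TiW3
AQhJTTigIC63HEu+dOlGsZs4wJOuzf/XghNI2P0j0nUjySUC9QFg+3t2hcIFyzkEIDDw1dpqqczYQ4C9dbwlXpXZbOOqAkjMBVrx
7BZx/Lmk/N3EfSo1jJXIo6+TVMY7/RkHouSgai4fB5vbM2liFK2sp3n4E709flyRkLwi6T5s5t3nw4mHfuHyuZsre00M6ut80Vou
t7rVpvPqJCVQBO+dux9RueqIva+wOj0R47khUoWgJih8Ll/61LYnLPJraMEGW4+wwwI38y4nJJX+tHvWZjucB4hMerggVYhTOu2Q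
Nt1Ix2XbrpHmsPYmLisnjDD+Wi5zU7RWf/tVeUG5W3o31PfDsPQE2FYgnA5oLX3pw9sAvAZk9XGd4LmrE7ilF5hb/Wl/2Kw8YRnt
wl1RXEsO8aTvPTE9qw5ADVqtSy7nQGK+gzB6Npj4gdDcvOoFG0LMfWPBm8cWVE9Zv8Izyg18rrhO+umK+NgsqCakvQi8vENVljBg
+P9EebZdpC54F4KX14cGN0vsOArbUBDpXwNljLEYA+CgfwZ5p/1U3LY/4SWuCd5vpnJD9Cj9TcYysL5dnDO8Q2SudW7s9klmJmVX
lF0duMYY+EboKYkdk8VRdT8WrndicEoA06g/IBkYdf0Tbv45i39XXs73LMwniVpWNVKV46bJ1r1QDISegh3rQVbFPleQS7Z3cuWz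
6EnwWEeko5QLg/B+Nqf75V0pMDGWVNzF/62F7FQFAhlCGdxsH1zDFBkQsXlPxhp4o1GJkPRQ+al3Jx827QZ5uSmkUzkVKX6rC205
h/uFuizwxKQotE+ByvW1TwKMzuLgpleeNuz9CKr6dSRkE3ajqqW2a67aqGcxsYE+x1JPqtqvD8ASSOoyRAc/simtula6y1iWdaLD
FLlkQvui4fwBxIqVeKrUpMiu/Rzt/Qxt0jqFRWF218NiFuUhY018kEb6sFDgz0MAbC5nu6HR3I1xRthcBcXUxePGL9eL3Lc0nI87
Coiqwqj2XRsga2mDuyTrxFB6Gf4+oUtU+c/C2QQAGuNe6qkiq95zQWetcXtysOV4j5bzqvf4+Su75iht3U7jptUs16wM5YbEvYiB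
Xq0Pd9MA0kDCCBgoxhkgJJlHixLx+vayXjOzjjcTPZsaMfdsy4bmwnSkwvK3oOMDCT+FExTEXRBif1jBWFSWk8RtDGB87cdh+tJQ
AY3wteksWpPkxGqWs/Z4jHPduGQ5jP6T+yHqgLq7sNdEtB5dVqfIjEiFfsoKIF2NLWEt/dcQRq+fksrGAtUE6kIn1NWEk6R7f8Wu
yoFaIBV1wOME7dtEUI+IgKsQe8wrUMO2KJlZhkTnz7FTczRZDekQNr9lgCQ3jg/wh+HhG9L2D5HbON+LsMiOB7IBxs40fDDH1ran
1cThZPsykAWk2m1TVZ1uiTPyaFsVbOMWa11BHO+UJ+NDQQ26rHXHoFcfVXsU9HlD+GFexqiDrp0a511upv+WC62Hdt+3TBODuhiq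
UGFAlWkEHvuSifawW9cQRXk63NC3b9BpqkP0kegXNEd+YtrZv10q8syN8xoQjEX1v4tq8p3tQirCBNoH2ng7lsPWvDFtf2JjcnWx
Bcyu+S1lVZM7bgpmNvXXKrZzsnlpjylZf2sJr7ZSM4dI0IQlUSPbuWBijWsl9v6VH3xmfXfEPqZbKiowMZlSLB3DZNh3ed3Qj8LN
hQflhYWXw4hoNkB7wco5vrg0V9+sx8b2KaVB+07zFtxXbWP49F+aM6we9P3poq6+6O8dnlXHLuOmA55eQFYdfO0qRLTvuZaIG3OL
zLH5/u+yCH9Dqw2E5jMoSL+JKOMCsXDomMcxoP5FEfqGPiL+f6KlYnV2f2vPndhfHc/IhPvSWsRcMV097lWB0sheouKXE2syy+KH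
SogekCfAMUm88f2EXIDa1Phal0YpXJrcdKDzTO6bJQCKcmYp9xyFDKCQMUpHiT5BWbSa+gVKkxIEIUuj4kpuRQalWVVNb3N/PxGk
qO9shDn3pZakdSqXA1FSWG+c909AmCUU/LTsUcGHqq+lE/Wi5abQOkXLGJyqw9rMQx8/SbhqA17ndz0VzB2pgdfcDcJtUAmrSWw4
c/IcNx9YUrTwulv1+3jQGJ9U/rFwXbKgD1f8Sa5KjutzCYdid4MPQrP8E5VcaM3G6GaDoClbGYMsjs4eNXWyXyJYHbv9gQ0ORrku
ZiD/bPOhRgmS3hyrSiS4Z/wYkM5OlnJzi50QPJ0PwmdMb7DhO5G6VSzrNv/notwFkA0kQVvVFPhaDyww/EkzedTLgzpB/B1/nI4t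
CaCcbyGiVyFLROka2JEH9QsJ3/PY0FBnaHBpMDsYECxaZD7yE4WVEoO4kSuyiBA/r+U37o7TlczIROQtXi/d06gG3VCHVAAqWP37
W+sNX6AkZHyxTkwHd1vrSzyJnQlwcSzwrGh/wS89Rw/uSxJVnszEMAFW/Bay/gEPl2m6M9VXuZhEGwkHdlJbwrKBPha17M4h8mw+
kADZ/xyYbWzTGZ7th17/FKA/4v+2oR6LVPQ+R5NPM7rT9P6ItnklIb1K1pOeeLXurQKjqyi8xfrn+jvuhKcTJNF+eCUJVXQ46h2T
+RRs1KqSGl2CwNxmwTEOsQvo/xwhGhA+Nf1KrCWCpXn9DiI22jeP/1EFLtU9o15fzmqsFmigpIIGmb2h65wjn21Y7ZOy2+VkFyxJ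
afnx/bg4OyXZ6S2PZlaVBPmwr2ftakiI3/Ct+bnohGSbHx6FLPRI0Q+tWT67/A0N9tFc3kwilIg7iJCKGixNt5VpnYfqEIfx5oMz
1EufFAqHa24kQ5T+eXTh/huJ7A5bKpx9knsTHdUzVH8iaKhARezuqgec9mTClimTGjbfOb2Oni3GBq9+8ZA93c4VmOxKScMjsjfk
uxeKwKu9CeaPdUl/9rB4Oep0uPwUAAPes4ZZQcFDumt1ekcq2OkXkmCwjF6xUk2qq6Wk2n+t1Nk4TgNqHo/vBj7reWFRV2/hve4C
rZjzY3o5vKdxRjdl8kW3LNfIiSCeLVIY341LHUOHLn+JBUp9GgpGjOxxIXZEThGwtLh9VOEnObPugGgV1twp/C9nlPsAM1jB2XgN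
N46pjSNg0sQjXxdTVOCzzhoUOrVh70+KAv4Hez+MxQKAge4r3s3tx9v/6NktulvMoFgBWStq5aCaBRJFkgIqfyLlr/goAeyoxNap
IzexA/kFvzkgdCTTCgpC4tn9uBkuTD5YR+o3PN8GbK1MF7zGK1ft/TTlApaDjKRPY/Dy8q8CzLHXDAaqHzDm17oOQmEYcP3FPCnF
8vsEqrzW9kmNUXRTceQ4oFz2Rw3M/TpzifOHRtN1Y6j2KwaSDg0RRIBdUVc952Ua0lNwd0tiyfON90jIoRPzag0hnfD+g9TeAYMk
Yz8QFhW6RamlrRkDhRzn1L6LVUPcH+sYFw8XnGhG9iEH4HNPhlH+9BSyNXm/sqQOWvRp3qe/UNzh+GjLrdBIO6SdtRdT4fK66HeT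
/kryaGRKcS86pVgub6bRTiQpyiHW3GIgD/NSqqj/bpVa51zN+RdKfzZyGAD/f9rG7JmKCdzaVeGyxABasbNTMD7TFdP3l6lML4im
F+RLWvFkJNrb9FOCTrpYvGCb8xyteF/+tTqYCa2pAfvdT8IOM1oyebV3wyJdP5rCtP+4MDrwcRsKIL7R47FVIZA6kjBud9p73wKj
LeoPYnq9/u05cv9vG7Twp2079SLRWwvpS0CY2Z4iGdHLtTX2YHewkg1gGW0Jyx1Nk1DCc+o2hhXBHwJtjFnIfmxTzcwl9K4FFo9y
AAVJIw8nF0RaukLFQf4PvrK8PGK6bmbS8g2K4Pl8tguh6TOPwyaF9f7MKaeXdIRvAFAR/aLQu1N0kjWLXh17Nhs+SG/XsJkU7MUU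
A7pdPllmJvFu6LBLZq4KXafSOkJxbtXcux6wqPGdbuAVjN0tbIZtaMoKBgpcyjXTNzcoIBa09nnyzHm27aMXuYtU3Kh//3SQMZfg
JkTk7dGMm2ywP9eBwhUxI/3+iM9268/s9cj2PmF3dS8kx8GY7djttUNDWUTQnClwpqIX1nSr1LjjbDITy90q8n0a2xfJXiR7JNTC
HSb9/dfyb6bjuWB5C1p67LmGtiXRBknejJyNyNWYPZSsT6fkRnjELxoJZuisoaJQmeSCk1y2hUX3M8cHwcUBu61kzX4t5dDw14bb
e+9ok3H8w0svegTRm5x3nBLLsUoqsfBV5KzF7KjYWudPFDxJfpbj4Y3uLlxC6hUBIx0gvzOk1MFAG7EXTXvE5uXHJazWX4ErWIVO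
rtOo7FBe11k/2sPs6ZGUHm9PMmp19HyrHAPLJDfI0JTPnD86yl0sxMg5imZoh6527W8zuNaepSb+QCO6jUfXVnt/sUMG2JOeXlwy
knlXCrWivkiuGQKUeevhibeJhHMWIgCWj6X4kt4y7RxpEGv8Q/TZeqD0zEVP77UPcTLySqyTIvD58+/LHuJwfvXKMRtF5gTvmoLf
VeNKO3aLmOA4G28nbmMUmPD01MqP0qXUQdKnMGsJ3V9Yi+/h5rEs/19cNmrg2GkQY/ut0aUdJd4J350LP9SZ29UcziMXMjdmcVz7
ObV00xH5Ua0O2x4Jpa7Miyo+BwaNTXR9o3KUL7YafCGYv+3D3Y9qLiSt9Um5okqA0hqqSo4oPI+3vKGC7UkLzc6u0BiUXegVRLbn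
Qim6R4JQllr1rVbUD/Q1GaDlxLVtkBwN7UbM3zO3+7K+JZn9Lx8Eyb1w/jWdkSlQxux/GJcW2w4Vu6XRGLK+m0D1x7Id3JLAiGKq
f9J517Lbl+SomM3rYTBNy0bkkPiyT2LMwHLgQ4wGZKetldOL6JfEyRX4illuS5wZb2/dicHh7TAiVnhta9gKnDx1LJLSy5p9g1l3
jEAZJywTZwnbbXMSmFhzSu8rHlcXfJW3H4H15c+m1b2obB9221xJGbKudLadGg6hOp1fPAfp+082edU5xJTqBr+BdcmfTl2OoSzT
WLRFmPeISHE5nvIqLSoKn5JRqoSNiu7r/XNLLdbw7QpHsUTQQpIZABvjplQfHcYhgI3GgnF2DmU8rDgdsQecKX7AxXrCRwIskyoJ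
o2OHtMv1Ke+lr9QTUX251OsgmMM13Mhajgcb9DsBaFugG/KoyapQyCm4Z1HKoIf7hCUIQBIGyTjtMiCiUSWiD/BMGysRPWd9t9DT
w3hox8TXCzVl8U6WMmv7Y3Q2Toc1pyNS9ohOd8QHTBpM6oQmj/A+jGxU4CCp0DaEWSSm9iHtj3S1HUN9b0gwNsozr/Ll8hlZr3dp
CjcJse3ggCiKqxFqRrdivlWoAdSdSEAjNHFZZakEitXSt/i0Aigg3j7iA8+nv8+ra8c7yZESoAH20Ok3Ewbz5skl5wJfDbU1Rx0R
nnghnp9/wQO1iK4GOusJ2opnOKACw6fnvMgD11FC6hOXp6fT5krPXqkBWLtohJyV8ZHb8C08UEXMw2OKXJ+D6eOrTOXZNT664lBL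
d2sGkRyl5sLR5HD6QuI3HuEtyWUjAPXcWIfbWVJSEUnAuEVVxMYZyLPbXEpV2spFBBNMaaAPG6GzwsshApwQshADR9jvOl/Ppc8e
NocP/6iB85UYnA5tXKwELaFz3Ix0anY5G1up1ReVpkboaxjVPJPEwyGqMqgW6nM2Stk154ncDmqFArmA51pc2oNqNOuJBSciCnnB
B91yBfLT3W6e+Wgre0rGcjuPGNFRKHqrhU+ZsopMwEDwjoOLhtTFlCmzTAx0mdxSZsUI+p9rLBwJ0hHkfb3DKp/EY2EPTh4d7WOG
+b+HnYFd5FMJOLmHGBfAgdzTwigNlW5p7g/jyjO13AnuJrq+Z8H+TabQ8m9qXn5Ik8HXZEpIv7vf6JSTHnr5oZV2xt1aQ0SxrB2Q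
wiwkKLIClOzqKlP5tmcAWGFT06H15k85pQyi6h4lSI+2yj6L/zg0TD0GamXXxbbZO1/s/6qSIrN8nvg09OdD9Y4llLUb3482F3Vk
siOj9xeRklUx45YQcuvGgm9oCxz/V1xvxUmvuGr8BF7ermOHmPb1kcw8P2L6kyEC/vFB2LEQVY5EofjdCbBdek9U9stFpu+zX8wu
V60K0cSyOlvulmiK+j0/SGhCtijQF2C1cxbAatugJNZjaQdG2ABki5TlM7jmBZuSRd/YcdQm80QWfNIBlc3wZ5+vyrG3Do0jIQ0l
isD3kOfdal8FpQlyl+YFiJApx/KueRpJveEWesU7+NVnymNyJVJxN0eyAGY0Hznp3jluZgmIW9TQ50Qs27nneb9N3iWbxm0BdUsN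
58RKLI3hXtY7Wv7yLJ3Cwz88iZfzI4k3Gk8NNQOehAGQEUGxphg19B6R2QspWaaeA11iQrE0KMh8KhX0/RIvUAjqWoJ1AE+T2Dif
F06nHmmE6NTEXHXk0jgsnM1Zpjg10bP2lFsl6nEP80B9Oh8LAAz1gZA9HJyMHag+7vq5nKYEURZRyhcSgw5A8blZG9LJuTrdrnih
yyk59TaDzHQZfrVnKt9umeuJHx2qQ+Ly4gn2TMQn99T0sL90sFQk+wY+lGk3mYZ+BHq4/4aHZPaj1bKShFn67ifD42nOICDokrMP
ut3U4V+aViKHYgHs5mCqw6QW85hozVatIi3qxZRZfo29gLEUUBqP2z2/a2WvZhGCBQBDPhB8iyQ57584xSZ3uyqcKPxrA/ertGrb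
atMt0hdoFA1F7bahtexUXY6E18uftKfxK3a8XU0pJVcpOgvv6R8GfC1vRVF1+TYDqHEtiioPt+DnUIHYb9DI3QvpuGRVDHvIZd3O
qJ7ZKWuR0ECCBuz0jjFXWz9UZmgxQKiKTaUWjrfYNeaWo9eZt1LFz44ffu+5k8OuWYCP+yvsdRkhbjN/y2eeu1NFN+4OijN58vKZ
bRTdvzkwlgLlFRdJIX/RsXwJeC1Zf1YYEJpPVeMjjJejBNIShJnPxxUX+CFDQFQj4FAARBz6FLN3S51mP0YsrCzCxdQ4vsPb/hJC
vi2nRYUOHYS/gQR/k/n9kMHEiOX2dD3DvXsr//1noXYSAAnKku9yAxs1Lk8lGU/gySDps30o7u/Fl15arapP6CLCMFrU+RY8jxOI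
dP0Lyu4CF2nt7JVtv7EaT96KVFmGWQurrrHRrFRZmiaM/j/LwdfMNfq8gY9aZZj8d6Digmb1n4fO8kXFn6u1Pss57J+9PJl+xh74
nwhGGuUnJlKbAz1XQWic0UvZR3KcAT1IZvb5dmlsYrpz5mNUbhlb/1NNavlByFtwmk98VrWhaCKelTjUmxqEE439/lTDrsYOAjDc
qmiWTxLQc1kRV71SQ6HR5dljSs3MKS/KnD3ryWoseLwZDrLGKBIDDjs9nTcTAGi/CjH+PAk5KqnrQ3gI40h/hXSI4SDuZta2S7RI
CATUK6DoEM9ya3j7ZRWW2Gu7sZYoK6/pMufR6C+dIkyOB/WP5iDO3EjimGeNF+/1Hf1/P5Hz4DvL0dk5E+bIeY/UrKElbEI4Ru60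
bWH+ks+1Ic5+byhSFIFNm+nVGn+m39B5z0qq83VwhSahOXR+/HBoU9lVg4Db1yMgZTLnbaV/SKgsPXL2XGkhNC8XkVhEY6zXZxaJ
36ZypikRCZMFI4prbGtPPK58WoevcDvmpesO7ab6vEn7ys7GUIYvUVlu55DDT1kO8Q+7pl1ZrpMvtvEHy96W/zphQLYsMT0para1
5eHt+i4iFfY22UDu29FF85n3XySy+69c+hAmz9kcRvS1cXeQ7zwHJ3ebZdq231PfY87k7fE/LW37w2XDdO61kb3eP5TKh1iOZz+v
6Wl57q3efTrOpKuoJwvi0oSqsa8SHR0I4S0rIWCdvvlLhFss59hPeMp8FtEy8z4RhFF3X8yAwfA0IHIcTo+w2J6F8EweYcbeG0tE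
slXJJUSBZrAg5mRrok6XZQyMwtTpXZghSw7vVwYeMP9JuBgnvuFT8IEhX13Or1fYVhua8LVrcJP+Okodb+C36jPXW+/AHPymTMG6
cokGUzqaJy9efmuhG3c7B5RfnMcO9S8NdYxsZTsLa00spXt5eK5/U+fqoq+lNObDIfWo+SUxyDhR4Q1Er/NcrRsRVMDG0yzDkPTu
NkTJCZuyXod/ej1R4Dy2JoSbxMBDEH5WnGTZIKdt+gNU89IN3lx4LvIGbkw4wDlIQsj1+fkxI8fCGTMOls0ulReS/HKdpLmEE2dL
SeeuMm9eqawvcdVYRj0XpXf2NlWNVD+pon04FTiV3KXoNIsFo9BmKVHy4c55ifmlkpAcVSOAVP3Nd95L7VVrcMYXh22B86VzykS7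
t+i2bfNgpKEq+GTsR4dq+DUtS0+6wjP64Lpek9rvWdT+kyXGyFPtJAW8UxBIRkczJ4qY0uI1r1kzr5ZHEkq515VDf7oV3zl/h5YN
gVuuHa7FUXFqso6KhgILaUwoTqLLerjdEiTuxGnsLY6Dn0BjofiThUjXqct8YMUCMgy7IbjXTLroafm89kmbRcZuk/uJIhBk6Q1K
dyrL2RVLuYqiZQee3boMXSz/m3TtXBniaOuxhAhIuNDAvjb7AW+O4I1SsXZuMH7WxzWTM61meUpZaDbf0IPBhSA8ieAYhqdEKXUT
5AIZFPVQfbmWN4dWOaty2100nbLHcKd8ND7PHt3r6JBB/MkPoO9QhUCa3vfvmJ91gAHnZfqV/+3aIHvw/wIFlwsts/5k2RKclJH5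
PbEdbCK3lXtFn7ctQMC8ioU5nu3X2VuCS1ZUUJcT6eKA30/33z6EnLXbOSDL/23RnB9hbdqKl+PrZ/+Sc6bbaYHl2aRYZiXgpYAw
ORdULaywpuKp0/aJtiYjNY3DuQP1Erlt3R9ZdiB/GiIt+igD+ksyXWL2eSRF0yEl2Y8PEPOnFIPk7ce4Moa5wMB9bSyAsulhyunb
M6TARGcHHX4s/GwTSjQS6eESlCYgzBtcuj+SPyez0a1RsTbjM4fdADRMbpR5sprWdOHyF3ZpKrDQCc4TKsmKBGm52SwkwFzKpnJM
+IGpTqzkFMSi6Ekt7z3a23nC2psFDqQMIDkC8SH+e3kz2M0VxUwc/TwJDjNPgiwj7PFvw9l9aswnjUPZSnVgPVHLTW30fgYBumTj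
jAvN0cqpljgtpYCwbYd5SI+7/MI4nkw1u3CGZvVvl8QrKQhuisdSpb7uHGh291ldOcmTo0QNzK5PGr6bouXnKHks8EalnIFtKmD2
aK7EbhrHU2sX+Y8OKmoILJIdlALHkOjREKcwgvEUkffFgncSI61RvrThtYieEx/t++FDIa8A7bC24KHhmHpXhzygZQOozL38VKB7
VjzxkIG4ewiAxRO4t4JLhZeYIMBZWWStTf4ZE2PWW4adMETDpV967hNI9Mh5Hy19oZY+h0PG402ibiApgllJPBB9hDVKuAw6v+W2
T0zGu1MejcwBkqULBuJbHeRXjsAE31+cQ6pw1p0y43ZWtBpekTfrcFh8WvCKXQ/N7h2Gb1ycx2I/2MpGgZntAlKya1Lk24BmPSZx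
bZpGhK221/EEnhnIIPRAEuIwpb5ZRUSfJK4s5o66I3UQbn4237ZxwTafzsZUU71FAE/1Rg/Bo2Tu1YPQWY4fMzCFbnKYplbVkvCb
+yFUH42q7rQUnfV8JiyYpiyUq+KTcA6wyhjnjf/EqRfjLHpxrXA4PELbRwGi0fyQne3d92omFZ/K6koniosb1DRIp2CYbR5RO6Zy
AJ3KD5PQH3Tih7TOg0j2SfhC3kS94uBDwSLpHryEd2fSSgYCifE8G2Z2eYQEOdOjClJkyyxzfAdeo8xkbpEuu6NLS2i639t35rco
xC8AMBCNrC1inx8KpIKdJm4JB7nCye10ANRFVNamOBeqC/UWGexCYGiGfF9j150hmfgt11H1OBZ3Hs8+9cEfpgb02tKVtv7w43za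
68ObrDHzGOLb0CB+4U+3CqlYAtIvmNLhYxK2szVmMmqRSF9vSr11Hkek9SRWXzXAQFPT/9IA/PJkQhOoqHQTjTx/p1kCjSIlqtVm
9PODNyxNP0XNZguUios9pwcbe1f/0zU0OD0q/mwleUYXXao1ZcUVT/c8UTqRy7/2a0/pcfgYwiR9S8zhLkxwuzZGX9089xFBNY8R
NtaH0KbiaDujgy4C3Pk/DH2zN+3O6XzSnNz1ZbejF8N0+VJK0IXNWWo0x4DJoJ6cIXcHd+2QSJj3kyFl/3hdG8LAWx+diE1jMGh3
s0LmxPwDMvzB2391C/k4hFyr42U73/m4EFkLzyGl7TBbLBiyzSKUOrakbXaFzMfnQryZCun4tUPTI9+c+/r+xm7RBax19qsZ2cMu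
M/vNYgmccVc2u7M4iycuTcTJw4PlkwOKTJ6L1VbwS0eRqR+nTGmtttfxFd94m5Fm0pcvV53xGkvCbRmDL0QAi6fO4cz4T6ceEDuo
VbgC+UotVCnrhr78oXVFEUuHyU/urwVMbKdBpFjq4wf3M9YmjSANsdS0DjahbJKpmCK7khbSHOHt3d+1RSulGJX9xu/Q/7fbalDH
zx4kcfteFDVOsEr4pDOsv7jAYyrowXt+5EXEkS28SQ1H5vXQN8xH7G7+4r2x5Q1pkYelL3qQsAUuKgXb8OqTgaEFIKw29gMjxxBb
tExZPXwARxmWjAyNfcOES0zr+3CKzsSLdU8Tk5hCxg7jt6mQxUa2zl3acvUry3kjKukIxkCHnx4KJ4BgmQHBHdeDu2FsFtqswrNu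
suB/mzugTQ+W6SJM5QFmstIy22S0OJqJxDxdHGNm5rQWA1h2gZbLVHidZslDahyNcUe5t0G5gXHbalc2PLM10jmuILAbxoUxoDai
i5Fs4lb1VrasdFZf4cpneiPBZCBocxJIJTHQE+9Vg442MpYzonnFqJLRVOT/fhIoWoaum7anE2JDoj8jSn/K+GCXhjMxeg71NJvU
cPckwZskg6fNCv6zhCkEM2pc7gZakZHEGwjp1rTzShcLUQ1LGXQMMmSN/LP3gm1lzhhn7r05CjraztKV56jxyEPyWunvDxyEaUB9
CwO+aNGhtPnVvdiMIgAdhWL71AxIevTKtZmx+gCIAUGyRKgA/kMdWG1FsN+NDT3x8CSRqgzyyklOtjCJY+7J+UoIodc59LeV79um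
wWYwMs7xAghLh+H6bGWDFXyKCQja9fxpIabKtLRF+byLkhfblg3r2iDtbcrhj0rxtEOfwul79Qsg0R/L/tGd94ZpYUrwujVMUx3r
WzpacY9clasccavu6j0hlbJtqxheaYypXa/8iIHEtJXNDc+5Iq+aW2E4cgpRg3SRBqPg/lc1uGdNPmS5hH9ZOcB1JmZOy9M3n5SB
5csbv9yEVIA5z6tATQbzD4NgrWCkU6rPBBl3MjurTL5cAWdCRRCp6MeUxcLVhTaWtONOOYfMrH7Oh8whrRDKjlMYWzx4JW4iZwB1
dh8fosvUVv2ZoNGKlcgpC3kvjxnXA2ibB+iDcQR5qK7gugRmlmasU/0isBVQ8skcfqYv6/Gwdfa7U6MORizV7r861BFk/HIZ/Jcb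
JCvMkb1V2QtC2c7PU/xiNk8r9Bk3arWdctK9/5zfWR2Uz5jjLKsuZrpKkV3cREBACc+9iQbUQ2r7MUZiXwp7YHkgU5BkuVku9Yw1
VhCgRQeJ6LVkJcvHR1rYny5L/W8Ba+hV8fTuErPXE2VJYmHtYifPD7h267IBbvqFVwdZlIPUnLnJlIpZrdDMiW0w7w5kF94KanbK
CdHSK2DH00tXkBQVQKttaPF9E2yi6BxTi7DfTkf5k7iXyAjDsTWIE21f8QQGL6HHs6aojL4YpbKayoDr2Tc1820vLNdZJvyA85wI
BZXqTRaUwlcRP+echVKqyDln4BWKbbARUwrDPmUnVGyuBOd73yrxxEJ6ozIKXeU+hq99Cbvjjn4CblEnmSicdtLlvMuFgkmnXTQf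
5yMErkEWRTZ4sc5jwOOwPCKDwmyivl38N/qqVweoNA1044u6IvCgYn72aByxGak8CbHm/sxCp4d5eKaPsQ6pEYTHxULKtX7VWIks
0gy1CTdmnhVKXnZGiADFOX789DoJCH8gd7y5Z7apZSFFue5hqcoMra9LP4IBCXWyx4dI9/zj1hXt41ZT45kxr0NlgPvS5+coLOO2
xyUEwKE0YOEnuar4H8HCwzg/pl3GTQwnpRbjcCfq9WZWsHQiQyjdL/8NBBjoKNSZpdQeyBH6tb9EqTZ0nkZVnYnK+cBsxWg6jviH
+emDx0//UtgKiGC5p7BoeoCVcJ9CW/T+ZhrBBTzvR3ctDI84on7yr5cBZTGvQeNNxrkTpzctBL8E3gOxoqZkWevx5q/vxcJpHObL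
JJ1atUJ6kcFsnDywyhQF72Zl03qrPAqGSMoYPiTzQlpYgoRZ4qPuGo10r8ivZSvRd8vFvsJrEbhvd6z1bRsYhm4iWjyJh72T4ope
SnX0fSDZt3Vcrm/oNx0j7SLrcm07FJOu01ZjxQXViKh5eDthneJu8SOyp8EPtDDTXjTtbvJ7Eym1/r4QsBIVpvzPbl6azULwXlX7
xbXMeGQ5ExcbWvttyviwtK+jzLwbY8UqB0IUR0oC8z+yWaSz8ntUjN7i0c4CUbAOq5fd/Elg/bbhMLTXx7sU4DD/A5qI3lptSk9D
8jSgtR6MMVAgxU2kpYbaxHSYoScNuczAZz4BqAmuwvwgyL1o2B4seNDuKhlTwkRrc52ArFukOyxFrW6zI4TOlDBllR6hra4ud4wd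
ZTdY0XpthEmSsTcy4fns/ivjdJLx/Who1aiKlmezNmpX4t163sMdSRmjHyWoRufhamenvlWZuzMlZcUFpYQNfUMQ8d/ssXhri+A5
kGfNu99QfKKSXvY6C2dAbjsSlYmPnbZl2RwTso0FZ+haxYvP/OqWXtH32wyrY/EwvjmRhLoIfILJ9vtv1v0dfAD3pbmwEzggW4wb
u8HIK287/890H7aWLNe/7dHTRsrBElHxrNniBntBBoS37E3VFfEiKTqqvo1PygQ3DOMDVE9nN7l4M8UuXWzQ2/As//L5BweC+gA4
7XOPKrPpTRWKrT0hERcIQvjJurOZIiXZO/HntVXAgVxryPbew4T55bqm5K5X5a0YSLzLUtpbvg+FF1TgKfdS80d3pstO3JsjGpr6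
c44cH2Z2YyYnDKRSbn0XMiDtWLxejSMIqS7HnS2X0PViaTRiUo7sjEAZcqEqFubPq0ve06HJy2ha+v9ZDedJG5dThc9Ho/gvqqGu
sg71EwqfWgySGmnzi5u6Pf0QbROIO2lKcvinvCmbawXtyIkXEinxHH2rJflnOxjJ20CoV+yN1WEAsgHaYZjhxrpEKSXwLW/mHuub
IOdNL/9ioed5GuuNstzjtVUQJ7SxdOnyJFQ61B1nDibDeAEa+IRourK/yZc+dZ27M81eDU8hKKAsrpMuQEIjvvz21Gpqh6xEK8PB
i+76zNUU51AELDwrkTJEd2gob4nkTMg6+f4SqVbNPqTE0fGVZCJz6QyBltJNvvpYsxrxSaONyn4Wq95Vn0gOtpTPXrl+7T38oZ/C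
9AVE/SFZ9DS5GxC6c8t5KNgclJbLebNHCTrZrt8UpRjPh9mL4AjGpkYlFd+8OwE53f9BAAVsBcAw/dTOd3pAvd3xtcoUJT1nFJVw
0XPnKAvxlejsuPUoteUere24uOEt77nGMMA+x3I9vAA37YghEx+zN4F6Tx8Q04AeI2j3K5nlbCiV1AyApBOpoWWHSndKtcktL9yS
PIki5XSQMUJOxARSeF01MCkxyAG2KHAxJRNyz8d/cxPzKppHgAk0r/9rWevkWOVfbKFD87BEk9ltGCspC9TTq//nFmU2H2OFspTp
R3CvrPBQ1B2R1i1pk6rm+VsVZDzYVyghx67C5uGIPzLCG+ucswhO/Cr8Su0ZYh14PW7urXzExnF2lkXInpdGyV6vpaNcxuIaDrRj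
nJ3oLNASOC/l4nmh8qAi2HCjfCLOKMLZOlFWeGpkzvPUFGO34ogXBVClI9Llms00LPuP7/Tw/ueApoKGqEQi0BjswklK2APzkUmd
QmgmO3oXGekYvR2FIueRQsUt3eKSoba7XTx0mLz83G0E34UM/4IsOCYoelUYlyvXjz3Io1bstLG+GIqOvssb84FOUrC0bWRJlu6O
RYycqhDzVG8Aw/oySroN4apWwB8UgH/vewwIRmBvXz4ThwKsVj9sBDhgmmSA4CKe6VGlUdwJEwDp+zs2WyDBOk/dg02i8RawLWQm
VCNYCpZvm1jbXhOHslLIx15HYGp+XjP3+IJ/aXgIFfGfQ4PzdUvr4YnQ2hL1X6No2RQZh7Lgf3jwi82dYuw7xUaeZnbuYbdikd0I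
Y5WrwWys509NvzS3rqfPD2HRFDFdr5Ks+PcsWFgIlEhSdCyl92A57FthEeSvOjnfXH5v/tIkwIvZwMDadxj3fKHzDiRacOdyPBij
vy8v6VYXBQKQDqChI+pgTea9oxBBpPItRD1PHsxK8TjZcLt7bYozLnggzkmd11VjZ4sYON7TrnDGbUaqNcrDP676K74jiuzZ8TBq
65XVKgNGRmrRWg7Y0JugocPHvxGj7MDmnQ3v/jO/vhW3uoRy6gSeGbKovXmpTIVyyExH3mf6HaQ98UEvkj7Qa+XrCEDbvGzOkTvU
9XUrNCWfHRpEQj2X9OWb9dpQ018m/MG698zUWIVveXAD+lJTpaYu0vtkCqDhSqrbu4IfItwjBFutMsHn8O5IuUzoXIUaqNz1LCot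
uSiRnjE4HrW6Xkiv4aWeYd1UMpKEqxf6mPAiFmouLDb2jUwgwUQcaXFC1tMOYtA7Q/tXq1rAjZp5SX7uGoQZ+ioWLxvB9EhW+k/i
1QiIQLbhZdT0eusNyyl/VtiCUiKFVdFO4lJ7mN/GZ2FIM4C3QYBpn9m8JDDxtfSHIbeJ5QdgbSpW818cRTjdRI9uX3OexF6kcbKB
12+n9C1BPdVasPgWS9vaSIsKtHp6XEFqDUsxjOgAi7OUch8NSCpTS08zEewHPzEqOgABhaUGlM+bRKWaRR5tNc7fyZwIZ8g/mXM8
VNMcoVj2J2hEtOQsx4SxTElHUXuytOMQABY9vYWYwiqbKEVYGjaYdBw6onkD6r6ZgFJFAsvrhlyuZhn+d3OxDvVRS0W4I2sow3yh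
xBe4hOsGGIXPQki9msVfT7CFPkKYlIiBw0DiV7Gp7lpiBDc7lEF4tn9tsRIqKxBlpTUXqw5lwwmc9EAuAB1lgLrKl9Nyh0sXf8+P
m3dalgay1r9Cnk0cFkMdeJnExC6TI0XE54UTRh6DCa3BPh52mFkPb5nk5OjRu4fAfZG04zNV+s0DTpZeRZQdMI5r6NaDUEjUIEQn
+t+HnH4E0sLLTyG1QMWiJcRmjoHLY6eNIYcd4F3PtLwsW9VYiP3puII+OWRUQ6KWZUmNlR1lU+GHrujDjD+b0bepQna/HhmGNBtV
2MbqhsLn3wYqzf6JM/Z3hYpvWznm7NEqDA/cn7s3pp8e3ntnnBMYlK3zKYsIlmAcsdeemxvQ96uZcrpcQj49VGWKn9iUCnSo52dc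
X0ojf9EBVYBAskdf3UdatP5O57zdhPDaAD18FHde/2LDawYvdvayTPpZWcFSKaGOpdvS7aKwV3srgfmwKBcOU5kCqUUGQSLXFd3j
ge/zMWsCBc449Vc6mCTIqky1xv+R4vmqEGriKBcsMDsEIbqaJ8eta2TsQYQHkER7QtMd4Kv5k9h3Ta5wokgDb8vG0zK1xyGiLTJg
L02ouJXwPdEZJ2u5uhW6OfpAlmOdKsutIdvUSsHY0ilBbKS5+DxWLuURuzbmUeOf8YQgkSij75PxvPjdBHQC4lX85O2XgkDxbwdJ
DG+g6LCLRjYsKdnG3oR24nb3v0CCWdveVVOUn2Jqnyj9UE3gBmhJnDEVy1TAdo2PR7QHNPAUKKsk3ZJw4ehDPi0i3V7RgAYYGBzl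
TPjmxTwm0u1sIvdK61XUYXYFlmbvI+4r7d9/L19k8/3T1aTJsx8kD+kI5PA1ez8HmlBpalkM3zBsKfXhkHsXEGqdg2XGBgQMwZ6j
hlHl2bob/G/mHz4/UNNaQPQGqe8dioS6bwXkZAW64AaVI9GxLTrBVp/KQaalc/2FN0tsiLZpGKzAgM47Y/T2bzOqZ/a0nU03dO1t
dv8Swrqrx4nsEbqMRUTJ1k1S/h7WwiMLJjEtRF6U3wYu4lj1BvicYr7hbujNfqiMJ6aVkqO6fpU4OvSSz9SHwMMHPPOEJ6KuqvEk
L3By9L8i9Ih+hGWPNZex1ZguZu08olRNEdq+JsBLwi7Lh+5CzcnRSA+/v8R8qEzAj7D+eeKfq1bYg5bRayl3vVAAPW3lXInZ67L2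
TowhDRSf1gp00kOzi/9FjwhVAahk3PCgQ9HFoqoWQXdpBS5K0q2LddzUXYl6RFIjeQSy2ig8ZOHqyFOpVVS7dVJRbQhjN0sfr7fw
XFoHPmV3mXB5iNgfKy19aKSDO5SFU9Vqdl7Md6TxHqyP7h4xuIdEGVU/ZIdB+MKhu6s8BIn1K4q7S3sNEghhS5Nm6aATql7Kf0Xf
4e6zed7a5Yspft9F4fNHkx6n9HHiEZmxQ82rXsLPI/fOHBvQudLTzlQKBfjZGmBcJolhpcj70LHhrKrQkvqiHTmakt29wAWVlcb1
bJVOGlZaS6J3Ilz3EsRTktVWEyDvWVK69K/4OohTUtDZmJAKSnetuzKfYckcY5KYWnkRRlXtGV0sgn/nxXeW1pwJAeCvrGwuQkJa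
LtTT4Dfm5DZNSpXk9r/DqbU7N6SAP+Ez8iRx61jy6LL01QB2DjYtdGS/9fDhae4nO8p4D/s6cjNvg5/9bW6UnOrzujptolwJipnU
4RENFNUMCtts9E1YSdwtfbScbi5+MOnnPeJSufhCRsb3wzPDwMrUjjSszJmmRGBPj6/BG12vR37ZzhPZI61CM7HexiXeB9saVKo+
pjIiXET3AtZgLsNHGWFPBqDmaKzpn2tYfG+D3s8t5pi5XlpaNYav4gP/9tN/wzWlJ9uHgRD4CYjfnk/NBKngkrOFeGiEy0snZpvA
LmZGg+XDBjlQdljS+FjOPfZRgYd+kIIH4D8XeDNyMT+Ht5x81h9lQZGhdwPdPTsxtqq41/UAEYM3EBavfxQeHJ+T07ZxJUb1YjbQ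
zexhYd1bQ4uceCZE795hZ4WkXa1F54ZuODUZ1AKYFny+3lHx+ucHYgGw6Poq1+zWmEUXROaWpH5rv8xt4cctMBnSkdI4X4IkbW+A
1Wvhhl5EcrEFOOE+WaH18e/+VTlSKYW9zNOWhwNjSYZdvqzdYiMj6tBBzH2FvIjU8cPnBfH0OHwbP6TymFx/IKajHks1m8gyQl26
Njobmv9CCEhzq7eESZlf6RVKJXmIfw3903JDNG/PxAiZ+6z7LSahaNSBvoAEpvjLj1ebu8Cnsn8C2+cnzqu32KitimvGj7Clb+NV
yqkNZYfPseFQPzEvW9W7P6Yk1cQ+n4QGIVJCsZfXDs51X5aPYzKXswqFqATzYx4LgprzyhCRMDynMAdm4Km+KP3sQHE3zAjeSrcg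
YC20FwfqUyjvRqZhxsN5qDR91t2rHSZVyqeIl6fzoj3QXW30DHcOxcki1gcuoJznYZxziwnutgyLRbK+sjJRsKVlUme1995htQPv
jctlc0+j+2KSQlg3UbVe2UDCyB8CXKxUvXfOkStIknH81v78c2OdVW0fkgTpHhwtk+5KSo66czPn8BYYLAsNst5pfxSlC6fwNdjg
W5eoB0OF5hw/5bY+MW7qP3odTyfabMbssRnI9ymQ4T8X9F9tc/GpgvYoHraSn8gGlOIubVu3X72+Zbf/83a6bbK8c18SAvny5Hwf
ROwKgjSseeAHchrey51Gn+VxSPbjhD2z80Xk3F7gyRHAWh4UrOzi5f/vjSZfFJ1frVtycO/8yaikZ+DCeTeIssonSGgXbUvLPJ7r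
Pzs9kwNldwWWS2GHRp1ofLR10xivJfGXk66HLfbcof7gHI0TcplLjesFWmycYWQ4f6G2N1s0a+Q5yD0xLFf8lonuyAID0jOGDxzl
E9ElPtzfwdozAKzf/0Q4E5/fxZTy4zd50CBoF+Fg5oueYLu8E3SP2K+dBR1lCh49H9yGEtBjWuTBtCkVQyT/SEvwCqsExv4ZtKqz
uE2mnyA5l6A3luYaxnx62OgcZUFuFeyY1SSLyvchgk8NooqO7PPMXEzA9Pq4G9cqSB+l9JVwi/oi24OxSaE9ud2Cm5Y4bH79YZFG
WYGINgnsb2qKpDrKdrJSIqvVf5Mf8Yo5Ei9xAFzjg6mKOqcBLh8Yw9FQRErNz5wYV+djtwHaWYQLZ1/KOHvoRrvSznpDVOPRLAgJ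
OoOODZmo8PxjKQ9booK+pCjPzsHFHDFn6ADnh0sdkC9lhbDg3VwKjujfowbxstWOGHpkosUrZ76kqIjKxbFcNDFZCCCXn8uwZvo1
tEPh9Drw0QO7f6Tbp5OSkeUrbw5ZkLzSba3vTqCYnriCfbq0gZOtt5TycW83OMSP24g034022B1XcgAAAABq6G98huh0EQABsfwB
gJAInNcUubHEZ/sCAAAAAARZWg==
..........
-/
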