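/-
# Project LT: how to make the two results unconditional (notes, no Lean here)

Wanted: a flag triangulation H of the 6-sphere which contains the doubled mod 3 cycle of `C/L17.lean` with the shared
minus lifts (28 vertices: x0, x2, z, u_A; x1, x3, w0 .. w5, u_B; y0 .. y5 and their minus lifts; a, b, q), given by a
sequence of edge subdivisions and inverse edge subdivisions from the octahedral sphere. The theorems cubeE and squareE of
`C/Asm.lean` turn such a certificate into full answers of MP_98dedd_gt and MP_228c3b_gt. Everything on the Lean side is
done and was tested with 73,538 moves and 954 labels (4.5 minutes).

Construction (helpers 943, 65, 308, 396): S^6 = T * C, T = flag S^3 (468 vertices, T3p.txt) containing the graph G of the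
21 lifts of the colours B and C with its legs, C = flag S^2 containing a drawing of K_{4,3} (hubs x0, x2, z, u_A; points
a, b, q) with three crossings, one for each of the pairs (x0, x2), (x0, z), (x2, z). At a crossing of the pair (i, j) the
flag 4-ball X_ij with boundary T replaces the cone; it has to contain disjoint images of the cones over G_i and G_j
(common vertices in the boundary; self-intersections are allowed, they are resolved in S^6). All integral linking classes
of T3p are zero, so the X_ij exist. mkH.py and the programs of helper65 make H and the certificate from the X_ij.

Missing: the X_ij. They are made from a movie in dimension 3: states T_t with strands I (= G_i) and J (= G_j), moves: flag
moves of T_t and homotopies of strands; I may cross I and J may cross J, but I may not meet J; the end is reached when all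
I strands pass through one vertex x (then J is coned off by one more vertex; helper65).
What was learned:
* walks with energy get from 72 strands with about 500 interior vertices to 10 or 15 I hubs in seconds, then stall;
* the first merges of tree legs must be made in the right gauge: for every port v, every corner (t1, t2) of merged I legs at
  v and every J leg f at v the winding number of f around t1 in lk(v) is free before the merge and frozen afterwards.
  chks.py and chk2.py (helper308) decide in 25 ms whether the class is still zero with a given merged star. Plan: solve
  the linear system of the small unmerged states (w_x2_z.txt and so on, about 63 vertices) with these windings as
  unknowns, realise them by local twists in lk(v), merge the tree legs at the ports first, then contract cycles one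
  at a time (the other I legs are passengers and may cross the star); the disc D' for a leg e is the one for which the
  potential of the J ports is zero: H^1 of T minus (star u e), min cut with the potential fixed at the ports;
* logs must be short: 5,000 log entries give about 1,000 vertices of X; forced contractions (eg3.cpp, dw5.cpp, dwh.cpp)
  need 13 to 60 entries per leg when they go through the right disc. About 250 vertices per pair keep H below 1,200.

Archives: `Main.lean` (generator of the Lean files, l11, chks, chk2, drive3, small states, dw5, eng4, conv, eg3, lh4, start
states, the test certificate), `Walks.lean` (helper943: T3p, C, mkH, red4, segx, dwh, solL and the last states), `Certp.lean`
(helper65: from X files to the certificate).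
-/
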