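/-
# Project LT: programs and data of helper943 for the search of an explicit flag 6-sphere

This file contains no Lean. The lines below are the base64 text of a tar.xz archive (take the lines between the two
lines of dots, base64 -d, tar xJ).

..........
/Td6WFoAAATm1rRGAgAhARYAAAB0L+Wj5PCQ7/9dADQOQoNZdAIHb3xaI1sUDKBzy8DdweesJhb3cNpiFXN4bx1ESDhj1M+fdNTe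
C1W9St7qRHuq0H+SCW3avqeg/I9+E41QlO5812ZHMsKJxTpq/c7HDwzkJRpjlT6a7mo+1viQ3yVW2Z/iJTJGsbFyDr1A5T4i08fD
8RGfS0H9mOtWogGjQhVDcNdPmZipaW4aG61mQWXnwbJIr+DgBM1E6f+RGxaPLMVQgWlMZJhpulXCX8phecPheekVP3BjcDL5ZGv6
88UAZtXtV0YGcv5vVKzeEKxNjyQeY5dPJfxVkGIgZtgoSi69eeCk3DBrmpsCmOJnupmrKQVBhIvIws0ABZ9hFR/Zf00Jhu4O340T
89H69pKlg1vHsWcJfQQ5Zfd1wB/JeN2Uv4ZJXiz3LR7Yu5x3EvxVML7UmMstkqBGx8yvKsDpLOCJaV6iO52QyChxEG8Zea0H3EIq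
oacOjyshzDmzSfB4ua6/52JxoSTFKIi2WywO7EOHx1xZzoKgCojJM9LcmAmpjt8MUH6boudaAV170KqNRE48WXUWaSKmXe0JNdQJ
O8Cki8NbbzyxZkwPQRth4f1QQBQqnMFymgEvsYrYe5IQ+zIiVYZFKAQrWIOuUci+fAoBBfJphMRwMoaP6ewTvkUSo0NQbbqVdDSy
l+PlihfCv5Xhzo3aCF/sWbthwWV/f2uZHIEVzGdKAk2nJfhzmcN9tVW0qiGNO5NujIzr2QIucDB3DPNEUW3J9Fpo4ZYzzDn0Y4Ve
fEnCcMn53CsrpK97QTxnOj2RMyAfrJeOEEmEHIl+4gkcUwHW+gtNKML/NqGylFjfllsuVBUCF7zBKjosl+4VSUuOOw30ab3pTbfN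
37H+RvVWhiSTp27ElsEAJlBGJyKLazOyOr5ZEBrGAAaZg1+2U1cfeqFSa/23a4LhQRMGqF3JPVivcWhI5wnaDL/7aCdSvSDfSzP8
O5GkkAhJYYMDRNEyeUJyNM789SnXm2g86CbTfwA+j1dzZl/5SnBmp+HQLZ5LQJusCVxfavknTuWBVFz2jHE/qcLP8eAQN0RGJAAk
mTCtAGE7odD2eP7ON2VReZo3dlcjFecJTx/JT7xRgAcbq5q4lruybm33oNuRf0sZjnpAykp1hdoP9PuiWTc2DqA5pMkCKFOh9m10
ywxlTQCkURs88SleVX3M71ldTkCroQ0LR2QJoOfxs4mt6dNLjp3vgAokSuiMOxCXwNe+vG0WjVvttrEpMzN2+UzDF+SHcPxOt+us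
/GtloJdOBTZS6QehCmOZUsa/D/B9oMQzqkti3t7cCwLpmxbT/0jkicK2Qv+t5+39wvnYw9RQc7aBzE43UVDtfVXih7lg75i7U3M5
JWSid03yaGmrMJYZpO2P5FNEcSZejTZ67o22HoKAb559ebJOkBO22IlisyNb+17jLAFiB06nlEr1dELcLDGc6JMkvdXtLDiRHlG0
GEv5MK0vG9jsJlSL68upctPY1VDwpy2WZtK2t5pFghowAcbOJTnzMsgDzed4VQ3pDhXaFptRkDSH5L+xSS9fPAYJDESb1fNvwnQ7
rStSfvaWLfOCpO7jU4AT9OidYgWQI1c7iqHZijrkuZSjdpMbYtqqK1QCcmchRARmdiTbKul2rQQd5N2jPG9WG/RdKLbkLkMktyVr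
C5AO7aPV6PTlpVH6+w4xpIUNxzPdvLLkyHhF+rXOBYFytXtdIuT+4leAYuCkPX5wD1DTsZNudLlj5N+bIpo3TRQUKbach0Swibb1
yaC0y3oTBEiNGpNkzH4z/aROI8KA/nxyiP3T+lb3CJfLnxiF+qw9k03IOJpYbuqkNBH/WR896i25lYfPxsI6dUasgAvTgMX9XH9v
zdQM5hsGkEEtsK8EhvIJ0RAJf3QVmwftdnYFK44hPWF+Qn/nZ94T8f8dhKHaF7hKuwKGad7EB+hX5uTNSX3P5cc4B5l41dSh77dJ
gIuPQhoriX60yBIj8cRQNSTeXf/4N+vA5bULy77qjD8bm0IJGaVfpZ9IyPbnylR0ma9xXDHT7TtOi19V3dstKbpTx7250MjxVvXz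
cM6Ynw+5EH5xUxtDMnRFSyuznY63wDPHcMecJAqhKviHZDF9gJ2wcHd6VAW+cEs/dpXKXx/QZi5+QSNUbQgsfhGYgqjGharC8XYH
fUVAzLeKfcuBQT+hTAPsJbbQS3rtvzxGblJ7aHKftEJTphZcqDpoOLl6+2H0G9wbGfl7ptMxnQ7FPiaubpcGKgKK39NJonAgIVkK
z/XmfEKkTESNqDBw4q3t+3N9Pb0lN0wjmwVn6tpl1UiBXRr4s4SWRPkdZkth1C3Kibj5/wvAS9eg6MylAI/wAlIuofALQuSs0yIY
czQxLLjN26lSbd6HQBLvjWFrzZzX0f1qrhO56G08lzo39n/cP/uXVLsbuweiDVXxASbf+9k8L5TlX8Qf/E3gKH+vAAhDl1Kbp7YD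
DQ7dbUDjmhILwSzAbobiCxRJg23VlJgqzj0UTQ/0WPH2+T56alUZ9gjrYsKKxvF+QVlzROM3x1YOzdkMj2xV82ILILLMR/7KRFT3
XhRGzerYu8vbjLxq6uWZBDazzXhQzbSnviRwtHz74ik5k+OB69HXoe7ySpchvuE2DrBKut/3zSl7kex+6R1nwZ2o3rgNc8LnI/Lr
6oYGzsoQ5SOdh9yvYuhLAM6EjLoOb5T3Rgbi5iiVklS+KQIrhknEQULbPuQlzRmGqnCPUNwkHA/MJE7+RpVPJrStFBvcihi+CUF1
HL/z1t6sDueRiafI5AV54wD8CArSWM2dpUmrDDWSEL/9nV9/eUUfmeZsmHvv6BuOJ8utt9eBFgagcao7epvokvreMRBSPjGlAsX3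
uDS90OTom2a49Gm+tS3hBMKSCN8OZN75r/pos0Tjdj9sTh9hMxRx2O/EHSZdhdhyAC2quc5/lmsDrVxoyz+PUAPeZZIy9dpP6X1O
dWygukDhv6uBnkzJnXvtvhhm+jd+y6pTb9gsIMlYnDf4snVOTd6PCL+UaF7aVSSy4oE9hZSlGpXnzuc1KTrlWm9zyw8uI+EH7x1n
/TPNcp8K6SC4QgXJzXmrS0pS/l6j+3eSlwHuP7M7ZbxmH7a/u3V/NPD30j13CRdPHV4iL5n8pxwYv2fzfT8mDfeU/HmmHWHax4MT
HS77SW3M+hJzyP4E2QPBgZKbKLZLeyDJCmJZheVnStCJ2hnlblpJ6YScWupLlcHeEkSPhs/XCd7K6dZw3vWmkOiT3O90W3fqBs/u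
cUya1lS/PU1QEYQsZpS/TRwnMkMT1fRHxB1JWVOhcGCj2ozPPnm8QTh/LM2YxQ9qFyC0Md0Y7UN4TfgUu2pfN6ldJm+fwL0FulYK
wblicX8wm34hE38pRJhlvv7x5kxh+G+Ysb2lopuU49egrAEkfY+DmqHczgUpchGq1Tu7H0nUHo+jmRcL0HyuvaziMwYcdsB3Z/YK
cQBgAEvUdYjr3tD08THYNoMtGiivtRbJGTIjO1BMtOakYdqJ1sjd4yPTALj/LQrnveMQz3ZhyaW6fxSJM2aS5gMaX+8G7/bIv4bZ
rLs96m7jGsnRYchfxGp959/ZbqgkMzNn9W6/JYb/UdyO7k6SgSHFyU6UvRjRQ9CrLBLYmVUqjTOyIPAGKrcDI2bibFU74Sh1dAIh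
fxxtNAW8yWtEYAxTx8CqhDMy/dJsR/A2swIANlvPNdTAh9kFelA2nqj/t/1G3W6+EbZ+4w8zTnIYXQg1MNgJt1HIvnlz16ge/mA4
5gALIzeOiC/6Sbjwez27l5NWWwKY9FE1gNdn7Ngo/PIPr5aJ6WZCzfkSFyzle40ZFq0JozLoSfNqxbxDzejXY+Ads2iByOB3e1jN
C0F8Jy9BG2yvCHTD1bz1W9SKatI1hOfTr2Ab2zQ21ouO+JPXedHK0X4qTZjsJW2gnIoN3MvZEqF/ocTe6Ut5RVL1C16nuU3dZK1/
KUXuugvVcikUNVYOpXfsh+wq+0dCUhQqW7TPChzrJhTuYIqptJ9GhBiC9nmJ6cIdGUaXe4uiCOu44OmoUdAbv/by169HRQ1SX9WP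
S/fM/TRUNOt68K8m1VXFVlbNmOfW+UhXYIXLwgVFVqQDmpNMoJS2PCtiJxW1lEKxn+nj6IiwexO5QSBFEls0ql0CLEx6a88dFy2u
q5gUx1uIhltMEuVUtJZR/Prk2Hi/3A1gpm9PFzH8vRrNXDbtvV0M8Iro42ZGN6b6KsO6c6GdH4Uqh5925Iwfev2WM6bNrwPSIKUH
3wwbDgZuMJVQlumXTF0a6+qAGisuatPoWkklIBqixk2u8u4lobgGthj5hfTY/IHKfg40FD0K/El6bWsLzmZpVfeg2YjKmkhLZSS5
XZ1tz3T44fXUYHu4y1Vu5/It5cdC9BtE68gmCJcwDYntr9yYYfHhpux83WfZCqsr58Nh1yCC+B5+W+WZ2QoWAFzIWWS3a9tYIIBY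
TE5EYbcx2dpkBWwgTgeH74LP/KeefYKtcYHiILcfXBgJKhV2tLph3nUl0vVxGBPgLq57V93eW3ri4bEplovdLEARinrieZWRwHn7
ourIRHgIiAOSsXAYf9c47gxnq8sKm+uCeqlQ3cDdCxr9afqgX8tvokyD+CR6q1zlO8v63qAuNi5lcHhr3erpObTyMUUUwvvev6go
9nAXhNQ5N42R+rE/DVxGKAet9iS+4jC4557kPASdXdtsfKtj3lfdWVBsdsMKIue7gCWFGVvLU9RCmKS2GWzOz7boFnWYVcm+0QZ9
+YXaBegGozuZ8bd2RDFZncBEnhJqQMzkNiE1EIoF5aD0k6/QzBRI0w4cUoDOeKjhlX5e5z8yPSIPlS3fsmk3j95UndvA+jcqoUaB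
jlgWDt+TzETrLR5G7x2V3cv/E1Vs7xzCWniBCcHh6F0K3Y9wFw5pHDUfONexAa+IuuzuNb1V17K5qJR36d+Pc+jugRgivJ7wUal4
c/6CZ84d5GBFUGgL0fQsUKW3EkwNc4AABZXUIZttHg0zMBd6f3CeZ3u7Jdgb04FVwc9ZJZcJ2YjG77U5Xh09EeWSt1jOHBG+J9vJ
r5Mb1yfqh2apiSQJpYFC0KlbgsFARVSSi78vHnKnJ2fcOGmKmOWKQNtdg+aONWWpK2GRZTSJ8JO8a+T3Vpm1lyKzHneZfL5+Dbhy
4RY22KnAGPe6RoyXXTrJAnzBhCeOnsHoHKrrSLsSG+R13Qz+Uw04oSqzvW20EWJSI1cNaFwveUUyfHkdl2jTKYvq7HlkNk34v01e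
UNhrIKMVnv+WW8XMsfx7ubtPZs/Ah2BmRDGRdV9rJozmE3FSFlTEDSDvqsn+VnAyk13NFqFn+Fl5SotXhZb669SlEJiWKaBodeVh
903ujhuDRPRlT9ozP+xLt5oNtdki7INVFAa9sWYKm9e+cqKgraglG1H84rnrpz/OxubpC+ww6TrD0yFDXeRhEaOSUd5CkzILR8f1
ymg7vMjBk2G2Mcts1LtDuqPXPOAUhzUkoIQWKt9CB2n4Q9BKo2AhWYBTLCaBNa2Vj4qOyDW8zQ4oa+DHxu75nW4BENFCA2QBy4yt
rk8KjRgXKtpm6la0AdKMBq9c+2J6+fqoUEPGvOt9sNIp3mYPBvDo59qJM87zEbxbwlLriqOAYvbdzdWoJ7sd1clAlw/AU/oMRLiC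
DEoA+EAl8omWnIpU8bjhbfci1tSHHUYTx8vnr5/DZCawgWapyJ48gdF5U9w9sZaz/rWLhJjM89bFHSR9O3sACRCV+iq3aKE9PCCW
OuuHD9WB0mIu9rbe5l8CsKnv9OXfHY2DPa/qcenWdtzG9zjv5MoU07UcnnT3LaVEUQaDLRTEkp1nLM3bgtN4qlIekbOZUdI9X2uj
jk/fZmV+6go3dbghBE2WOHgPcOESJ/5iR3jK7MKloFzRhmQmPOnBSu3VntEBhU7ZktehRt6IKj0Qn67vxbP3V5QOREOWhnZjNIPs
Ee9J1QXfx7ii4nVsac8DFwbEXyV7wONMvYfZVkq/oY5KUzYA4DPnEDZvc0Z1Bg08+AaxHnIZaUb7J173l/h4axZ2bQTWM2Ji4TaN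
1ZTMUA/2GOShP+DA4DNwd1R4Kilit9seU/eRiCl9XZlKnceZdqB4LZymzLdkf0/59nxw66rtOkI/HkH8jD13oalusSQyeecDh1td
gO95o7wQ+s2eGRs4ZtFV1ScKqss/S+cmNiKJHwR1KhHdyi3CpyjFLgPI8ddc3D0sbm7SQ0b+8kegPku1Z9PtJJDQq1DewVzy0EAT
3vcumcyWk8NHkHpo+kyeGMws0Elj/hb4Xiw3hERUDsd942Hd6FZ8qZnycm8SL9BLjquRdWxTuTD5tOYBb+fA4NOifKKfugD1WNIX
/gZ8AXlhZ/kDWkWVA8VkKwdBQlTrtTDetSa0GhWNyrHDB7FCXhNuXb0yh4nLFX4NmiQ01RI7vJn1WWm/wXug5ZULmLbh5HvzLHNL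
3j67rMSVcOlgVINwf50a5Ddi01v9csjs8UQRy3fVqsrNDX3sOh91cvC7hB1KoRFkSgcNrpFHPYXc16dVKE5ZKz6vTBe8JhrjjPqA
yYlGE8KkKt6a5y4H51SRhT6tK6drXtSeY7GmJKIWnaYpmRBC46KVxrYtEMkPHtP8/wG3CUNMW4W7uFkRyNdDG/TQJYfdmbVCy+3I
gVGMvvIh/x2zw0NvCvo2knamI1gV+vimajFK7f8rHuiW5YgsqAftB4/AJ2CacwewxVspvDzJZFwJEmu7aUkUDpbpSn9thQQyu7KY
aeW25tdH9Ejw1My/Wvzoe4v4YFVnzGkPAeKXPuxVGZp+M46okpSalNToJUdRwN+6C8XpV+GOB+JfPJJ3YSx3xaGJGxZ28j3b5/u2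
5MoDZP9RtzW5/+lj7RZ/0T2u6qOILRWBpay+DdDDEPJ27v95KTQI0hKb3ksts4h7U2mpdTIQZokYIxAPtxujrMMvBK4l3b/GfAaN
beD2FxcMkUR6TxyEEOgJqd88sYwD9m+PzwHf/YpVskXJlVrb1jKdRKQ+UpQPMBJ3IfY4jQR4YyHdwCyOwfNporfUK7g8akfvAW99
r2hOF5qRKMTR+4mzyaEzLiHDMNK9r2Fgmw5s2ZD3oilY1HcLY7Ah44XC8YD7DbUyU/6AWOLHWno/3Dr6e+coCIiyt/ZJ6gcEiqg4
EYtIiva8C4YCLy2CqGLSWHydkR6RSRkpgt1JoU3PARnBba/quJyxmH7D+C8dGvfB8NODlm9Y9Dg5SN0tWQE6ia03y1dgW1V6f8un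
jNyxssDvT5Ut3bhGdnXBy0kNWwk14KUDHMVe1RkKEdtxl9pHUInoR4XRbHWDJ5Wzli1mDAUmYv2tqvx+c1drjT5V6jer1XlZG1Bl
ERAwKrSoOW29Mu4QWz2cuclmVY9Pzm/jDQEo+YiTC8wOS299Bg3qBl0VUgLN0kbaWJ297z/o+DgKDeb9URzpH4o5HpBpTMKOe95p
bYZW87jgR+YCZcTzo9tPTfaCOIhV39m/qRls4mcRpduxDbJzAiGbic1HF8g+zmaADx8xTXbfduoGUZTs8c/6wKrv6Pl18TbmfBG+
NESe4sXaKJ2G8aMdM4ont6fjaXpUa/b4AMvcpQiiiz5NLrDWSfMjWp4YVWRoQEFZLM7/WS0zF3lRfUTl82NF92J/RzRA04kGvBav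
TSKVCddtjwpFK9Da0ZoR6WBoU6M9/WhDWG2ZhKyplGux+ZR2sIfIynDJcwwYN9ThabiuU1syPvhAkMllhDe1bjo25VIhJzjbVQUb
w2eQMHtGPJU2pMinDKCbZ4igaRCWf3gykX6UYdmoGqI/8to16CwmjTpmBl3z7TejMeo171vs5dZDvubAK4Kxp8ZTA+wj0HCqhnH4
EvLDhKfP5cGda4YiUSp9Xt7TSX0anZX0wcXDAtXpZ52neTtTF19fC1MlYQBaddEN4yNgeH1leDOJ22KKHUDSPD71m4VeooGgr4QN
gjrSTKHvu5qkQtWR/k/0Ts+r6fGlx8UplzftulmUwWXdC1Xo0gGgxGIEl86iLCxhHVbvemNP7zkekRjhIW4uC770kSYipw5qVqir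
KKMcj9u7+PuOdf5sO+eqhZZCA09BhQ4m6XUe10CpGG6OuFMqeUDGiFW+KiY0s/JG1uM739czdtaK2PpplzVHHS7QcQMrmmchpW3e
ZNmlIlLMrImHsXvnqpX5Tz6ybdDhKRoQSWgC38a22tC7W2xVNShMzuKAzKTVaFWr3EMkNje7kHGS8vnIJN40CNz2MqcGYAk1+B0X
oICBs1t5zPPU61qJf3U9iCPSWPBrsCldACGrF/nb/t74UraCiVrFpmCLegd4/+ZEX2OzXuCNy4NuI1g4mgOqKhrpHmKDEOJnLebw
Afa8ni00Ou9Fc9d9clnBENobFLsTH7PjpJQbX3oc86z6ajIr+E6ggB6qAUwr0yp6sHvVa8AguF9h+/y5NxqwKekAjcGMInXQLxif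
wRXF0KTsM8N2D4TKPLtTMvDWHU/Ir3YZvsYqQcrknGBcH60f1z1BIgnwR6/EgZ3igPTm13sTWAtgjH3rQ1R4FyqDTQ/1D+2dEIvE
AetZBfKEzWqYBRvQV32LhWGlWXYlHaQaB8EdV/BECTyODyPO/dp6jFs/43lupXLHScUgpJ/CvncgTnUpUKuYxodke7tnTi1sg11V
1F6xRLzuqsKpzcpH3FBqauy5XXsn7vou3biPFyvlD4waZNpLOXPT+jdyy0i94lgEzkvFXGAz9cUVzDzOBO9KzlnVMZJeWutYwOmd
l8L91tDt9BIu89PubwusJsNO6cM/R8A2sD6A+mQ9RJjJ39SE5u5Yw2mVIWMzpQ16hePI/s6z700ARlaEeeV3jV9c4dJGGcx/J43e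
UsOMuPaqRUxxel6yvd01ejEaL5yrOrpPXqRT4m7HfoBfr8sF8hSJYaSZ74SwVXmmAPfGJBvmJsZ2LEzDkw68SxlrJ+xbHXWeDbZ4
HQthbTgvoJH91U7OH6dUMkUFtMmBwxfaX56PHeyauOnRGTlqVHFuaAFaZ0TBi7wv58gr3jJV/sBvvxiZEg8PKuROKcSF0pXPX2hW
dTBMaMqze5TrA1WD89utrVbPGiL7ImaZrWEHRCCWvoeuKCPO+Q4K97DLbQW00gJT8aWb1DM7b0Fw/C29L4HqP+k6mZzer1VsH4+7
B+zabi8dnJOQn1rb71MSd9iFbNuouAwZ0y48U2bnxOobYUfsPyX8ehnBKcKijzodLGt9fVeHb4Y95tKDTz42A/bzUXplrp3lujSb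
R9ajnEwR92QigzpRc/xY9ISHgmDjYOqRK/01z6X4XjSillX55lMSgx5R82lWhkfoJaAHlxqoV8lJ+79JELV1NQ7uxi5oQ0rATSj3
1ht/UDO1EceOpA982LTowYjuVN4+1XzlS4GvCXU8ImoV1yxizP0nCBcWihid3i4JrMlxtaD5n9VSUjfrV7beXAtECxHEktUVBZNF
9p5lnc9TrDIGnxwsWtVoLARd2SQSn3FwYQ05N+dOv2pNsmZz0QKX4wF15df9uMUGgy8UIke4G/TbJhawP0o7eLSZdxlTQ48VPin6
e5exAtcPKZtoRU/jJIyOcDG9W8kBCSCvRWzxGtsNbUx1Gof+gtrRSQ4qfdROXvhNHws9HUuZr8Tu00VP6oReVuarc/P6TQNklqrY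
MYLVcLCgJEnCjltUiqdUXg+0cU1n2iaDNSRAGWcaCL9Dol6zZG0G2O3+1n1APfDY1cVIUWyrspfAz1bl2VtwIz3k+WTc1YcJEsR/
NQpfPK1ICbLkWGKucpRsPRD7jNCDxFsrjmpUZRocsXTWumclTCiBSWx+w/n7hxu0bLIgzascU1b+6VPo4zrcu3Lg0IAPwa84Qkpn
x9onUDHHeN5iEkk35Ct4xrqRfEiqVunNUJKNHJLPy4z6dmUKSCoPw0HWO/3uSZd5fLuewY2gLCtfA0bvz0nMOHkhPWVDBL0YgxEJ
rjtTzRw2zz3hSYwDgA9QKPRFr3/+mGtip4g7CZmxSrb3L/+PuyTCHXedqiJwsiBGvKf6xtWBW5AWqslwl6Dru2ev3D2wu0lZ8gZ5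
29AKBpu+cYCEn1T/oQxlVhLoTc5KqCRmd0h+q8S2aABkGeowP1lsV2TJ0YvtUr9SBp5/zH7+oLndgC3LScR/7qCzTIqGjbwJAm1F
ly2gNYrmQsJvH3o7s6390sBX3ZEtZ2yFyaH0+UjCbucuN4kZZk5RB0udS4SCg9a6NhiiISq8gBcstK1folDHvPAnvTosNk358Ivm
By+S+S8tk/Sk9dKw8hfVqJ+tOdi6IcCzbJy3f6jWUUkLP5KRfxTbFWAwhiZH01QzTf106t0Ztn6F15k4Uh4z6K3yG/l5gNZUMbTV
sKofYO/wly2dLV6v83r8iq6Q74hDzyvZ+0hqawf5mk5ONw6zdX62w9Z96etE1iFQAZel2j8BvEsL1sBFXUUJBB2XuAmYvfc+hyPP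
+jyrIX4bUqkvbqtwrtQHy+57qs9p9ljmSS8ID3AxVD7uR3DgLTjgZhehCAmX+tx1uhZIcA+Tv4tSVEtTEXOVkrbrlm2CBf0FENV+
H6k0n4WVzdVEsCq5jTZOIIw2IMsbEi78oCYJ88qjkMWtctmu/a9JsFbKK2HJJVOjWKpbiZ15WxncwSUevdKh4JMZgsjsonKsXIk8
gvLobqFZD5SlPhoQssYNlWOSL3HjFonyhptQFBnNJ4aVNNNI3a3iGJ6DsVWPv4NBCObWuPxrb4YRj5g52fGGDtvzxbT5eKz3nLi6
ZQwqpuXxwSGZLwhdI+iY1gSqELmbjMUwV/KKQxFP9XfQ+9eERl4jvQaoTjO650U1Xg4RS1cGBtWN+R2aA2xZrjDJyphE512NFd29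
q5DjCTfh0cOUt3zU0MRtLjEAyA9E+eVtwPwJiXBWqhiPziXaD6C9I6kh/3JvKOtn8UxwJyqtv1uUtGVhRtey/OuWK3wRc3TtkK3y
8od5UEJx+Q6CEWvC4QONb8SjtgXtEYr95PWDYHhLOoIWwkNhUPKh3HSxk7h7D3azB5JxE0/VP+ULK456waoI3ykwfQEXqBGJZ/9S
gC8B0zTDZ249v70u9GeM0O1NZG8N5ISiIltxdmMxDhLj+Wzhhjos37gI5befB5PdWyai9Iok5XqDTWrazAJ9b2dFute86FozqvCi
z5OdeAI5qGxsXD43VoRvt9LAhmeJQy86fG63/9imDsPvgRvdo9hf0K53sdmf6Bl/EMfOzPJZqq6iviw5n3izidaC9QYLv9Mg/E9u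
OT4n5iCVXHoYkghqXH6cUpXuXou5CyCEb3FC/GG5PezKwzvXBT0waXUXKugpxxYMZ4Bu5d2TgiWqQlicdBVe2u5I7fy4O4eG7AoG
Yj9XTufObs9EGH9y0jAy5qUx+SuDw5trxjcXXFljz750QM446MXpBmov+JsoBcBJ2eBz2Pa+Tq2PpuApF72ChnIEXEqAecb74zZw
IE2zBaHMh8blQJBlQSLq0Nt6xwLP+hfPA8wupdnKgVVcuWh2QkHiNjvHDPRDvCpO5qYUUEgxePARp7gU6ktvmmhyJ8AxhBB65jXs
uQtcn2eRo9uo41mM0ff2lSwL+98QFzuXajjv/QfAUTHH1crFinbbL6aGIL8dn5um3D1IkhAy1Fpz1tMtmGZa7H7L11uh7nfLYYpX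
Eih3Ju8nzESgQuHyHdPU0qZHbhzh6/uTblMBdynuR8ljVWWVeeSzfTOX/N4t+aLTYDrXqC28jzkyyEEeT/F9S8TGuz6Ik8nDJ4Pp
zhHZDhUHS9Gi+KgoVJ60UIGgfTZJ7zW+6oSzewrrZLDZPSTf7t8D5TTHNq01WVdeFU2wuM9AwsZhy+9SvEk7+/zuOvBz7Cj2sEHY
yuyUoy4vdePCd29hDrkQSJgrefwzK9yjuQKscIvRGyDutPx1O1dZk5FY53otaT4p0C5wscCZ7I9FN+MDZ56KEb3g8xk7CiWajW1w
kRD7rdUIssal35bGCeoumKVyhD70WX97gl+qiZ0KKY36Pw4qJJk3f1H+HusKLEdlidJ6xIFq+/2KGEsfFiDvSeuwoevRzE7eVsre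
2kN4z6rEl079JApHbUFZtwrg5lKLT2YUrnOY4pHHrx1Q5COI/kZQE3dg+9/7mmceUJ5XQIgGXWZmJVGI12eVW1RAtfObVOjgP45M
wRbeHbzLEyE9xwx0LRRUvCfIiB2oB6jW1FVRkgxlxdly1apHMC34VhV2hiTlraUWsad66CkbxgxEzI8cb4JKwcx4tX/8YF3XX6Xo
HLlaKn2axeSVS3X4NIH733hCzFRPGEneXdsV/o8WAmJdPdEWu6pU+kUfmJToEJasIwJa+BdJ3S5zwJrLKnK7z7aXXbKSbmJz2G2x
enITigyU6zCnoDGgRCLaG4DNxxHmnmWqYcewjl5l4U9MwSwKvmQs8CVSdJwFgaEp/5EPDOGoGFBBF7EXekk3avvbsB9nZwUIT+W5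
O5eLFbfWWZUEPwbIrsJZ1ZrzWGmiFu7KtBkHZ2gIpvbeVBmLrn42GA53hYXhVGZwKhlpmZ5g/vmeB1xLwTGiy4RJ3f/baidqwg4X
E0jJFRDIGaapw1VOB8uX+ayGVj9eer8R7IRmcUK2nqXA6mMNW+kEdsc9PZ6sPFD+m4RGA4v61V+BJBQ4QvC9pz1/ygVB+vIz1Cpi
hW3noxvKkw4oF4I0Fgh3rSj+1Tvz4JbkN7e1g7AB4pcEUkny3p2yyICnq2m079X2kdYsBxQ1vtsOUuopwdruTSVXSbJMMu7D/PqD
VSGz0rgdtq/gbKK19vP0H+6/nY4hvMBNun5xfIw3Q9jMKWwrM+cQPJNeuMRStZAx5M7Uiwk+ySvJnWQ/66WRpX3+Z7fCJCy8N+Tm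
m9jw7mRiXxahD8nhnSOrxpVPqQYR7W5x59FJvJcqY6fAWNwhOLrPyI/UFVh9efyTFRiS7Bsb/ycr8jiwobMQoxpwOeDI3AQyVZU2
ZZiAbfMdhRD7UBRIIcdUCMdPnZdJRgKLMvK/S1oXLPrIKzNnQMg1MEOiQb4Z8LGTWMtCS0af9SyasN4ElfuRic6zH1sNaO1NMnwH
2LXEAWpEi2pKX7iNgk0O1diVRFQQ+Yc1AmuXqDTmcAEH0gMpTfe5usoq0kz5FwgOkLRC8guMjqo8mv6RfF6sXP1wjed46RGN5iB4
IoC4bkoPC4gkkRCwLgFZBOvvQ8/MJTB0tyvYnDAOcO563waboFFtLakX/PZroQrRc6XYyatpM62FwXAS9oNUL8HvorvstvYAhxn9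
SCVG+cCzitin3Us8xLwLjGzo2OfbXzU8yTuWQx3N+Ij2pSmqtZOi0gFv1n9PiCvG/m+9OcnzmXrljrznOlBX3U+xZnCVcUuKt7KZ
O/p+ucqNQmq5Pmops5nsXOABG4zvwvAiGX8sJ9mo9OX4B5GzPHdd2SHAyhUN2HlzR7x2bu74HU/LOUjcr3KnKsEEfSIZD4UHsF/C
7tzRiWe/zEaoYmfx7vrmTSBhRqjzu4RtL6+n3L1waLcGIJvMtRWL+xyHxuc75eQtFHsUgV9F7FJl0w83lfDVSr0F+neladV87E2Q
Ge+AVp/M4C4h+5DTm04X3+ofbWtVmrxTp8Rypbckl6vJeHES7An2xUb7/vxjVU7mLT811J4rFbTWqlIiT0RfeAasoF7u/DXTcS+u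
xRBCAMqi8Wt63RqHyzki35g320LYYikPZGL5+9iBCpRpMBALZ0w/LhUZ3MkGeQoxRwm6vlc5V0XWcvWuz8gt5sg3ixmgZJ9BzKfc
sA21V/kfF3siLD7fbF+FZvknk6SojQ6oG7QgLcmquXg9qwYDVdfVoe8vCPGreTteKMMLIMue0NIARQYufCKS1xriP6iZTvoyDl52
4WslMHAumenhIptZ9NuN9+hLP8S8hzpIkyRIx/hp5nnlUK3XUc74y7aElnmkMnmPIleYnnsfuDZRAxLPVNuWFPkBASLTJEgQqrnv
7rRGWIo7JW+iVON3Qhqjq/rdvgmpXAwMtHhWQ3gc5t9XlX7qhlNMNIZdv3QPUkt+j1EyEWwaCzQG91K1VHtQRABTmbP+ieyE65KB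
hjAC6GCFx36+LeppC3AUqWwNErGnrpcQnAO7+DLr5Q4ox0o1P5051hwPwCoYOInQzT9MTvdc9MbjsG3QLTnqCoGZA8wCaHw5rlYM
cg4eDr0/+QbXNZLmYuKa9JsmIhGyJmHCm7/EPU2TRD7sm4w27kNMTU4ulbAkfbBS94D7058r74AVGaNdoRP0fkvKWarojqJqoLae
IvCvawcSU6m3qDyx7b9qGr9tl0DxwcoDWMf4/PbeX73+QD7jpnd4GuSMGjP0Fu+5nEkg0KyhyFDwpLj143fT+Cm9+Bdw1xUAkVfQ
OjJ9RQ9RIEK4BqZT+Oj/x22QQSPT8JeT7BwhXQzG+O+zDg4i5ocxIr8vB5bfnn8Ac0NdAN5qAtscx5x45w51Hb8AulAlsaFGBsBI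
5+mf6tHMtsPfKUNGdjss1yjW1SiI2icZteFUHZs1+s46SEk6BGsdq1G41h+2hFlPF2j3VesLDZxfTq1/2Ib7/JJGqVjymrpv/C1r
tuS0C7vaH6AqLEKvAMuChqlecDaOjANB0w1xruLfqooN2zHjnZ+uUCh3GYPU1MKcpNH5DtDrqPQLFtei/XuvJee8m210g7WD9hvY
EBXGes+zdAsJG2H1EXmdsMgZ0bZ8cHzc8+ok8uiKOVYDGT1mXwc6dNO/NvrZpQL+SovpGvAuzjIwGKkQLk1obvahOXRX5nsunS9H
YM5xPBC1ytO1mt9aFIVOw+H8mAa0TcvH15n6GhIbjNQsfL+GlEIG1MRjyv5bASRX/oYbnbEisq1CCh2gfGkVR9PYf0Rha6Bl/j0I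
9DHs1cf4lyC/iXuag7pSA6u2OkyNUYvfS3OlIfdcE63UaguROTvuod4W0uNH5WML62t10dKFMcLMY0uDbehvDBTHz2tpEoRyJ1tY
p0AEmxvC/1yPu/7tVCzKk5WTfJTPdyd+snnHrQcl1WZp5arGCDm+QBcLA+8FCBdK28+nyagfpR5imheEbRpRBCWQt2qIqqB3QUBg
4OOnXU0onwtbVA3umrZS+/BUAG5RtD3JnwWjlJijFFQAHcYdcHwU3LfK13anoIJ1ntnZa82nlpc45h9pE2OsozgMVXoA4HKcRgSS
RUVgbKBsAjm5jvYaf4bI3TLXRZCefQZCBeW3NmcUD7QNWX13jgtzxLxrTMVFkM9kQc92+638Hg4f4FqVcdcoDxFiXNRM+q+D9FJE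
t+REhzn4RQ1Sj0SVtVMgYlxye1gXLD46aWnd4T0RmW3umnhl68QkAeRhcajYXSGWMpem3BbnEoVrJMfjLYD1G+vDQaM0LR5U9+2y
AdF7G3AwgEV378G/EwI+T8H4hdcjIdbNBQFZBXxHrczqbdV6ALVD4SFwaJiOnCzEgNRCflbBQraOCTAPzilpow/vyIpo81le4rFu
mxtIRiTSW4rxHUutza0htkwoBo0iDPeLnVaAeTCPU6d3G1io3rH0asI9GT3gSDCIj025Cct1MG8Lio3S2ipfpKmymSDpHVXwTGX/
0KznwOSYLrepIUor8FYdIl2TFeaMcCiz1ZkKbD+C/XZe/SQNBTCE1n3ezRozoyg4Y5g1vAWjhzL7Z6Q6lBlpq6FNAIHe/4pidgUk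
jKVVHX3MjZ9Y+3JmY1gUl81MC7XVa6nxbRzWknbKYfgr+qm2nWp85p7N2n+s1543EOn77sGtPtd/41KYoSuSiVR0TbGzkuco+QI8
HRIBAZo/+ppZ3/cQqeyNyHs2xug9EbeVrg1QHSkBoEVCbY90N+7xdTMGEnKIKSLYeloPzbSOLtgeTwInb9Qp4gMGWCWxOzUdAnjB
QAfjm6ZTnROzv9eWdTXKfUW1ZxG8rWFrZ4V3NEiGIx8LF1C3eVVPV132O5LkrfKAW6OA+le8J5zc50V4Owdd8djE/wuLGJpbGTu8
SLFXbMxDo0ZtGbe92EQMmKBOmXl2ut8noxlmsIGfwpNLSp+7UUFt3xJFvWTCN0oq2jhjfuLw8oFi7cs641bPN09aOO3dQj7wZVwa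
07dIXWo0u/yNFyT0X3JAucEnycTMl7Z3AANp/SS+EVULTsKcr4yJAXj2TWzaIhr1PSmSs0NuZVIv5ymIZPqwOYEwhKQ/Ul+dZKYY
xxPb2Cwa5J5QPa9Xt80PiC7I02Zr9+FRpgno+ZcbIlAB6ndP+Ba4wc4zmULmYDHAq4oKIbSh+f9B7v6JefXPK9T6zUfJiEC7Pjby
m3GPBk3xVrwo/fIQd1GXQ8aiIb40RzKFLXhSLzHSo/hhASmzQj3xFunYWZN/dAk+m5RNTgTreA5NBSDv4cCdcNPOu8BwwIj78QWX
4O/sMs/ieBItdTKG8UpbL4CMXlrWKRf3VWWQENkvi4cqN3AEzuKL4Sxzaroon61efiQ3fFVGo9JR6rFkr0sKmy5edFy2PaDKnSaG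
HFUaYKkkgbbdn9ynokUBlOmC5qMdIVFpiPXNvR6XZR/2MuPDoTNX/VJYpC+pgod9AFH3hy5q+jxnati3zu7EnfztJha21PRnEJvd
+L63ndNy+fGpRh/LDTJ9n4q7/KnTtRpqzWaKhEhi2wQa69BHUrKM5qZdfVK/lm0Tq4nrR7HSXZOhThWXl0Yi4+xwdzAgg93Qcc1V
c9Bdm22sODeeSHgEngVHKiF6f1qWQJ/1HSpRL/5HUv3lt3XP4MavUswDQ/hjw7V05ixk1gH1PsZnj+FeLBD5zg7w8AdffPMNrwhr
lY1GwqEwbDoJCg1ECSwbznXZIVlWVf53fVhU1IGckhMyYr0LS1FBqMcdDpKVonEV5RFEoBqaZ6X9m08O1R6yAqkwyRm5Vg4uIF2h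
YFtm/fTrK331xIHSWiBZ2R+5hYszOxmdIVwImgf+fWUIIr4QmcjQGuVssoSK3eu1Pb2WehtbzR1TKfRkMh26wEmxst0aWBeyD2/H
B9nAh1rAlKcD9XF2djQAItxEhCHLQuumKviA/GpzKRwFGqnD32WpbFe2gQp+8r1pzr1amW/HiI0OHx8UKhrsdpJENyTvuhBJ/ukZ
SspOxdmwEDnZwlM7UqOeU17/LrHfFRXkB0hL/4lfUQ+5Y3rj0zYuj3DbYcxoylzUEfoH6fdAHw0X8p8p5RLEdMPnFQjhEI52L7RK
VTq3Fiwq+PXU06ySja3RsEhcCZX0bNqLq5amIve68SVIFqQBwqlLYXIfVJP6XER2tC7/XBzp4QlDxVsaQZwU+47ZNtj2xiekLsfI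
1EViOQtk5ipdQfnEQKHItAz4cbol0UtHlPabWkhv9qKdYosmpbOngCckt9F6Tc77j8PdxUxPvUu04p6WIvBooRX/o9F4R9VdChla
UIU0uIjXtXzF9yUH9X2hGXAyVnOBbJKeOTtBsGqj0KRX4L2f3cfFSRM+VDu//oIFpjfpr6saZ4FMvByPMfM29Cec8JGg44w1auIE
2i+FUyNF86SWnb2CWLyBOSzDxMJ1pgUDvaQBbRAzQwkKNWXDLjcoZ2+ohBl3r1M6gx9vK08dFTytpIMF4CUhZzQkXQDZLtroX807
JHp95GIWN3f/gNKrXu1tpuLrFtTpbTMN9oh8DPyTK/Ywu1+uFI4BBwoa3xYjYAVl2DBqsyY+jCjbPeGWaC3oDZqdwoWbncu1pusO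
5JjmLuxrCoaIuZAhZL+yuATbEBv1UyCFWeh667tQySc40n3EjL+jvwJ0mUlxDjog/XFPwPg6/mkf948wfxoLkcfXfcVBE6XqKNfP
P+yhWkC/1WYcXR9ID/ZmEP2wF0y8zDOD4+gi0OKskDC5f0ul7kFHzcLKI7HuowI5iC7BU96oVrPtZBuy1DGjwx0TWWBytF7Xt6Uj
hviJBQO3kHcvFeQ/cuQ9NK9XSEeE4iGuHhqJazuUMZkyFsgvrIP60SycfKd0HVyD+Wu5+H4KbdRnjwIQjIQFbCdzra/NtQlD4Fe2
FcpwSg2uQ2Hg36MZa8Op7Y0LZUcOb+075M+mwVUSyH3wAvsoL5tyK73mesKk+xd5jE6ttF0dXU+fjgrAGKbgk0iGrs1N2BIEijjU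
lP0GHsvAfFidVFRLcX8p2tpVgiwLVlCAi9apm5Up/l0tRSgZqaO/cIBHtFWuLSAtNPAUtrhM8W1Dw/ivGE5rQtc3DJaUadvakOJr
GDPAdfhvVV6/zrmNNzXh1w6EU2L7T010jle+QiayL9foQVj0oBDsvVGz01DipA0JiLWSrPUC31R1Agvyadyqgxk2tlobo3t2lriB
rBNEELcIGBajhpWyz9sDizekQMEjrLdzkYI0ARbpssKtvRNGxsyNe+gIa0xXBFeu0UaWg4/6u5x4I+044zfQM1766wGtRjNdw4Mx
ktnPxFo1GFPLqDu0P2FJIU1Q58p4uZDBp3mwxRc4o9vxC46TPYgGS189y/2D3qx3QsHq2XuxZFDsUfmNt0wgcXIdZ4QW2uS7Ad2b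
elKTzltvK5cRL+X5EZmnEwV6BpPS/kshsy1qqlbZ6Nlfe4WN3qfq8yOqEtqkFbumzlBfomLyjWsytUMDakhmehjMkaMssYsGoiHc
UHmTBkbEoLoCCAtXm6eq4ZZrtMYd13MAS6O7PA16PyBKH4gxcMYpQnAPoDbIIGVzqmDo8B6147JEK860UKqk0q9ztD/x4OU9LOvt
/6jxA4Ub/EUtweRR+jKkHwNPyAOPvRV1mGPdPxe2Lud/apAVO7lkNfBZfvOjhiNM1tAYLHI198c+qwxKyye47N75NyHJ3nrVwtKp
EnKt4GGrWsflUpXjHylvWxMMhGUiCf8FSVyNe84zI7Nt9iPNkye0m94gkbBf0UmxOmJbXZdqTs0HscxUxISVkBJsKzaxDqFgxA8l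
LA03RGYiCldW+xuUCnBu2RHOF01JnJD5UAtc3rmtIa2ApgZ6O1+lifufZQXg90Uj/AZmyMfbKKXS3DnviT7x2XOLY58i7FLB8mTL
b6y6w3oQbNm54FksBAKERNG3TlCMWOxZa2YYtpONpk+YZqSkT2lS3OGG7Q+T0oyma1dyCOIDCrpjh9RIJ7hYEjvISxa7XkRGK+Kn
xdWrSTcHyBZ8O2Nvk/zS36V/E46AL915/XhBxsbc7C+huurbbM48hniBCrli3naf1I/VCod0nfbd/a38vrJcKsjVxIQvJaBEcIah
h4h4WjznwkxxAh7PP9ZmnQ7VsTYrxgq9w2qSgj0+DlTd9mWGlZ2h8tY3X5y7i38KDh6ZEfRETaGhiBBCYi8KjKyT1fSpBQTMtOb1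
ywWIYDFbVcbu2afoHxzzN2rPm0+Wn4kelymP//8i4hKYu7HrYLjGuwVe1TtAk57B9W4KGze4unimFF5LO5vdGaJ31jbFsm3wVaZ/
ysgoSJZWyHYfR2b1fANxIoMX8dXdXWEuonGmiFGawbmPTF+M3Qthp5Jd0bs5Uc8HsC+M9di/ezgvMhUHXtwr1qSNnGmtg4344tTr
FKd/RIJjXH5DkvSEqnCHv/1LWztZ6pnmB+6FMK18OHbkp07IMCoid9feitzAGorAG/+nDEOgr8PXqqV2Z9aGGfbhm5PR687ND/UH
pMhyut2ZMmmszK0iuyEjg8lyNzoBAIShc8iZi8HjcsPcMrqNAqemqBRkhYVEpekQcbM8PwNnfxqMo0qNsHW3RozH/dOAv9qdkexz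
BbUSYU0K7uBrHBHvMVyjifOb0NIBs2LiMuKdIvhoIuTohZ/89oofLlcuRfZjm3vrq1K5OmDXc6/MEbfva6Uv3YlG8u7AH8/IEcFq
KCdCi3zt+pqcrygt32i/VUVbpj1rK3+Vmi6bsDfOtlTeVzzcZ33s1qrslRWsLn1kM7pcUMj8Rmsm/0hNooN+hz+UZ6J+bIQ49ngX
NnK3cqLflTy6nv8vVPWKSA8STCB1gKuOgj6vgNN3AzkiewjazJw0ubtQ5SfnvHDc6qdYR0q5zCzGg2NXFHsUZ6w2q2FupDdtfB78
nLP5psjn33FRn4RqJJ2l6wu3oXnvF9uKnRNM5Fh9qN8Wtpl4q2NARxkzpR4sgDhbWIiFBe6tMAkG64MvnmKGANdMuzybqMwVo9Cl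
BMVzJmuDQxFsHY1LD80nkTYXpsfqskPgdh0/mKC59Hxx7iYNihHBZKmOYi2uMZWOSWr2gKbQmiGDysVGo85mnEEOxZ7KwZ/QYpry
nrfaeju7TtbmiuP7AJM4y9p5x0vjV5LYgMPO3H+YpH5RGaUkrpXe0SG8ocX02DOnowkKgQsreF8PCafXfv80i6UIlnVL7v2cpeSu
+KOc3Ovpwjc3cDSqNU6wbC+j7mXJFfQC4g1x36OSlPgp5Cypn6DS4pSWe23wiUCILsytqEkfCiRwBvqd2bgYI12XmSqz1I9RV7sZ
wyh7aS0yc92rqRZKb/Dd0LDqx0fZLfmAj2MYFJAPMtTjsvhLxceoP2Or2xkDNIus0PhC6uOt5fFR1cT4PiT2k1kqXBbxzLC59T6w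
Rh7tHgmcEO51HUdtlU81FHpYo5pBss3UtPpxsszIgUiLj6w33Og7/q/K0O98b1DC44dm8vrVBtweMyXotcaATHjlYfc1psFVCivY
oxwYPGqVUmh6Cj0PpLV9eqWmt/rsGl+lpUcjAutL7Ufrl3t2xvnHzs4Gf6MXhv4J74mQa2IT4/wkw+lr/ZSst5twrAuKQbHLGip1
MoMR3PBFpopLGcRizcd+tx4n9ap7QFLAineZHYUboQg1hOGvXj8WAqqe0n5tsKvX/jilWokp/c4ndPn3DbJW2tQavUZ2MSqa0ST5
HZbqQsNz0cXf++gIAj/iouifyhApsRakUPpovhst/TqbTk7120wPGsSS66BKl8um8FgQ47iZHcH0HzkHQhvPcFbc6anMSaAuIhiv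
/oPxcA/xOIvIugDFKdeuE5uGYxw2eowI2gVfl/91QRMY3B1eTW+0W3sAI5GHg7h2DybVJzT9Cih9iN2ijxHGKH/1djZqP7SNHFa2
MkboShtR9fzxtp95DmwASGIzA8Ot0/qiwjY16p1Z9T1Dg7sq18H/9r0s4XIBOQjriaZ8onk6gUkGaG0O5POCoK4tbPafCi8/IfsY
pdjZBbClimsS276X+Vk6dbOCBBBghNG07ZY7TsuHmimgf/eJacOFy+CmT4C5ChaZjhIJDDPBJVxbz6jIAj+7Z6fSt+YvBu0HxKUR
GVxnbqmtmnvXLZfczrg96u7Kz2iznUvDVHQIO5ipEr52J9rqrdHu+asVZmM/NECKOFaeG1InRuGYiP+yQUhDZbwoNAcF0NcVly6X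
nT36T8NR7DkBSjtMe5shwKrykV046Rdgcj7dyLJ7YJA4APTsFB3uLI/4O3N+OwWZ63e1d/a7rgQX8pHwYvFqwRpKkExzB1ARCfCs
U19DuAB2cQWx44Eml3z/le/6qf/nYj4so8ffmr/PAXcxmSAB6PxElVZbgDDh+aarucLATmw2ADg5ja2Qf7Um+ZaaswIpiMKuDzg2
LFlY4htc1B7YU4rBUMmX5anUlGgurp90otoJM0vPL7RYFsMI8KPA5/oX0o5Jv4rMFW0e10zbxAdUQtZkH35hCB9oPoBbBzTqsOLI
SshsIJA6JPfp4bnWTyDIaYdPhK3D5kOeoE7c13thiALbdcllaqxbgQovIjpBCTCxT06Nmfms44JbjKk4a8WB94dQVWOiPjk5+etU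
tQnr7hfJ5jQD0A1W2Y7c9HnhlreFM1ejpcM94j7Rmjo4NSbOTxqKxwsj63HZC0Aez9cjSfkZ1HDsHkdwXog0JfBWchFjLzffXpGc
qea5/xX77y/BrO72DXmS7I/S0OeHOZ+LDCg+t284tRM6auQjPk+tmZ2INLflyahb+jYOVrJ+3FuDgNPFzm/jEXmx2ZRUuLh3kQtR
oaOD674aZs+ww/gX6BHRVgEEKsK8FL0w6dIRrXNB6X8i83lWWlPaPXO+zAojTMc6W0IyMFmp6RJiFc72BNUGtPMm+kxvPzcEYnCb
Z3D0ZMlaE51uLMUCVbBmm6GLlL6lLzEapFo0E6/+LWClcIQLhf3y3d9s/DuCTn6d+6pAa5CCuQBILNw/0oBg2gydZjCsyr6di2JF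
wcAKutJ2EDSP2tbXiqPkp58gfBkFd9B70NxlGQeQJS+OrJ2gtaZXaFvwLVeEWcMpP2pCaCZ0FgfodcIt6ZA1NAXz29nGP90uaTaA
Kp5tlJKeKI9etsvQ9otqGw4SL6laaP7zDUTV8MS5038rCcjMmjb59IwtRjhcYH8d3ZbSwVoha/OZqpThspOJ5v5qYqSjAFcDzQPt
X1QWEZxMUIIPkpXJ9xRwAOEwTzAHxOsmOCUbQ2RTurJq2mdezMq4/oRGMpJwJbwwoxVOYTmKd93ZuAI+YqKVgeh2W4E5tUBgZgE+
a15W/cbCrG7dyYiVsTV55Qw+EvFcdbj1bEE7L+uXJ5xxEfvYn73FCedW7jXzQ09d5SKf7akQGCXzg8EXM1Ots29y0MEl9HzyMiLM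
hb9WU7JtXcZw2Lzh5FAXHiNt+6BgkvTseNCNZiADbzRkl148/nmVeWd1VAN3Hk/aZnMQcGSDl9lWDuy10WnZ6msMWxcd4QvdjjxO
B/tZLiHC8LoHVN7hSqmnr/aZlpMAVuphEyia4u6QFBepT/GIU6Vgy+UfL3d0s4BzCIxYebbKbICz8mbCD6lWLW6YtpEZ23LRv0nz
QSqgBEg5xbPOGRcqf/Y26s/J+sPSft3nF3kXMMOZ3fTgwCRnqvkDqrOs1JPjkcbzQPEjUjAaRzE4w4kxgoovOtr/hDs7HC+dYe3O
+ZPAitqH72HXeO/2FAIfhzExdz3YYosWZg2ylb3z38y7AMV5825B7dY1hA5BrAwwg0BgPgqtNXOo7kufLzkvyfSSb183BhpPfwgy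
lNRPtCm1CGfp+Zi6gx1t21ScRA+nefJ80tNeYlbnyxrunuBcJ5s0kDkd50d25z3OsFnN0pl3rerJOiHdCs3fIkmNiHP5btkMbYv9
mFAoVpyOhZAUFwuanGIsEKCz8Cao1IBbyQnrNC7OmyCVP9RMSzrYhAA6mpxGuCyNXCatmJcBfsxGvWC/X8BRntsSDokW8YMrt8Je
YjfN4+dpRZkjsRUCR/6L28nZfcR8chpAVJEkQI+hs4Mxg29ugUnVcTgmmdyx1lE5wTNIQZdnNwtctu1DByOEVEqfYGoDj6leMmHQ
LxAPZIwrDu6LrsTmZoKPtCV7ZnfB9PRDpCH96KDK2On8nMVHxvekoA/qRp4OI2O8eHZzt7RESQpmtN3zJxVAJddpFw2gj+nCJKFF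
rruvLZ/7Ij2a2p3mw6LSnLHW8MMobZ9RZARJ7gLgmWOhflPCqbYHFUKVH0ZJtuG8HjjFYM7RuzpDA+65TpybOg0eC0FTx8ZjEwYb
A4FaEm2S+yly9/ctoK6C5PRAI8F7+0O+RDcD9abaq6818Ek11JoR4BDxSfsIiQ05zUlyV4oHy/djU9vSIrngYrilpJnD7EKR9AIR
D6qUvlkqhwLjKsMKokHte21JQENnnUprCWRvntnZhOCI355+dMFpMngYVbL/Wpz68AgkpyEfi1yRDtgMufto40FBiJDsrdbk9Wj1
2U8+JTGyELFIj9pD2jMvyd/9TULnyy4ZcYqTEG7f6Fhp4j7+S/oZbvId/7BgKevkMHqyGj7BTzVryo5I7lgew2A50frr6sG8JOHt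
HacLFUonh67hyfSmsPUBf3oTObK4hs5XSO5eZDiogzVkSIfpcypycHuiqSBhGG/hI8Kbxm1yvfgoO4qBsv1SDV17I5941V2lrrKB
0Urix7kbE74XnxTW4U+bR4/95GkfnCLGmUJQZkl8YVEX/Te+fpGgcbNldThosU5KzL/IuE8Bm8omKLuW6tASdJRdwfcnHkTslsGC
KRsZgneZtAUEgW1vE/d0QrjvAdnMplva8I8hp1ydZ+himdTRYHwatxo2/E9mlPSrJmV1svIUAKVX+qnOLWg1STnp5X826BzDc/tE
lB0i5tcvS2LU/d/gvyEX0SLvDamBM5NNOVzAOO5hGQQel/EWWaQmGu2//G5Qrqx95nHxm7tlNWN797q1PM6OYFN/f7WGmoNUXX3E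
JIJArNH9n1ib7m/WwXogV7CEM/xAb5Jv62BfqXbBewez/HSvpMlbfO/5c1mC6uDiHwF2Qr4UbtZvwUUnpDZFyAgqsCWBqefaM7/P
lgczY0i28wInxdG2WFTFL6nyWo/y/28dlmM5MLcWpGfu80Vu62CJ8KkbTP8YxNfAkQ5rWsqD2YAodrQLdkJTc+fcZHmHc1WtE0aE
xr9E70Ft3AizekhCzX2QGW+LUsXjGJKunfdEmNL9SrBLH6uHyinPKzNYYp/6SXJoE27zB3nbFC0uqdG0/NmvF8wKKcos/nLOtIcu
5t3x5R4MJpxueZzbeQWU65QBK9u3RBFqu9AFc9L8Hsd3zUB0mwR0P9TEHQQFT689f79QFKXom+VaerZkz/mu8XLZXyEi1LsdgaHD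
yA71HuUAGTovnM+H1Evy8Ztt42CaRk8rd3FuHXwvhdWXpnkLxbdAh7gB1aSLlqivCdhJdfXceWSE1OXaFVuTXRHnjAUdEQn8YfjJ
R1vr31lc770TkiImd841+6/LwXSe97aOfMNT8Zy8yB1dC/wqyEs6apvq5qNafKepGQMxJXedciMDZpiUm3eWuD6gwfAtfG5mPQZy
/7MLeafO11zXZ0n+3uMaOmE5qstIVg3hyL01Ubn2DYOAqc+OFsqqws8/w7Jcl+hAkpW8K2CdWIjeKqITLT+tCq8RRW/F/Cg9OK43
XQ53u+CCNzl0clhsC6EN3zQHiUF5+X14S5yXsJOWXY3pG3E0uDcWHYsYx3JYb9tYebNUuS9nK7z14srHAlCzfujANi0Clnxpp656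
qZ1Y0UVyz7PGM6Ccep6+ZrnLgkmdjeuv59e6HND84bfc6aZu5fyJMUbbsPFHoZZXvV2iC/j3vf3AY051pnT1jKyR+2r8IywvoaI5
t+HNC8P2F1yB3N+YjxlxWIbDjtib7SCThlkTVNjVCYdnd+iSP56dzLww6P1TUWmZy2emWSOiJ8yYyudCSaCNp5d05q+Z0sXbCfdT
/ESjirEYqhP1UeJW/2iotlwEe8zi1SRu6t8QZSsw2AxodISbYBA0m4wrC2PJAUzbeVkXV5Uoz6UGhJWyT7keCYSUPlaJDLEde5/r
eOPQ7WJEMgPhaf0KflGKhg61EkXmHN4eLPW4h3b8hmmvWwg45HYTM7XT+L2qkRE83kECgwadmdsW40nvpjYxmlXaUQ99k9/rVrAd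
YLR4jB1TEvMZh85vb4UtnitTu880BmwZ+GY3M0XOCtZtfbNNmqpRs+2CFgGzWq8XD+Afax+d/CTR2SvO29kfDV2oA/n5rjDa2tzZ
gqw4bEUb08Rkx3AzQDOgCpQ+YgR/FAAKsFa85o5Kvb5/eJSqXWbfAAVoP/AMyBOby8cD0i9UlewXSa8CzbhirClsCCmqxDKbtjvx
RcnDOr5/cRbSOicGDjgTB1inV4oCRhJR/aV/1H4Afz6jEh3hkeUcOZAZpeX0hgOZDzy5XLminuL2jHdYHL1gsIeo7m38UUaRFx2g
7Xve33BxXQLAkWCjlxjMPgwAxNuN5MqO5FlxAWc5vEA5qKBt4lzDW6xbwYUgaS/V/O1hlMEywwFzUF4J8D0Ay/l2LQPqWyIt8M18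
Yo3kKOzIYIJL3YN+S0tS1NwISMs83cOoPFLwem5W5jNqHbYJJ/p+yTQ1rFW7cLqiw6YzJOlvVfCBRlMexP8RhYrNF+2UikwJDBng
T0qLhodQx2HDBDQgsoxAtcwAa/IBhNByOy8vOAxDPgoYkzfUDDarfLmxAaT689KF5/2uYltAgBTRgBafNIjXhU50pm3VuRuin7O7
l5HaNSnnKDwOL/nTmNMbvJfNAvxJWV4LoGdHJ7uj+TS3qGjEfud6HxJXn7iV3zrEc6+rN6/YZW3zcHIgFkF94ZMDvYeaBmvXMnnn
uU0+Eiiacgsp2hkAbwek43DPPeppXb/M1591/8VpVALFiXkhu05Ll06x/F2FjgZTawlBsiQGVogmMP0OpX9HPJhdEr0UTGPQqHFQ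
nSrfAe5ENgCmd/gqR9EQFbWUb6W9HjPIz3+bZ977SKlo4xGkusZQDrLcYbonNb4Oz8C+plrrt3vUhxIPW4jC0pigkuTLSSdniA/P
qp4oFitdyz1R8n+29JIxGO+PeTK2Oz8wxSjF39wbCrrGbpxbV/iUygGb/dcIhTMPRhbWU+vh8V5UqSTsQta+tArtqqXEWctrbKHb
MCiySf92H0Sb+OHF06iAsF2q08Up6Z/RUdDuu0psxUDnVLhksWe2pu8ALsSmI0/6WfTM0pYIMzGqTdxBVI+bHPu/+1clKZ+137cb
Gfh7/Y8JXqK6tPdJmemuR60GkZboGSLV7rPIoJUcXA1BAbryozPKkvcr/tWo6671uiGKlc3x1CiF/5usT97y1RB8Mg0coMR+fW9K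
Qw5O2I9FIOawU0XqoaTEjudleExSQG2V/mdBl40ggE/ezSs/IlF/4+V2D97zmti0ft0kTV43/NAPEntPvxWUoKmxpAZW+qYv2uhj
YgF222rx2OZWh8Mwyb37PmBNDIIHfHDR1ED5wzIQ07AYddGquLspyWBg+UNCQfhvxqofMa/gsaZ4ySM0oj1tcXAukqBkygs+xBu4
IMJrVM6+hCTMixEdMLESl+WcgQFVT9+N4TOL1233SyGV3Rcaep4jCVhtrn6QBu8Ytv/dA5/eKbb2TUDek9MsUPI9ZmYxgDQSS0Tj
H2Nk07T/qDOf/puiCDBMmIVpw6mtrSgifFHkTWvOKfTPRNy2BLqkZ1V9wzdJBp8O+AVICB0P0/rLjX242MBLuNQ2FVKhhmV7Mcn0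
GbFsweveZ6OYCBDzjCrgov3Z/8bAdF4JRtzCeGsLFBTLg69ck8UaCQkisnJrPXcn2rQozyhcnh+jYsvQ5gbLBOhOQ5OAZZxocU9v
9dVJHMsFG4W4YBwNldAfh9Eo6IgPY7iwzKMI674FtqaUSJ5yJaYKIhTAn/Q9m+Hdw9hP1cm04dwgqZokw1t2CW4/iHtVQXM+KHd5
09G67pxk1N+GzIPt+CL+wbW83NdG30lGUswPJyOyvguBq8n6pPiTM78oye3xB6Uc5FRbWX0KaS+fVv89UPpFXBK3CrvtE7LVVDnn
3KM6cYrMQ/uNJJKyxt0Hhv5PqyO55Enl8QwAPt7M7ozdQvtjC2H4+5Ram8m7fDjur7t2Kig7AekeWSGfti4QSfiO+aNdVcsK/+0z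
VKSP9Q+kkvK1Z5MbST5cJWQc55pslhgQtICp0JCe7bnKATusqWv5NJP2U6ANH0ejl6PLbEmcSB738V15z2lQUH7bif3VDvE7dxwp
PWmEjzp8uMSvL5zWFcW5CbstdOyk8Flm/YbCFTAwNgZEIiZ5+33AulrX+QZm+ih0LcdHzkViRca6dK7kzD45HOi73Bc2KfFxwPfn
02iT+2vdtC1LnMT37zQGjVgzDxRcK06d7AQyKGAR/X0WIHcXfXun958/SaD2EYWrqqdWEwefkCj7NJl0K5Ybi945eBj0c42GM2SF
dZqeIvRW+PPBnkkdepJ/9gRKBvCMgnz4p5PFtNTLiK0btOxncp2+WOhzGOeJS7IKB/eyZzv9lIN2JbenC/89gVHXEk5wZmG5+9Sk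
a7lg+69YDEaFosSYMmCKpEO+E0N+0RNiA1DRiCjPv/UD54JcjJeVPfofXEp3uz+qWYxTUOpaEyBeZLlHCHnxFJrWyIeb0IEutGBD
pqzmarWkOfe0yMFk5oWl5yw9ED3/k9zQHgwMNL3ts5vem1gqgnvZUIDQ+r87MgTfrMMbu2SVq0uasTg3m9fkPBPcPshxiLH3Hm8H
meq1sQyMx70zSfFQNpXH6zfPuT+0zZmYdUXYAHyZvVxbhm0daD7ioFiw3WmfMcAmnklcoO+KhT6MeKcDI4yTMeaTYKIlSamrm8UE
hDvW5ejXBgxyU4LlB78F17EFeJZSAH2iofAv/4VVU8rLhLfycih/aw1235/sFvBtMLVDZZhgzUyu+SeNKC3zox+H8KBebbFiWmhS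
xtZKJ57SxDo/2dLvC+fBTuxTOqzBeO9kiyCSXAwljDQAo9TnRvFGiOiUeXjLw8RIqC+4pBsRLsbhRvw+OkTv8KDd/FGgCd9CArlo
X8XLxrKT48NUFofJ7AWBuFfN020+OWX0vEQqob0IZbac3tgSGNRjmZITKH3rRlQnXycZPMZynGATVwEN34ZCvThoz81w6i65XRPa
biN2H+HGTDPVccVdf6yTYg25OwWyn8MvotjsRD8HlBsaNMwVw9xcbG/kRYjso2eqpltlMw/tbZOe+rr6ezqFTYnnTdK4gjGxInSv
GAGPzBkn5i2id8cfxL8a+JcYx+TIMYEp4LSpQ0HoqTaPBV1rNujdNstOSoKLwHfcF221kmzUsJxgqE/Dy6H0DCxnICjt0fz/sCyO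
6D6o5nquLUpKv53nxZirnIS+VL4LGQDdU17a0TLar+QCc7gewzMlU9KPOKorMndJfoMsic3Jgk0xfVsMrltz/weETMhca8Dj2eYs
GbV5BbGJp7ZTukX24Zm3kP2WWgiSfQCXnUfCrj/3uayN4MGBxe8NtXTPwX9lTR4MbI3R18Q/JLLY0QSnnpw1wZNGfuVH8bz+bBT6
s8zj1+lisztXkcxtfuM8JKybT5Ut2ETzcZfaNL0i2mjlOv7q/aWxdphm0SJunznbY6NWp96j3H7gNCyhlgeVH4rW3+KHa0d+yqsM
eWaatTPBn8RBbfLRY0MtnVRX0hasPCt3KvIcUCjQm4bXCFpwRRMCfRkP7pupDF1g+YK6zD5N9X4DAhJjbjKz3NPSXyi8IIDuINd0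
9A3AHlBYwTk5wfR2FsIqjo6tl6LskVCCJLVt82YoktxRVjtQ4hkanvBHl/OA2noBSyBIyMmBRFTguajbP4ND91XE4S0Ol3ibJE1h
zf+g3lqGBcGR7bmhrTRFGOdMoclBFUpq6LrzGT4s0ub4NOJLtXEtujlC568eKLMKy8QuHGLrwbjOYkAlqGNNHzd2zcuwmiE39xWU
K8FsVL9I2w29fe0iUZdQmXv7uHbBHYYkZ/31lriG2Xt8dYmvbEkqB1ykrX91J0YKXXjLk/yPD9M3yNFxdD954Tjua47Q+eAhPXeE
LSIcuADVIzNEihf8RQMxuCNDxCgIludGn4Fl8ivTWxcfbutStQ7kCyxFTRw5ZJfBV0bppcVrQtuRqCEuCGT4UJ4JeG9pYckz73wX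
Ll4veBwOMpEHYqTS9Za4ZI+pBWM7r8W5lI5pjzrPIPhJwXUqOqAZKGQep6q47qTiljx6EJmvINM7vqv4mSkhBc26S0548HCVshUM
YLS2srYMqa1z/ueoVpGC0OzZVldySuu5QO8iOjXppIeFtb9+aerJPBBIrB3uSUKYch5M457zJ9m7afisEbUJQHDeuTM1TG9GL21C
RP8K5aCRLhjA8mThvEOX6Qu7Qj1CbgRQbJqlIyw9FV4tqYTDfOxHX7ub4G6dyev48eznvTAGmuLgfhDRPaCSe7WlrFKAB9GpELp4
cGmWzNbMDItLwI5fM2zGRjqSRWQXPXfXSek7WeZA2fs3Bt6aPqqNjpl039uLwZ2bit62mfPxJxFVBm/YE3xXU9zcx+GkmGsLLAmc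
++X6fDgwG9w6agYl2Wr3lIsi6dB+DRdTCjV9s1NdEg3PJQ2hLXo4snhWGVRa8WPF5wlkCswlVSDO0XfWF8tFWnxgqoYAD/y/GLlb
7UYzZ1KVHt6DLDu8XIUiXGAPS7abjQsKGM3yVUNTmf6hn/P4dtfTqSlXIaJgBxWO+1eZESuqhU9PxQVXJnjDAwbEFOnLmTcDa3P+
fqNbV0NHDCvvmW4x9iPIciJJp7oLfCRTg3tPL11rd28KdhoKZzYSvNlh08NQKdw5Vo1fVp3qXymBN9rjBVX2WEyDIo4WdIvsujz7
Fx5/8NVjBy5ZgmANaZlNHKLQ3cQOC4mkq4tRyteTWMsbi/F+ZBgCXaQDQ65XVzty9OmfWjev61NNNaanGHBDJTPwR3HOyimDA196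
CU23TYRNF5XVdxq+G33c3re54r9UbWnOXXsd+HfhDwndRMsTic7m2wLgGTJZTz1hhnxfuyMOMN9f3NpVgKznkMlho6eCirxNuUAY
NQMndNTBGru9OnD3jFLkwNdTjP8TayPybpbjucelg44a4CkffuGHdF7eqMO8Wpft8j4gKZ6qUFvK8k1wouD6Cz9RuNGgu4uLt6tg
tZM54aRmpE4KLNFMm3nRAlQEMuQyXIAAcJA2/OPVwoOtjryHJO0ffliATyJIrBZc1UdXYM32ZNWl716MeBLgUbW3M1LPUEReINLJ
AqqXNCaDSfuDmny4sMlkInknofdfPSdUSTctnLXTZKq+NHSI5Ap+caMgbOKKzQdQzGXUWl34Ur6vypIqNV/PSovcmo67R4UYH8KK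
d/mNuYgy8lCjaP+peWMRoB3FO/F9XtvidkuYLn3qrjE8mpyjMNfq5Cno7zzEBWJ/QbFq96WCn9GUNTwbOJZJD3o/s/7/bvEQjZzC
nrxu+40tvFAOhyCPZ+oKIQgAzG0pjlBVrbQPjdxs/8vjYV8fIvqVz8vWK48Cj5G1M2/c03oBjqXJqJZMHP/gQ6WG5gNv2SNczCOr
y9rWAo+lMz6iZ2hS0IBHMlHfPKETCq+0HcSLPk3mYTWKHpIAj1C6oMkNosESPHUSsWIwyZrxh8ledu33eGFJWjVy6cftZOO0BB/7
9GjHiEK+8zvorG54Gae0wY5TaprtrOY/O8Ou0as5Uz5DyeQ31F1gG2XVC7I/ll+cGneKJSKjIU24N3UvxoWxxbhn8sHan+xsIHX5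
l1gxN3PsAqetlY5bVuID24KUB3j0pHCPas4jGZuNVjwsSe7KXcVMV9KfHI9URBpNJJN48BsGlB3kWczeWVWWlUkRl+vfpML+x5OP
66uBZMvJt4B1+b7tWEG7XZmNYTWwVQTGC79tJl46O4mZcRhkujaPgAJClfs0EKfCyx+xDW57e9HXiBKCGdLuwhk2POh/RXTByBKy
hKwd5u3e0ghWA3L5tu21d52E+dHsooW70virNcxmlEEbH66uiv0t/uQIA2/TAd56+oGXaSafQm6/dueCpoik1Bwce0IaM97RHdcV
QI52R955y0ADdmtTzNMNSg8RW4eOIpTdRv4rDFSbMTmhwdHDx/28AEVrwOZnXLKUTqxAPoCTFoBqaa5POECrmG/BM1Z/hK2YSZsC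
xhPsOBSlVSVGu/ws8hfOcJ800ZV3aMcriVr7rQrofJaPtKhFdYIb80gTQ22nENJvmqdcroDVaYgDcDWGp+VVdKsNT5DxYzQh8zVR
lEB1j/91hKrXFvem/wi954q1q+rqI3Mg6fWV0GtibNxLqs0t+oPHUw4lSeAt2pqoIbdkNp/2bnMmxLUGpZAG425JFr3GeVptVh+k
J6S+yfAMdYeaZVsMGwrwS+A1t0gcoteQtsjd5gD/8Q3nN6W95/OB8ihN+61VSXb5K9x/DJRiBP0liHgMknDVwS7DDlNEtg8xGYid
mC9RgWWMe1TjeZmO2nFIVuwzjio75q+Q1ymc7/4nWGGyew+YvvOl6At0mZcEeprzSlz66688v5zJ2It/VpNuQ6BX60hbafAxojx4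
QLUy+QFAjV5x0+pEzSwvO+wMJhe1VQuB+m4W69iDqv2iKRe/NYGq6lpFwsHmzUEaAX1ygNVZ+l79y5lizbCjPq0nh069Vjfgwz6e
VhuWcQZYoxfS5pk3cIsQMfpIObzINJEA3WWuDyz4nyGrnooIp/140wi1M340c2uErE1A2PCrKnipwcARYBJQMh96DJyctDCEckgP
zcPvbOPvRcYjwkKpqUf3yNk1J1Q3YBssGkseKilser4YmFzT9Yk1lRUmEknJbnTsiN0c5m6qv8HuRTFQ77G+CwiostW4CLWgYUrd
vpD5qltyXoIjRmU5O2MjKn6iOXRRI4HljxDlI5AMNpbnRurm8uzYYB6L518Zwag5U+igKF2VvJivuT/92Hd0r0765kkr8hFJ65CA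
pI1R0uwialvxLO+gp3hJcnSsO72vy1rykAyWh/CQ46TGgShJfN4al+ZuaY+RCKFupF+a+5pvxHlGGqD0MU5RbyNpMosNKhbykx1u
YcHH+LPKazhR9TLCIOPK5y82Uh2nFSDlJSu1HJTFFwC/Z7hYX3ffBiXriBDAsqE2yzDFE0sf2ymV3TXPAb/PK8FuLtDBMZh8Kd1n
+LEUybN95gCr5DqyMglVhNENC7ylQg9/ptf4hvbKd09UHgeLUNgHl/02WsywtxQoxAxfVIkeuEgrraoIt4Y3HL6CT2N9IVT1mBA3
2K59qEcu7hXyqGC77eWp2Idka6XSLvRq4T44Qd8vpAMIzTYH2JUYweSxg87PD7UGttnV7jiuHCnFZa9sUnSp7kEchOWZB4oBPmaC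
4c1ZckebGQ5dh2jfEnlseRkwpWoR/UIfneYGtF6EwlG2H75Fn+eoyrK9B96PDrLQGhXrTWp3XzXYjUsTxzUK8rgPxW1C3nKg35yA
tuwWlpq5UVBhXTL2aG3/1FJSSef0yYR3N2ArRTe17G7w4kbd7FiXRvy4loue2MCQ2HgxymOdrbfhaOq50kstM8fY9vnRvkOaNSLN
IyNa6FN3sCMIOLV9Eq3Fazf/V6kE/VJMH+ctYGO3hdDKoSmnudGddW9STEkURh9HanuRMGenhh/9WRPc34ghy2pK+uCCSWtVZoUv
aD3L96gQQDq+V2mNlEYAilJGYBefD4A9X86JzGimnhuA8zX5OoWKtxbJIEm0ZHwm/bP9IUMaGdluohSECJeArA9r/fui1EWpabKr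
64tv3t2SiLIpOX/w2gY5kuPZ7XfXe0TGiRtSwhIteOpse3WJxosIym8eF0SwXg298uLjQpubVI19tZ5irEdnP1OBCukKjtA0g1w7
Qomln7FEN9Xf6maTPy6sb7n4EdbWuo/YKpmyT94myTH+AXhsZC6wWVrcc7XZaJdmDsVOYgDufsNcjGYx+6rVzZ78UaacUt8IQr4u
xcijeqp28AOCcmag2Al7sdvCGrlZgSeaEssoidAw6AN5qApnKkP1PXMWDt3k4OpQ9fwntDxzNJJk8fBs9YGV5EwjQtmdJ64rPtB6
u7PiHxA3/VRR651N9n5KgQYHUILFpkioaiR+2xh1zk25RQQ3srasnzXHVCWlhX3QdpiCocCWj1z30R8DvIixbI5RtD7VkWBPOjg6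
gzGejOcw/PtAy5UcQRW8t7vLgRP45GrfnYuWn4vtBE1OJ+2xteJ4rrDXLHPA25LGkfe2VUqeptJO6MqR3n835DzXf9GuTL1VRGb1
bvrKYn1VZ9p40eB849l7yvx5TpDOR85oaOWFlFIc/9VsXxuDsQejqxqFfp/+ZCaEW6D5uXvLJtQPeoUNGJnuzHGzZI/phktmyXsa
u6tylytBMt3JH/lZlxXSTNqoggK6/r+TLlPmNzsIMwozaPuh2tfyHyZQPuXVAtddYn7L0GwXizSVA0rPpYZheRF01lgnO1fS99iz
ePRxDbDm0D2GmvrdOxGjz7btML3m02f7RcG/3ZeFHeRZMO9mbISt5N2WE3X0zS3QQCpPeGoDBm9pRVgnjxANI41I+3VdPieckNmZ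
TRrU340Vajf71zTYglGymKoqFeXMP6cGZHfwcXXhn4vbEXYYtpOofr30XqhzvM1KDy5FFEiJAgJV0zelOhaSMty2xE3oipk4TD86
0Q7PvzxuoIc647RGssNXdeOz955f0CQaApPxQfH7t4ZO27lPT+znjNTc1IEEPynMpQieFFJ7sFR8FcbM7ABPUaALEUN10DVrwubh
Tw/2HO1Gkkj3HqboMziOuBfdo54WOeKdnvblXvz/sWHAzer+SGclSEtwy7OiqJocjRSCjur9QCJkNmMGqnDjOhL/X0ZbR+xXd2YS
3Eb09YlxBkwxZeTSUtCuUN1z7xKbcm/WQDXDeVuSB+4r2ieswuqV3jsVW7g0O4g+JEP5AiO1nGD1LI/sHRN/jtzJ6mHL0WTQ90bJ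
hVmo+XdIdFGbaSJC0g/haFS5Q0oTmm/jjaM4PMFiLwd1LTYgdlmepoe9bvPbJ3rtlktPavjUdZSRWrMk/4G98hbgorU7/fTqpKsj
Q7ovCOvYrCdYSWOElP2ME49gXeUSpMq1qC6cMYCsi98Xthdot75XOKbQk8C5M33dIrm0LruEpfz0lZtNnolaUJW07EE9V6BG7EDg
wbn7R6pbpWIgU/n8G/PX15Kd6FZX/3U/hcIJWXaGKtRWej4XZdAgLYolpehm5b1kqi59LUScqr0Eejb98qMm1X1Bct5mRz8ElM5K
P9aTL053ytUi5zDH3dEEKHX85IiDWio4anjA9P0Vd9DiK4CsNig59+QxO8Nmg8ag8YP0NKg/9zlJqE5mHNqDoh9G0PVlyBEfk8X1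
PBNnPEIpjiWuAFfeuRHTf7wpqsBqejbMy5CgBIyRdnPYfsTCTyuaM8IaLAP2V+7997rUfGg5LLZmnW0b3m6a1SWGqRJyD9Qi5Vok
cMXE625f3WjZZvYSQUIcK+SVjEuVZ5F9cM5mf1UuaNziHpB2kv3I7f4utjd52Wi7lmzHbGIkqIech3VQpThUKWJM5MHvNQfjvOtp
FBDkPDktdD0p5BYFXIPxnzSeZfR19XDMLakUcPp/jAa1FuFtznvFCgX8G+4buKaij0I4o1lultzK0f7mKLT8NkLIkcmMkmX3e7g5
7wR4cw8T6xuuVbfxLEXGeA2J8MozHfKi20Nf7riYDVV59I1nOVhKKe86XaeBafT2ZlSlGmZ168qC6Z8LMQFEXVv6jCnZvVq190mF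
SAubM9AVJ2Tw+TPPPGlEd/oJpAoE5pMVLENrqstQ0MeEeg1WkaRAt0AE8kBDcnVHLCcoe8n1LYY55imLL7M5cAkD1XpzCmppb3r0
pZXBh0bqyyvaMqmvVS/Gut65uQnaJflPOYwZJAe3Npm8sSGrdE/KlvmaZlEtgjNNKGG0rbzlG1dQo7NFp3dJBaKNmujie4YmlpDG
CYnhGIbI4s9/gFKaQIF7dC+Yd+VPtUBo/76StalYE2G2HJ/zKQPZCAqMZ/CnlorN7cyFwMz7xWsQAEr1l2BE5KkievVd1axzZUSA
f0NQhtjAYtoouqXt5vZ/2nrwQXMmodWIP0ucwKcqP1S8H61Aw+Z5kSKLnHl0fxbUj/JA3qIuUdi2rZf3ciWmT3JYcWYPeKLTr0h2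
/HIRJj64DqUtG4RQvcaAwAS54qYuJn0y+OrX0suT9cDc44GJs8okSzz874+QxTL+SEzOE1/KfaSGFm77acm/Dm1md3LfvTOcASki
Dy07q0VTeRFirOCnCJuwBoRcahWpn/+3CmivV1d829/W5IvO65XgyqyonBUd8X0y/n4lY9mt8ezeMITP/bQ6aJt8h9FqnqT0y5EC
J1N6mfbEYO84bNp+b64lTdJ4DrIprjYE2uj1gXyKLy5B7JdkvM5q33KBygt2S4kxJw3NnCLwjAyT+/i/jdq23L1RJNI4xtUIc00z
/6pZa1jxUlBxwjtUCSo+TH7i9URiuGuILsDW0bdHtn+40vqfEdFR73rcfNVlD1iiZfWtkecrdq9CzBA5POrHTJn1JF85KLAeFyMu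
Yf4/9pp2CKZ60FkLG1HNdSJ5/jffBnpc5vxr7iEx6CtArcYCIcpopuWv3spKLbqebp9ytqyjcY+QCSytBsGMqqXHHe7cm0Py7Dyc
D89IIBggD95wIEwCnPal9h88XthHmIgI3CgFM5gNqlS/GFPlJKTg2mPSG6YffsHb3OgaassBe66Kg4CC/+cKTuc5Zo7GoyJIWVAe
3rvmSqeMSj0gJ+a84w2tU7FN6juUb6vMKCTzkT/jyWJKHTXJ+Cm0Z9WeQexbHaaiERdygrA6Iq6zt6VzvXgErGIw8e3Kaq/aDoia
0kEIPpj5rPExw97S0oLNiJg3Tz2zo8uZZ3s+lbzplQut4zVjDB9Hmbj+tF4c3bzjVppThJq3TJCUJjhDVefeTPQ1PsuA4R5S5GRh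
BQS5ycME4zXLoSpwBrVUpSgp3LiuH827wqGK4PLE7xBVr6reSRXYNeFM5cqQjRKA3aRa6u+zvd88In3Kw0cbWr7ez3jmtrmE76U+
lGs8gi23pGjoMcZWO8mV7axDNIXYYbfEd+dftswD8qL2lx4H6lSpYF4bNFFZnRFwd/H1SlcjJzs2xeNe3s1bj9ILCRYNlymC0VlX
AcRCfTgqjMvpfjmnLmE5hOa+EFnFFpMWbNEmdJpimT71UG293syiS+EsTq0GhTsdvuL7GaD+YjNwCBG9LLhQsXf36KpZmfLxFL81
LsFPNydcJofwPLzOuabofJbSBz2QU2t3tgEBdySAOSaOjrAAyBAv9lXjlOVdU1KJAOtWD+KS/C5UTuz/UaCp7zLJWRnrqc2XmFow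
RJv8dNO6q7DQa75tpRwQReYyK7brQ8/mOe9oZZQHHMZtubVeWguAXzYsR8mPGpeqxXbML8UBOTQN4o+SlcEvfSGxWMGU/Zh7x+sc
O01oCi/y/1yLAaPbNqv66gp18JdTzESoJiujZDXqaYfC31KWZTC4DY5zlh5/hjvKDFAwPoqdYaGeJrE4ai/2leXpZxuyI58e7Pwc
mlc9zK0koQ6BlqJCKRMTvrvB+g1rTxxZ61c1OvoAjbjso4tLcJcthKqq3wmbkck9kGZsudjSO0P84/WftJc+L/Xwxgo9UNGQVCU+
VwXX18g4gl3Wf16pAQ/Akhmv7y0HVqBiM9DuLC4whRry3UzhqoZ0/ICjSTMAcKBpwbreYsRtn0uF4Wdh7/Rojrpem8foyCBQGdA9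
s5DLcpX48TKeULYE2tsRKnhvcoyd+nlGxkW2akgbGTiI7Ahk8BwDhXDhenl3Zp+L/ya91yIcYffiYDsAz8lT240g4jSaCfR/ILwM
qjOt+wPlnlE96j6WlrePMd50bkZcdc4YMtzcetH7Y4BipWxmZDKFzjsmZ+nmAQ0O53h5PuCC8VWtcJLjrX1eL1ZoXxAFs0QnaZ+y
kh40DkK2Dn+qsNyKMlaqowCF6GPr5uCURaFowHQ+eH2Mh0+0rZemlhVhiHV0BVHEal5GA2cWjAqa79pkc48Af9edcchBI7MDDZ7q
BdmQlclqciowIHqSVNyEsThwpkqi624ZgpGdFYJOfN7YszIm6Js4bM3EnE8FnJEWdkRh5dGMtKPfqkU9LViaeB0lDQnQE4Xt7FvL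
VtgKiD07f+gRqJUeT3P/zVz6fMj0KyB17j7DP+sIJMeX9vPZ7Rr016ys6mnhxe9XFIPr9HOT4fc916aMdfGVOPnkH5N1epvlpLnv
YraCfvHvaOh5JJlE5zyGKfd1DtObbPN94H2aWZ3J6MvJdOUtvu6WfIHJIHLsO/5woR1+aFg1e76EvWI7s2EM2SQ2qG9GVgj2o2S+
LvZXZr1+j6CAFX9je170fD57uoUd1UHp+Kh386nf6OO3Rc3KgOKi0l5wUmSU4yr4/FzaCVOWG3PU4wWUXV0I3BRHnep9DQ0l/T42
zqkBjOKU2f6AkAfjwApSL+cPYDdmf1Euub7BWJZuSGKfTmHbC9wwjJ6fTLxC3Jt6GQ4pfnvaR0G7uOdejp1h9lwZBsdP1v0hL1un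
1cBdVxgAo4TCIcilGrAcLGMHXj2yVLMQrrbxPrRxxtCsa7qkCZUoJyDpVw8O5d68HXonirbh0yzV2bZk0am77N6ekIGr4v9JMgJX
S/6PsVENGLdvo9LDpnzwWoBx/qbOZotJuqnz4hCZAzogZ0p+RJCcB8EbB4F6dRGk97PP6eRJZAZ3P8yFYUvoAlyguoPWrW6R95YA
dTKjJB4AuK4SsEbJY81QN6OlY/0XiwDkfi3crSSyvZtlW1qIXhlG417WLgV0fDI+NnSs1EValy8AJRiKaEAiZ/qYvGAWaPCgNVYa
BtbttsiWFnVcHQQ6y5uN+MCsFpSg2YAUY1y7GxnSoDNUJLXVXNQUf6xFimi95XdBgBSlmP93gvUH1RpAIw6DCD+MxPhTMwpzfV/W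
NKW8crt8CCpF9vmlfTUw8qyPaIRDFuSPeyPoDLfKWpynM40whDaM6jm2ldUQoJanIG3+3EgBKj1lKDnPbuQBK+b4v5zsroaCgvQh
X73s4Ohov5OCrkxqRBu4dXVi2Kz58V5q0pgOGoGRZguzw+zSmjzBBXo3tPlzHsZhC72g1r8UvCYLfF0VYvfkD/R4Vvvm+WKrpbyX
sOHGNYJzW1KMQmtfvR+mlHVsLNw2Yp02VbP4WXvYzm7UnwkpNPRotsF0jjLj1H87bIuUJ5ngBckDBLMzFH7/PleTFc+fREDq1Lsr
Ul3e7vW9jZKDcYo3+CeIQ9WALYIxr0HmnW3dF+DSHNPNZDs1ebT2mY63GKOBhnhOI45+KBkvAgvi3NSQpYmENGHH8EnaoueB9Dqt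
hodyPx280yEWn11RLS1Bf0JUtA1q2WLh2v/OTvYubSjyHkTCz3pSpteojM2KaOxuUqwaxBSlrqV5steKIB7A/ac8vATFHOJJ6PCu
G3KSNWpKhDqlqWLWWCLp2PrrSZAFK8mjvy6cK8NmHM8FkkPTwyGDGZ4Ig6igo/y6WQ4ItJ/v1O4krJARUjKrdub+Cz3+/tV8p2LD
O3BV83bgcxYY1WorZkNiokV6p3ZPb8cD8KUp1eLL5vsJTac2l89co7XkkPHUEgNYVEupBXPAa5qw6l/QbyzvIYHBCmibcDdMHUOS
sBKlBGu+WXSuP1jnjTQMNhC5KXeTTEtBU8g793mvoy70z7JQLWe2rEszWRm39oCV7QE2Kp3cZYS/o4GWmK4sNkSRMS+ZA9cwndUm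
hiBaM2PAc0cSPTHmMOBAsEEyFp4Vcilpatj/vPzQBRJ9iSRqqpmdv5Ldn9ODQ8v3UFa+3JbQnBcVkCNF8gwDIehQ2nWnrfEH332H
s1UN18XBUjdGKxO31mkyEQuCsiB1NwDtdz8ykV6sJqM5AkgWcabhtxs4EYK0kuYo+9KlY+CTlON8+WwTRyilI7Iy+Jfsjsm42GG5
IFyZC8ZlZzK+I+i1ijMPPSVC6b5whsRsSXjKC9mo6rZJJuT14f4v4kwGhXVoizhZ0Ax4ffp/A2AflYQ00LjfnPwH8ZrfMyULirig
vd771i+DEY7gsm4ByY20fddv/MOpnJncH5ByHLWgoFYWujvR6b0RoP4dVbsLkS7OJu4q7pFhdo6+QI1XGJ2KvBCcSglLV1FDYCWK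
uAu+JMWND7kSsKvfdEvCxKl+LAh7Wmtv3193m4mILU2hmFCw95iHxNNR09bNRvYXK9jxPzB6TEftZzXPHweHOMpIH4wRU64dfq+6
NEo3pWO9RvpIicLrwLi4hAYUIFx58lJUB/HG1zZD/83HosM1Fo0ICPMQw0suJbSWw8P4SscGW+QdTRXj+R6fT59/EHzyJv3aPNtN
83x+l3qQ/JypNxZ5DeFEjuOOL4hAKO/3kEv5UKrDCprEqFndrUIBDK+ZWQGMhObpk6MccwoYynBWg0JZNv2WFIJYn/n167DwQqu2
SNgmkbzOxmxE/fsdSoUzKpJG/r4XpXPtW7BHTxHq0SSQljoJTj4GLIJ3u+w3/w7ZA0na/cd9JcUdfNio97dfQb8g3f1phZG6B+YZ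
jGvswWIyB0r5ctDHCTfUTkRYL2PzpmT3PftE20nUXEJl9AlKmL17hyx7HJqKZpMvAUpm6IoarFCqu1YNSLm4C3SDOrNXDwB+Ca6P
eTFqu9PPN7G1HS6x5OYSBkL7JpJi2L0bF5XvxzWGMj4H8rrAcimrsVYWcRf971xr1qrZOcUw6DjO7y+IRSWBFaBxovAqfnI8KQdu
Z8FD1gIlNKK8K4iZTf1Y0Pj8z7jTQccTezB8SYW2Bc1ggyRaSE3onUapU9KzuKv45vUp5lENMZjP3jte5X3Vay9lxKPYIDBs+hsz
qerFot4qiQ6JnkyRv1oD+Y5oNSog8X0U48L8TJIR+yk6zsH5w43xW1U0WV1lw1xQZwvYa8zgGKHMZdz7SdUew6JghU8u/j6WNfNK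
as7Td3hIcJtg8SYG54ZgL8VdvCZyHmGLSp5gI+WZYqPfs/9DpSB/Q+mhHJerPtQiCZA2QwxTOPzkBdHVjXE3JMEsOhc0rFx9KSPn
In54A9YjzGxqk+pa2ohP2LJF+e8dozX7/UsC73hHPQ3XhDLzAQD2Jcx7qG7RCR1dfDkmh7SUGIR/pwMLVYIycxsiSTw9PyeFASxU
EnlFdSS4037yJS5BZy7w87f/4LMjgJQrq1L3T6I7g7kaMP8ieHxdORVxE923LNuTfZQncQv1y3nH8Pa/qO04PW/u/uOAMn77pl/P
hIUt79vKp9+4Lbt3iSItAKhwawxKI6rT5vpF2gfqiMu5qFmWtu9O6O5/gmrAD7c1Mj+LEg6q484lwtVgCEdH5/pd+uuA+ywMbPmm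
jG1VSCaeHuF41jUCDbb0eLg7wCjTVfVFJEuu6pfe1npBmNHDwzRyKdS/Ya5SOgsYfhId1q+D0RTIORmDal8hd2GO1wUx/AWynfmJ
SCY1oXbgz5xatxZ8CYSQtBfkVybrMBha89BC2RYU22wZLLhb0sAYU6SyYuejYVKPFCyx8Uf+EjCzv3mvNKmn+1cVqZg84wcZG+3Q
4iR44jUaQCoUZfKeCHGRFc5AScpzWUUrtbE2iN8c2BFRiwyuyuSn2qQ3u5WG7Y29G6PLxVIgXh7w0xCxNIftjBYL4uDZOQj/ZiSI
NQm32Z5gHR1H2sksBiboMET4TndRnm/qFxGXKta5h4HnVWXc3xTcSE7+MXhP2kSxQm6I7UUdOO3vM1xtZ2gZKtlss73QajJlCN6U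
rE4byymU9kxPe6vlcB7+vuhOBqJpx55gxf3ek1FK4AigbmSaVpWTm2OuBd+KAqKGLNmk2GFmVPl3rMA3c8Gw7AMArJj8Uh+9WLw7
Nt5lp1Q2tYnGr+Uw6JJ2OSJ1dgjYSIqNlHXySPgbUHCRixWZwA/Nieva7e7/JnasMTwyUixohwCfgTEqdo9pnU9oBpquOn7MQcjN
IpHRY/JbIR4G0Oaxow4kRVBcJ1KHPee6yPs16KLJ/Y655o6x+0ydXiVKpa1/hnbI0ZK/8/t7HwllEuSQ16r4EIYLYGAAWYOPl33l
P8eJcgk6pS+FHhur1gQTez3zO6Edi8PCABunIERMZXrTBpyK2g9c46p9KkrBwA6zNhnjzMZkGe78LkNoQQCi1993Y+dKjiPEBdbh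
3J/9mQp3EieIzTYMZKUWna00pcqxZavra73d5mBvClq2sJR1kaCbZ4oz6K7Aq1uAIx02Wztg99JDFQX5+DqLvxCH9h6KwwjvFrVe
WozUqoBoZ1p/o9VV+fIIWVM3Nc3T6z2L0QQ/3KvP8Kqpq3QsU7QO9cWoFnmZlsUAUfD5ZLBubIE2HP51UJO96IZrG02gG9/CqLP8
KStm3ZRf32621FbhqPCWp9Egzrh1y3FZbOzAm6VYubyli6iTRBV59JUqhfa7Pw50Ci//2VkCw1MB/spO467JROXieWNBLNZxW7s8
dJsand3P6IViA5grGhe1N1Jc0w3D28JNVFZyiGUR71ftjbhSP0GI8RQrOxGogDAeHoBivfia0ZzRn3ONMByjyl3+9S/Kea/U1/eM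
QyC0LdPjdV03vUochxIdE7D2lETQ4Uw0ttsTm+ExYc52V56uVJIGHHE8a92ceYWho0U8dcOmrPDlp7yIDgY66hbuxaBdhq6GP5FX
uAFJiGoBxwdWw33IeMk9h4raRCHEZvyJ4454ySMqUz5gXJVEwnPtConBITKzRtlsq2ELyenrvoKXTfHo2jFYqesgtWN84ReO0x1w
mrNHg6PtD4uksbEI2ruGl5HnXVwEu18l/UMkTC+zvclgjmhu4WtTSzetygzjZ8v8l4+kJ+zp0k0Mn3QHIwajgL2PC8V8JfY45WmF
RN+XdBcnXlHkcg/gccgdedKFlz5jP0j7JKJ+Zz+Gh+ODyiebVY0W+ugOONJbaM3eDR7EsGuUlRmhNdprQd9HftIfdwIOXRS7Z879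
AykgXBDoPHkQcOZlwQxBP4u5ef3dm6yZTyheMa1gKPqB+u13yTo+JOteuzE0NjE2owZfh98L10+taeGJWYyLLSMCFGr3Wxl/4VF7
T0yNm93yBO9OqDKBH9hKy/RC2rcOR4e3nfLmcDhhkQgX/po+r5pYsMkSSlCD5UZQVrqvBGYtEbdrA6ZZojvLSwJxi6g8GU0IkWQI
wRnV3UhLZp+IyOb7GdHSv/YGh6sCogv2kIx1QJE5N/c+vx6p6gt4ssnRjHxJJSXOVAojmt1hceRHsjWE5ua5A3Vp5tjIP5+S00pM
Ufhdo659YYrDtPAsXF0r+RTawomUR2B4IkYvh/gcrPEOLTJqLky0qR7C3TynIJiXHU3OVgtB1z3Pth2pTmLI5apZZvj6FrKHVeAr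
YyWGwi59k+yJp3m/cFuPm9kyb15T4x5/KcdDqToh6+5KARbabH0FXZ6JRatqKFyvd3xMIClhhWVwSC42DS6hHwzmw9jux23cStAx
q9PAmNkJjS5hUy4HzXnlIE2SAVYk3KXPciw30X9uyU6N6PzbXFcqs+AS1YmrzV8eWjsAZ2vQfHn1HZjc9fDgHMn5SZ1+5sgdPEjb
nT9HG6etpsZOsWxVpW90XALE2sjVIVrYxm5xz0BwwxdojTYfGYiPki11D0cV8jGcw8J5zgwhXXF0aFRjKeUM3oKSCgNV6EqiKyFW
YJuUEMgGNHmkr5HT51qxfbZuhhW5n8pljYSVdWsSLCMqEBEIjx7O03b9yBI25Ql+ftN+TjOgydSdkaI5Os+UqUr032Snpx39xvKt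
3NoueUcOaq0F1lANeoT2LzQ/2AZwF8Y+N8eeoqSHWeCjCeGXZ8JQFEBfHtUoMvELILSk0/6eaMfQs9g4v03ny6pYMeDWoRxpvQlx
Su4CeA5YMciTOMAjdC/jEjA7NsgXrG51WAYKH9ekvPuF3vodpWY+KT9TRPhcDcYTW/7DFBP5d0yOWcvwqRPMyO+67AEFVSsAMlff
5CfaO2elO6pvHcDQiNkQL155+rTjiFQ0o+mU4JUWPZPRFbqLmbr/yi9+gZrj8blTMCbmg2XlFel/F5EhzDXbBUQ3+U6ZA4cf3afL
UdZm10ob6/MB+Uee/7IyCQOcEz1N10JTWabInEbSkSjfgaNt075K4bLnqh/hU40shGnOMe9bNcFgk8erQebE1g44uLfsW6iXnL9o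
P8154Sf7ni3voBUBNGImyhRKDyEyTtXKs8PBf4PRvKXXca6rU57VSbgnmqHT2OJEQ18idIEK75IH9lR1p9I3hu7/4p3eUBWmvmTy
RNz0mNwKHUv/ZVjP0zie9p1Gi1fw7ng36/+VKrJK+5j+iyLAq9jgXmXA6eGRP7SUUJKWxjQhfz42sun3phjUOH7oUNTXyd7Gv0i1
dIa1/13mPD779jF89TCahImgrP3duCXaVg9BSv9zDN76XuRv7uGAGoergjwDfJFAMNWnXZsJUG/dXeDPV6Tx0fzoEXsIytLzdU74
qFb8IBY90mIDdXN6mjZ1r/hKMWhIW109WthZICFw59j3HzipKdrmvc+ePwX5ZzTak+0CJJoSLEOUitanNzvvyF/iFHOuFh3VBg2B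
lCm9ZBfUxpsJJDHmVP6K1zYd9LEbLo0LOyXz7/ILeQk1pgBmIDkB+0N9JnqlGWzGVnTqEhfNWNPEX7LuPe8snSRY3nsa9dXlACuI
MvMoUUWxgjSW2gA7/Jdpqt1XMwG/SVRKPfwR6eoNckoUIe0xOw6Bsipzmj+FaLlDyW9wKkn32jy+kWJlALTrA7YNnhU8988KWcdX
HTTevzdW2bkNtLwMrUnG0Co3l82Wa5KyiA2QI+OsCpjcAwMrRTq6CmgN5KVCCo4dNNimlInmeMz4QiNBVYnIprrXISd7tkTkb7Hn
Bay6X4wrDMMyYQ+rdb8n/hwqhAF12oz3mphLxFhrvq6mTRikK//2/5T8YQqkreNB+8e4pHgwZCX1y0C5ZDaw+tEE3mAWovJ17NM2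
ceOj4Gi4TSAIizZN2pwv5EVH2FvKPiWJnf8wDCjDYZzcb+4wnZQhA64g1+yB67kWHQqF20pNX31soLL70YyuBCQPkXm66OI+t9kT
k6vDfcShUotB3bn8y2mC1YeSCSphg9/4ofI5W8MDtWX9ppD1Lz0eCKvgajeM339Wp8wkBbb/ZjBZjHiVCn3T9sZgwGtGJ8UrIVwn
HoJFYB3PHoHh3FWh0KiFZD778EnL8W0U71gkB+wTZ0vw+dkLVDc+we2yXmrNjzDQAPWpPvgTrvJH4KBT28Kiuv4F/KNbZkRlK9/L
Dkn8PbL0Zb6hX09y3i0zL1EvmTx7BbjJkKocyL10kk650S1Z2UUgJFDoxhayt4aiLbRc3c2lmtc3zjMty7VoJ/VURfwwaOC0ftFN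
oWw124UYCaKemZ330cMbrYt5tSLpkwQXLpD2lyf6vWJd4354CjJDEZmKYPDaXXsbfjf/N1kZe5CHTGr0hiv+2LR8Lwl7tfVPUyZf
QNeGZeQ9hC//OwE6GSyklVDaFrBKZIAiQctzTlLrM+2nEMY3MKbvyJwmQH3vFF7M+dMzJqNF0vMMOlDeLTSm1IvCxam0wFy98CuL
2Qe2DxhKsBxsYQ4H59iJoGkIQPyAN3LPbT193aODjYLiaF17ZoxC9XnTRXmvRT0bF5v5VjXFDWKhfAvvB3gl0BW0b9+zizcbqMpM
6bQviV4xzAG5+dfD4JglDE0nYx96LjSLPvo3tXJ/FGwIoSB0lzvR2oYdWddL29liKj46rZaV2qKGz/bwmpGWUfSNB/0Q/ToE0QE4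
pZCvoK11m9kG+lYE5nDZ5DbXDl9q4OCKSAYTy0POfeZCOdXyKWIwm+oMVc40sBdeF7K89WW86/0RbwfPRay35otCq7BncaNDL4Rv
Jpu9FTC5CsWwXBOdIQsMETCQf143hd2iY2eZu6Uuo164a5Rz3Ltg24ed6T+TWgXfMXgxVBrTO6oIT237YWvBKECP4Mmx1S+E9aVM
3dyYue0DJpJMoxcxkWzvBhbnL+nDIVLF59PDN4Rzq7u6UHRoY8370epMd5D4NA/Jr9QLL9Jxhb6xmylnfBLEogUA74KzTfV4C2g3
2vtMo7k3B5gvsBnsM8m0YIzSUVq5hk6UoEit4EFNB6m138C8x27HYLxLgEG1OfQOhVsGXTxBz54nvkUQifRTBK+u6mfZ94xWecWI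
Mv7OAg5Y1YYNEST+Zq6BsCEYGaiyTRtu2wmSulcZJLpNOR8zEkf/yezRYmncefwXxlWd1owtXNXsxAyHLGBeOfnMs9dnyMBzl5to
d9uQ2YxhAdkPO9PpNSfpQipF1Lhqkrfv/DqT2FqXUho1gKQeqkxX+/eDP8MKsoNmzTrMVypgipm+BiVgfG+Tkp/1YT6gw/N9kQ4A
bCpWyvA2tPyXcNKOZpC544BdjGIrIPoCUwetOZ0KMMyDjg3kv5EG/brVODIaD7+WZ67CeAyd71q0chx79sW7tKQ/suJjDi43Az4E
cyCLbWRIw9+EW3qPCuCQRvNqhRw8RficvubmaEqbX6MDn+fh/ESUMyjLwDn/T2jWmVQ9nZDEh9Lb5F7SudMDgc7X9Ii1CCX0wOli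
e9Buw0wXBlzGm+NU+UclB4yK0Okp/49ynC3drQIbpFvhAPJOxM9RFeuFFHoOvkobMkf4jBkGNZ3GKK6lInKUs6pSItNqbl519o4g
7TLax7ZTJMKii8dJnVBvL4OP6EXGbJtoJHxirVmy1mFDAHC3EiWBQOgpjw7iuzv28StboWeUYo1465oOqcdfASXvMrrPUjlCP1Oa
+0Pp0E/JfOzZHLGgFg/AJTp3XtME37hxu09WfbO6vQyCUVC4Sz6HZsQeaDvmU4IL/uRj7WYxJyJzJXAdaifvU95Orl5kZ7pkuyYL
Kwz9tDXxCdqzLcS1Ye/1Gt6Xk04Klu/P9J0tucZMT/exMGInghIQGVzO9tJvzPBKQ/BdwAiucwmcDZVLbrKteA6iGZ5ZFNoUn9+P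
PhDJ2KfwaTo4MqK6L0jCTwuMm45lrS7kjB9KcGRQI1Zd1yvMD0smZjQ7xzHykt0yubFK98UZal4mzUBODt6nYG/21PpQ4ctLe0az
p52I/wVZEPwSNtLCRQKgBsuaEb3aNaKpmsK0oPTvS0WgBRqP9+0gsFwCp2zXGrcEBMgQIeB8LJXGHJjdWbPZleDwnUl/4EEKwrh0
3PAbcvd3eiATolEVglfLVhYtEgZdb4E8ixYT75RqmEQ8gMfHI7SP76HJypn0FBUAZFODPNtpsmtAu8lbtESKAUdAbT/+L7MAJepq
PRyK3xzyp7gnYVHBEqEwlmFrKyc93621TEusKoEilex3nowG7Vhz3DRTE4vAMzyFflgMTbK+TxVDGHjy/GQ7IETfBnxpeHUdzS2u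
01hajZfRt+P3xCM84v5pPglEbUgjdIKxoaian1LXxENzYf47epJKOo3Fy+jHNyP3aK1kD5boTJDbotrJHfAidDFc3zPGlTofGGIz
Qh2oBdMIcUFeIzhJVvDXVXUOi+NqUYt6E6GNG9WcCWpcRuGqKsj0OjVEtuSQVFXYGV55Jpe1wsm7vJPWsXEjIOATUqj8hf9DvH2B
KKXp7BW1ekdZmSHeRIf5Q3j8Twj73QuX87dz+Z7alh/30OVH5byt23JGz39crT+nliqSNpQRqWV4gbKXi9sNMt9F6gmppf+WRJe8
PxAklIXzMqI6M8eGIY/W5vSdrjf4v7m1wiHo5l61yEW87WvG0K8ANqFKfhaOMes09QdwalC40LV0sr2d4SZiFfeQtDILSTXo1RM9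
Ob+YdKHq3wOrM4yLVmtde6t2Kfahk13X3H8YzrQ7ldYF3i6qmdjqrgTV13VdHt/Igv8uUghqeJ3IxBNivLaRQoFThEIp3O4RVYlD
SapdKqxFcg1Rln4TIbvAuWT+QO5UTgaH7qzpsjkdIzDDaQZF1LIZF7osBYxl5089yqxDg/SdtSofuEhois4liibv8Z1edLg3C16M
CKQzU6/s2UXV7MDrGJBcR7tVjxpU+LsXDPGxDMblqF9UVFbq3KBUeVWb8FrbXGm2bBmomfA6Pqf/ZZybA4auzDO9rqyj7xYQEVB3
nYzg2z1820hqwpoTgqjeSTK+hFJsMlB9T/VhpVs7Yh3Cntki021OIpxIuqd8RWNWx2MuODKR+qpCUqiBzQ9Ig033NX53GgDUm0P/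
HyOMLYF0UitvbARW2BrVvdbUvuPAbQi+2/89B73JVmoh7FAf5J9I47/TfMp1JmgD6GF2+2bSvNwHYqjWKkJGZRq1QtB9SMI9FuyQ
ReHEgrXegWYmYPCpfL09wbyC8ggbWM+DgeFa1hId+/hjDsCWVDIqbu7qSEwYBZS0fnpkDo0+niLYOsgR6nT0kfcSSHzm3QXNKNOR
i8b68aBjyrmz7eCzUhN+E+CEg7lEFdZT9EvoL3gi7XKAKnSug4krjcDltiCB3MuIAyz6QnFn9VqKTj8NqSF/AR8GVU4rucaNdeWx
QE9zxH4pMOW5PblQ1Pvob9C7Rq8C6PQho/rg6uyPRbBtdlEbWCJO975usXjc/16JXlPdO1p1I6Mn1G6vMfP/YDnN7buQpN2n+s8B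
1qeU16XSqPEx5soXVOokMOnqdFN6oLDrYopTkZKI77ThSewiYMl9mB9AY8AZ8Laa+WVpX1d+Sm7iCMb3LABSKLAgjHOpT3dZkXHz
VzMePdkuhKRo0C3RzZDEQfKAe5KTC7+QQQSLcdx4uknvXeY7NlCMVOf63ZwxnZzgoKkCd6yyN+4pRGZ3OOVqSnbfq1EtH/40lXCa
mMwbY6ynr4ZZFFq2EHGTlpW9L2F1Jhrl9Gj4Dg7DgB50YOTNosKUto4dPN6nRjxPXtELOCIg/Tets2UGh5MdfWPahcQNZUN1Y0sQ
7ZydZRkEZCpYv9hphAdDTP/onL5ns8yRgFy5UfMKxjZQvyjIBRmzQ1aPenUFGA3zNwgSzZ+yPBeEBLW9nzhl/xOC7gVTF1HQ0ArB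
dfUTXIbwlSO9JBim7yhCjh3GxJbycLSRC3IoDtw0VLZfpxqN3L2yswoVzTiiQUyk6JWeWP/gXDnui8b8uTZoAECuNYI87r6oXI3X
BGwpCW//vc5ND+YqQkEkoC11iWhPfsftxS7d7vBi2ZDJMZ+GqB7g16YGrfp7YbXz3yx6DrWTwnq9FAn053kO0Fl4CbhgQ5duCp4P
GHUc3Or24/iYwYZCHuX+/wMw03rIjDVQZawC0OOc9aefo2dC7dIv+vqTc/aGT68x4soXKMn8bjHoskhwaSTI/IRVZdt083GrieF5
ZA6DVOOulWtI2thSeRsBFvcLOTSXS2nfyg8nQ6EiZ82O1e7/zIOt3Bq4RuQp33C+orxil5pEDWvTuKu1LjoWStzNLkXLA/WuwiFi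
xzhdqA+QWs9MkgMsyGIE0+zcfT+lDGpDfaxCXKsMNPNN5e2hnMdxrnIoG+3Kc45kOILnSc0vrToQC4DbQ51l9ueiOJiw+B5YMPHe
agj6phlQjgkHy8zTo4ByP6GAUCewFYVrV+ANpHPv7cDpbPxBePev0p1WErIkjWPYmhWOlRpOlW6FU8IqtaWlCxgz6ILhY/TI3R6B
NbREzqU3ux1qn+SbJICR546/yXHwzfzwZI7Qjp4/EwCabAqJ7J/Hihc/ufFdzYTdPTOk7XuoIwCZeTIyPc2CVkZXDt0W6YL3mHFU
Cs7mVkM+pPvR+HivocwWx+EF8IiC8Xz2/RaVpSFG1T7ensoJ0pLz68FkphDpoKJzBqvJ69ZbXI5jW187CpbYlVuQTIAE7i/G3B21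
e5Hy5k4wZilvk2w/hQ16M5G0Ws6zNQ/qqqEex3d4eteGjAlhewyX9shNjtT8Unrg+wkSVQKHrSti7nGJxBRO5zb/94T7ZMhg8ZB+
uEbZ+RulLhyrUMkoQLxRNf6u/A6QOFm4E4SInVue/QrOVzvi1T4wtTGJi8NiT6MLrnO5AKElE1vEUje+ONBRoV1AD1a5D1oxqxV0
s5ICbGhk1IvSOvAwHKCAqabXSq79GT3R37jiGLq7zlW+kV9q6cs01wlKYwT+ZTz5GZYFyul4FUM+APeXbQBQsBQMIkzVGxnPAlu7
ElwQ8CIgLP+PZ8Lt15rTLrzFzu7lp6rIdSdTRKt7MhxhPqIGgAlSHMkaBwcbbNnDmaap1yLmq8QRN5NoefJKC12SXSFGoBs7p6AL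
Tsa+WCBIDr0xhEX3ACG2qWellxexYzUJs66FlplDUrimRhKjb77VsrbGTgKZz3u6828nWCFbx2nIDm0MijEnOzDhSeZQS21dj5gL
96sVbCLQxUFWbGUKiZgIJhlueXgDeRsRGAIBCnoamnmgEydYs0DpwipMl5MK7Y7ZbXsHWl7tYUwLAzF57N8/cGKX1a2A3SRHirqf
GdfImIzUiEvWP2qDZXRfAuPT0/jhfuCoZLImXaRDgmbSSwDVtM4VrQYUb5D+BmJit36PauGM28uBE7ga7B3Z/88+vNRgAFmPva1O
Oq/1m8nCnKqvYCvwR3wi4VbZIX4NplufVY0vItkgPNK62p6C4CKGdNUJa5NAbzXU9RD8f23mFBplOLLYhTOHKexf6eWMsMgxU898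
QVo7SW5cuoJBcUi1Cz/0rGwO7J7sVoiZ3RIM/YhQhGJVW6hpF/3D4s754f0v3xwzmZk9kQvFtmBhNvXwxqFIE6V4cnHAwKv2uFxO
5O2oRiH23P/hkcR0+2kNGGGhwTEtt5/YkDhhSgxtxlUjiJHaCL9S0Rzmu3IaCqlASpPv8lr68I45ycbcWMmqlIgMXRWRj0RERvnb
ZpnuSKeIvzoT6WoxcPUuscWQLqd3RWDlwk3pAuwxcZwxUTTBungQh4mnp4ZGrt7ahwRw33J/bmo6twJHNPugsyOgk29Wqkxh5EMF
nZtqdtpPiuva2yjudHdEv1QaYUWRcZd5qtfbN4Uq0d+33qE+mneESJipdApQ+xtPbGJALMnuNx70JmJT9qrVLMLC++0+xT1fFfev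
BthL9doOINqfYEXGwzzX6ZmFPtLZT1EVweo/6FrxxvBQ+Ujp0VrGv2xX6+uzFuyXCX2AXPMjAlHwpp64lw5keKsHt4iHsNv/MANc
kMf3OqCywYaC4X9sw6mUtrpFKAyuXAzffXrQhEr1dSFVDCnBCJ99+9sKQhojy4P6dUO7/hDFsCnVWOEZn1V92o2L9BA4U7bvIgBI
f34yy/2MkDrClUJUUzTXxPGCfU0k5bM1XYOXrERDVhYFrEbXRe8kRhIYLDp4dLRyXZ8bhCFiGsbVlwsKO44HY1nNHPVi4DTDE+mZ
VmFzT8GPORbbKKbvkSZX4G3aVE5YAzCFaDxiSCnppKI5Ue1I1NtwspDsPlo+pO7VPn5XTt47w8pR76XivA5dhUmQ2zbtlrTRF9Hd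
K9Dxndu9RKIaEwC5ncBC2Fn993Fpddf+TMiahw3SFrY/QlUYf5/dG/GtPiIgFaW9Kmqpat2tUK9qUQ78wAynVpeBzcM6HKJpfpV4
RdAisTbi5bpUxm93Ilz6bik0LzJx484ysRXepXFCv1rwYwQB3zXVPUdU5HGZdYC+4x1O3azfqKqq9TdeQRU9pMEhf2p9hDaMyhPS
Q36qGDqkIHzjBA8JicDR6+Hzs1knlhip+hMynxc0Muquu5cGsD0w8W/X/PgJT/GWs2C3C0hJ5LQQLX72Gl1iiIi1XFe0vUlF2748
GVAp9s40SrGoOFyCqgy6RhZo4fi2XV3/LBP1DewjZWwDaNA/LG+UAwHlDumYBbUdkDhcL8JUMfNQTb9Cb0cv0MxhgfYFC8kHPa5K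
H5/wafo+VeQjFtFbw7seFo/UZTVNcd+hdhN5UQQo+9jc0YKX6uS6vnzWGQKLcndr/7cEmMMjxO3d4x/jAnniJMs68+6w58Msg9ko
1c2IxwaWiZnCDTVjhW8oMYiKY7koGsRmVnvj2gWbqjyuuC8Hri/F1Bb2lhZGzIX5WG3rmWr5XClqrzgsZXnl40HDg0FqzS+cdP2e
EhHslNtKy2XPKbS8qDiUzcKh6vgthndUEbfGmh6BwdUDrq5UGxqiWeSY3xL9B0DfkLiVERAO3SukM6d40YxjAWU6NnjutFd6Y/fA
iqiTfvoCjB5fQBA7qF/O4EZNL8++BicF06R8uMAuA0Koa436/C1C4SLUFdvUrjKrtQqqYnzlL4Lm/iwP9uPG1NQqIsyVTXQ32ESe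
aqtNljyX7RRO8ZaVXIsZH/fGc2KRcnSsXVFQI5VYIZMnc18IMVI7C8EP+SFTz14wm+CLTAFgNhS+sY9PyrwcLoZ0e7f6zzzlFMPE
Qe+6uXfm5pMjuVROoho4s0glxFIhJD6qCu8mAy/oAASorYOGCp4bOQMksWeRCaZryQ1hAsLJsOH5aokUXJkmaE2z/6cIKUxt759s
IiuJ4y/E+QCZdXmkCJ8qI+zawC7GuLN7Ypp/72l2Xht2aYFkZcLai38TaHBypekAishF42IFjjDwmCM9R0Ryd22B427zX1uQiZWB
8iByonObBg7aokv41K+94gQ3INlHv5u3fq8/wyjAP1t8fzntD7BB1XBc3vo1uQFgqFwwaa78/MWlvF0tTvR8KOV3EhKxRLyv5mmD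
X8RKDlsJCYJgcMXqrwbt9kn74qUqA0uezG9JUAH/WsQ3MY3jzkXT8MfD/qGtpGqqZszKdzPESN2YLYX2OZxXgayFl1AE3hCbl2XR
8inYq6AxD4H9CJg7ZQQo9kQWAbNMrA78cTdknw/tqH8Tm6e9Z0W4oZ6YH9ncCn1SSJgBBbyUZ6yOAQgUPWgxcSfg+v5KoVmYBQGl
ZWIuyqs2sLzRcpP4Mr+m0ybwka14H05uMX2sxhKmdpn9VzP5ckwPT6R1d7Fz7R6RnRS0tz2O04pPBgTar2v+xX5S69Wn0YFgP4Qg
iQTPCjqu+pJ+PMDWruXda7XBRhwKl2SpQNw/YCbztW2s0E2lO4n0goqvkBFMmmTgyLfkmMp/7fv2g+0I8AeGo7iDDRh3veVU469V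
lbikbrWEmlUGHixWUAg9t0Y4MEOkmJRIcrhQGmGpeoQmRffmadBKtpQZyz79tfNVJViE0/RkBtWDgnmXEkrwARYU+0kX4sQ6m7EQ
puSbF7ReeLlrpD/iWe9UtxgP+irAgLvIcDUawnPnU3wZBTC8XKSP9Q9zXq3ROnEHbpory0wqj3m1NEh9cCYRXvOPJytBlekQxhnY
JyUUwqNlDgTeWZ/5Ro64Tb8MxTQpox2gV0w0W5KeWcRfJfSmBng8/+zoVDOa2/64zEXcCCZEwbEQ0l7vsrS55ihVNkRdmjhoh8za
3TVmrMSa/lcZime8G7YUYnTcpTuA1fAcPTFYj2qKNPlC+dNonhpxfHYDCXe8ldH1WtrH3m9u0o9ATwPbcg9OeAKtvq29ZaTv19Ak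
5ENZXjNIs/NKAXmrMZLBUq92fRYRYE/I7TCmc6uATAbIIo1puNIa3b7aw/QLX9iZ5EmRgrflBPVIHAZH+hRMcPH6OMV6ymLm+eCk
KA8+GMFsX0YxJg5yjysGGdZ7XqZA3Af6FtdLKVLnP5gENFuWk7Io0SnoiWjrgtU1LAb87LFv3Lz4wYOHRReHhD64/ftd2vmveusy
lmVs5TDeULznvaIZATQoHanZT4AgW+NcQ2EYvWBr1FpyLCWsMcN+sTctElF2dG7tjmP0PZrBlBLTldt80jinrRK1S9wNdrp8Fcnp
cwRfgGquS8sU40/JMg5YtarY0ED2D/utIxqkXbsOSMhYNWCcb6VPNwOBIylKzfSBG6jG8cg9qVbsQmus92Yp3y+MV8EVPMUU+vQt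
LnHuY7FIH8SOZMAA16CWJUbc297pSWpQ743ZUt6fIzmGt+Tt8uXbAugZfMDvNoHiS/G55vQpeUzVjeaHwaRSEE8AfrmGNyt4j7pE
T1I4wFEI0hR+RtJj2fQ/XSsbFjCdsd8fK2l2E/Jp9OcaUpJt2HVT7O3oyOko/Hm8UZBpxHpmR0NLH05W8oTgsezQM6hzC75gkj1/
RXnAkxPzVstUnEqJCDOJx9cBfryyT/2HCrGhlFjlfIHkMc5uJM3oCLGuJWMNWhJ6GfxZ9hgHBs4+Og8zgHtVqYmoIEDfNHxrP/5d
zlX2VxE2ZjoMi5kWvVBwwr5bKBBZcimLa3hA6T1X/N/viC45gub235hWBP1ltNKF7lbt6gKuSkRlk8lXitK3HpG7RN0sReIJyr/z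
XChc0rSMOvMJQIZ6rhMnWjR2sEZNU9CLui/Ye4BkDXIODfYc7Z7p4em3MboxRRwO2rq1S5VCxaAQnTH+Q5KiTTD5y7Z+MMSfeZ19
UccDdo3y6zCPrsdgRnCnXZYl1xWkg/OExsMIRy0TsqBIaXLZoztNBc1qT+unzLcM+S7dvlltfv7jGKjhRv/2EYfIPoIHyHBqWhDL
gZxcJ4wsmMUdc/HD0fnhNVNf21eZGZlk4/bg4XFcIRgOpfdb2m+E08A/NiCkIjkCMNuI25o1eYe1ZK8uf/EQx77VlX6d9Bdtshrf
lctbdxC/knIFfpc5t9RparVv9Q+QKYp8AEYRzPW8OCOq1qzeC4IB9BVYjfF3etnISV9kEWgUnXyVnzpGQyUz8AUQWZdBH+GRmcAn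
52rykX2JOlcWp7m1gFKp8EpZkrTncaYPgOuBNmWX6V1VuiM+Y+X6JoveKdNlFClu+wuAA7lF8YJbuQleuxw3KGP0EWFj9/oURiEN
u8q/L6I0gdeEBA5ylgGakx81O9qdMJT/BOxT8iUDO6mRm+MQ56fZmjRsh8yDQD6hkes6QGT/HudB6+RHjG9BCY/1zVkZLd7Dlys0
/UbTaBxnrjEgw41mJmWYD6LcSq0WVNOuC2pdfK576RsLIOO40ZnI7BpcdgRIQggvZ9ynMTrNDLb5iljxgOyBN5EPS3qLTs1sJTs5
Gxm1u2daZd45HVC/PGDYM9RNaapBY7fGf4IGJh8v7Hw3185L6xqV4ku3Xbqi7PnlQsEyJCPsbu+69ECEkCvawqolcm0WmR3hbuaM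
20OOEVm1y1eC/7ZfKeIx+zS7IThS1sHCt/2aN/dXVJ209BJzPydc/yPkl8q8fYACVdvfV/YLJtWo/m+mRh62I3Sbjg17jb9NNHq3
vOudMfxtWV6xP/5WM1ebv5pcQbQum8LQcVUcdI9HmsvMt4kmWCxiTTt+073/+ehGwSRHJqW3BO9QPamNlGzjv8VWG1lz2kpWHfQa
c3cGaqz+MtyUJ4715pg8Jse0VMJSA4VgcXajzCItv9rCFjMgbZ04jbhtC32tzs0XYLPsPh3JksjKmMw7mUGkoZh73NEfK/gRzt8J
yROOWXpAdW+sFkH5fZU60nxWRa4r+F+APkZb+nPoFoSm//CdlDzowcTgtZe1Lt8SUwEIUux10Z2dkD9uAWbhADg/eztd12Z85Ny7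
H9I4tFrfGm+lq1P3LFwXZ+sEijZou1s09GFsk6KX16MinoNWRdKcqDLBcL2jW2kzB8wg4G3hXoz3hDJAY9zTeR+gjpK3gAZyb12O
28w5IO9pUAPwl3f309xRdFon8vpdkPmSe3lT/tqpDW69nLusJeOooWteWOnGJajktubVCA2yr4ZCM3SQhxQq5vxf/oCRkePeLqy2
7H4JhR17TIW4yZ6Cst09XD6C4JKOQCQ3mHWb8Exb3ydLNc9Ey6EOAdTPZGVUMUdRXALn+xGO0nkjy0i2T3ZgWhnHpH5GhIX05/bO
FgFqtMX3NikbXsIcO5YTog2ByUePB63e/sLt08Oohyj5lEahusooeDFBVR2JDEieJDUfEcvvyNJ7f97La8OHCdrrlZv2n47gnDg0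
CZw4fuB/s/JR/5em+U869Wyu8v0uefZoNTW5ehePTSeIb/fZNm6UxqG5aik+l75ZGymVlvGtPczUmbRBuTRv+FBHfma7lSJ5CXUX
YeEM8HM4Swy8W4oyMsNUm9cueUwUGvV7vAUocR5s1v1cmjYa1tobc15jBwXeb3bXUpND1JUkqSPZualdZaLx2EZo1rpytdW5NDiU
l7ynKDjpHKZ3kNoDL/KJQD+Klz1JffKcDfb/WJ2irI5tSXlidsWyouJhg2UeWpIJp2GDN9//Xor9u+I3qE/tSnfyVbO50MCRWS9m
AahwdNx25aW29nc4In8Fgcdx3nZlwTnRGJSzLH37cY1YnWZgvfdonKMhc4N/h66TqVSCutzCjEn3HZvJds7QFHf/rwm446AdaE7T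
v4LR8R3nVK6UKTH7Two5uaxfEIqAOMuOoUO1ZqtZdf8PZy/ejHRuD34cIxi5zGmr9yTXJzUyVijVU0uo2BVh7BUC2YMTir00bSOT
GuutVYQUKjjMfd9+u2jfMYB8ktsfnhRpjjdCb+Tc+dmHGt4v+T+OG2002ZkjlEamyvUrG/MHNksZrRzBW7MTz8mI7/PjGRf0AoY8
3gqITM31FbMfispU0BQpvB2DawLugOs9VBBmvAY9K1RmlC8WQVuYZ40pbqHIaYxdbaWx9XVNrJNhCisZoy2C75+CqpGXeZ77FiKt
oUDS6Agl3MW841XOHjdGfZLn4k235CkOc+Iw9XHOEEBpuoHcI3axbFNP5ctWKzX8g7xaJ/9hsbfjZVIDNxu8+5vIhDv9+0ai5/xH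
YJ50vmjKnSPYrXI6x1sSymNkjlcXvQBuJrD7FF67SW5tXPwn4/ORTyw7kLL2vYpQpoUbQz0/sDokm19VNVERG622ep9BURjAipS6
eSr6qrvuMeobNSWO+4WL1zwoX8AoeHNgnMDU/EpX8+fLTC2pmmIkp8zVwGkHkXlibN+LIDJbQvlaFNJ1/PtRJgt0tSYVg1QBd1U4
fQGZAQI/SQyEHJW6s29ia7KHpVtYq7Nw6Ak3XQmcfnC48Id9fI4u3mHkxtl0HTgXXKZhfl+7JOxjIWn+myr4MW8DoRXgd6EZhcfM
nNbij6vmqARQA1QsGnJ/ynF0+pZUytSNKGAvsEKvG1rufPqviUs4KKsTDhgtE8H8jecHQ6tgCwywHyrn1A+7hQ5I6fVid2icqdhY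
RFjHLwEFONcK4tr8wxDZ5E9m/DdQAUEQlGZ/0G5QUWNXW1I6xnEB5A0i59NZk2k8qqOw/jVOKsmqMJ8il9BPga84IEe6F/bJx0HT
t4Ukr9WmvK+eCyUiUUlpLIpiAmGI06IJkZ6Pv/zH5D3+sGM49jISd3aORkhnOPGETcQ936+iFgHDm9zudfzDl0+1V6sXSCHLyMsL
/qoTVDHykyIVqi+PTDGxbyNz9eHh03s40X4wHHLlOLwOe05BBPbQbwiO2S/uEyXk1I7yu3cQK2U3len8hrBs/NQqNB76+CQgVnrS
ayYchg2TB7UuDe3KQB+0NuqFBuFdJAs18nhFPUeVNIrgTaLZ7y9m/0SyxJEIveKJ11uLG172PNywkPnJ+hD9KFpwrZI4nct3NU+E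
vVL28JSdwGV9e2yj2cueFS/oPnpzdUx7SaU1wkKIokKuJmLy5ah/mxbK6Vx6/WpiUAhX+6Xxzqe73Fba1GJoD25Qibb84e9+5vmB
Lo/rRAPRPNRrOofWPjBSVAYqE1DhWj7pjTS+3RgzTLqtIPyJ9U9CUk3B1+PTmxk0NPpD7wJVZjb5Bfi1BtVVaeSAgHnIAxmqWX0M
XdOnBGG00+MIAEDv7UnrRIVDzcDfxbzOtS8g2oDvjQWhpWG80hLIl8rze3s2hXLvkZcZVWYcj6uuTRw4hlJsXk5INIWu+E9ROm17
IA20RlwyFmdyncQ8wbh5d6ktYCouf2IBwB+hEVsZTKPCkB5qDyQfGc8RXgzy4SLuf8NGeX6rbzsW9aAQV2bqRjoKIoRRuXs/5ABY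
WANrN8EX0DEgVJncrN8cOFinamab7EWfpriAhACIi7D3mu/S+Ts8SMJvwOzOKkyFoKECQFPXvV1Ql0pvlbA/0w/XMJd6Kugo6QA+
OlZD+EX5xrfc5msqrBbpw3p4BbzAuSPvH5Kxmq/CUc2kM57TdEXQNSzdS1VQwx5blfKZ7QZMtFsrnPVRzqfUGF4c+cYvcAgMuPcN
gfh2YLnAZsys/q7SA9yWknmsroD1pAc34IRMAXHa5bza/1yysdD0VFJ/ZJ3kGI7AeB1Nj5jIU+T/3rGaH4B6p2VIe6KBWXJaRGao
fJJjDB9mR8Mme9CNG1GqiZrCrpVSDdJ434EgQkyb1v3cx4/5O8wzG9SNqBBcxxzhDDom6MnO3vay3Ps3ZmFvEwdVtCmoh4iu1CNX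
FiaoAgWdAhPsrdV6LwhgjZoEj/vuoevaVM7WGQfgdVomlbeGLMiB5jf/X4HR1pa8ImMlwCXTPsfWoctP535jJUcdrj/gtZEgiz+J
ZryIsm3hk3tU3kjp5QSeVAHunexhhX2WBUjI9HTuvpQBZ0FvEogeB/OyNbqqLteTHti8nUccNuJPdqXdNRaUFygh9uL5oqROKRfU
8+wMMG/O+5+/PQo5X478t9ho/ECHG94nQLiNPr3uUmUsLCC3ENu9wQxZGz8KzbQOeh711IPF8TPelzoJRX0l5sVc9TlQduaHvWEU
YvCAdgnG1S/lsMre2RdSS5QRIzOjy+ax7atKEy03b15Evtg49kMWGJSikbmvHFxOQIKMcy7ELliWbYjdt/nWtLN0WoQ2OlleoDPT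
V+JiobrEjLthZ7oKVoZ/hdRiE+ZvEDDbre5IzRU5MEDRzV+VNPQ5VIS7RBuD5gtmTRj27o+utN1zFf3yGuloqXVLwVSlwYxDNZJF
UVI9diEs7q0prIFodJyEcE/hUgy9tgnoFDf3FqUp+eaFbozBhtJY8e8uHsu7W2dQegC6ANy1R+EuyCSm49zItSauxVHoE3EXzpzL
IrboTlAdNGgk0Ff2GSu+mbOGq5inMWqTOtcyIzkDB7x68KwsiTsgNyiwKEGHrWNkUdkYx7QiSK3HgNmY+woM6x5cSJb4piWcLxu8
RcZoT5F2IEEotQLAN9lS0qKh1x/zTYJU8dDz+0LTqWhuFDFi4uUCcGvuws20vb4LGj+K3ainCjsNhFlMW6XhELvd2psmg0uC5OQX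
AlLd94Gfq7tTu8v+KvO3OPyY4qB3Ax5i4S2q7ss/9eCQZtUx4/ODmsC+pvpmLkgi9BYb93EUL7PatCVhvT8caGwdVsqfZQLwO2OH
RIU0/1ym0pA11bEF26KWm/gMhXPtUM9FAhiDKmSdVsAst545/AOanckkcq0U7wKKT4okIta+bLArZauq9g1MAnzxD+e7Unou2SkI
PPcsfgem36LdNZ980/egJ3p7Xg9398xXtxE4z1CZ01/fBiztfjlixnLkZx4CJJBUMn2MSXfrviCCEQFj3a2mWJjhpqPX7hMxN8Y/
sF22GR6bjIKA2/WDSZ0Od4UHvXnfQF5MkBQrdvS7sf1X6EeBwFGn7ifw28OnsU805h3kO5fHg5tjYc+c3cjXDKh5fQGuhm9d6N7G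
4MpitYMZ7uLOLHuELcj0hPSxNU5lJ2iAP7TIFk1N/cDRp+Sdw7a2SP4+v6WunkGo/rpW3jyiIvz4AZknCyTj/2hfKpxqOi+4dLCP
+ohnb1j62DmHpyRhEUxobwmrrqt4iu43A7G9ZgKcd+UguH41t6VJH5WjkUVWlmCR06TvQ3zeDXIXM7aa966N8x4aZxehEARPw7G1
ODe9qwBtTzAt4vtCFm5PxmpPyH51A0tJWlPvNDzX7f75L51p7TmboW692t5eJv6CkykfwFhNahY7NvXTWuFQuFu7rW4ecYJCRoUz
8NkSH9tT0hgrAHha3y1xm78q41LaMr8RVMo1EhG3mhDvxiNJ1kfPYk6jOjMx/VWX6HSffsF35NjpqBUo28kWDUDmsKpgrqRpO2hX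
AzzYs6rporOdBCSjHhEcmjFvTXYHqZTeWvvCSItUjIpt5mGI7Doi//gFqWdP2ZGIStdnAVEGeeYgEMH4rPn4HkWxiZhOzO1veuYs
/+PejhPpOTSO9/dsojbx8tPUb/JksGrGacWktahRFs2O1Snqf+BKCN9+AyJIxgOhdteuee2g7diOkViNDExL96vULz6pZx+3pcAm
8u49okiaW/qZTNPsOD3WjEdmZSZGb9pgvktwYIrGcxz3M0HPFIwbTiBwy8MyDiwJ4Cc5s6UZqo//8X7Nt40NtOjLggo2oXNgC8M/
w8jBZzoEwWhYnPFnObdIF2c+jTqA74hxhwftOSfabWiOp8H82JZRMVSNhpHqf8zfEUUaCGPRRtnsuQLgZQghSG9lwfYgzfNotrXR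
a0VhKlExJIHPv6CpvTN8oChG843Sy/3GLpr/Ff4WQO/BZqKWX+O9DM4ou0DF5jAo4pGywVOX7TsuO9runttcwXAwJcP0GUUSyxal
dpvwhLWvMEYR3aSH19vauIibJYWcDETswXV8H5TU6i39jXa2lrIzrS9SgCe5jr5mym7X7obW8wBpZaEKGS1F2IPlX+iqP8s9GZFD
rYXH6XLPM83zECrkfOW6BKjd76pTGsaRJ6TCfauMVOGvhMyqmPBuBKurw8Ta4OonZlIwF1u5+/K96kKB6G9yKb6g+GyqefaOiy9D
yXypy33jDoO5kh6M6kknSghRC9aLtC9pwX0ZgT3sV/La6GacIbkDTBlDETFX5vVvw8Em78tkA+zl2a0vanuDut8H2MzjjUDkVzKc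
WQApWJT2PJchqc+WBOoo/vQd3iDGyR+1MKc375ZLyd2z9Sny7Xe26Tl5vo/nSsDdqqgN3njCZwT+5ZBZokdQ9uT8vB7FBpzJbSKD
HnszaNgmKdO8eajkzGnl4JicT63uyWinMDJLK/IjdPmkn9er4s5mQ3blhB9EZ65nVPGQfshWYdsz8yChR7cDVuBHortwDKrdvidu
rFmfK29Y3MyqVsgCuCGFYxeBtprmxCfasZtICd7PvZ1yfPrGi0qEqWAJB/bJQxWysKdqgsmFLnmnIXzXUTtzUaBMq/FiKV4Hco0c
QOj79art200mv4T1BxJdVhi7ZeemPMUTeENlXBdJvILvpQAGZg0Nawcu7nC1S1ttm9NSEiXPtFxn4OL7xihORi/HNxCZ7efbtwX1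
KRftVcFK6XFHJWSQ0iWERI39k5fj162Osmrmm6jomUVkSip2QvwFLLYb5szNU8Ox1KGqqVUcT3gMTZ2c+D92TotctKnzStuLTsz5
s4ttY1lraTNKZ8itYgz41IppTnU0RSCYP6suGPx2tUPZ82RgI2pV5ToaHamJS711cU7DkWfCkKZ95u4O8uzcAmbrD8cnjcCnWCn4
hlkjksI8JuECOXXHG0laJY+DObDnXiROKKOGD3Chb3H3RoBbxd9Qvn1qhC7PTbtBfaB3W4massQ7IAPadRmYQwUwzlWtCiX0knE1
9Vmq7hXyuXfea6R93dvVsRuBDuzH8xuoUWZMO8xKHESW9a0vdV93LACHiqq/ncZHGJj2G52y0kAhOUQ1/7AFslck+Xbpw8drIKzB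
faNB2TyJvpQCPShZmODFA1pQmAIGQHcGqSdZhUWkP8+geI0CynD66rFyLwxUovJxc1RHl30UDi76XvFaQxAMRd1P1AmY+LfTfVTJ
51mYDa+CJN6z6FoivAXO1hUZZgh8VpSttfgtpme674z4uZqP4DdZDOFgbe3wCmhBsv2+owYpl0d8EZPOaBl+69T42+ctKnRwDoBs
+ZD+tNhjvG12856F5VhN8wGb794fCJ7wBqfXT7mEMWm3ttD5+AZ61I5teuKmklno47UkilNHSguBqwq6xqZefx8kBYiXX/BWy63N
0Y6QHN1zDZlA0g49g38TKmOoLa1VgvrAJq2Egr66ykn9ZMuTrz+DLpU/62B2HlOOwGAExHpVblUqJk+hVJkqEvVLTsQE1Apwejyp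
GYnMCSunpjv9Tma+8TDRf7WbiHi3dt+rZhJwe4a+nSEHhpLTUE3h260+BKV+kHN7RM7FgJecyCnKnUh2u/Ft7CUY8E0O3rZa2XKT
IQeNAuvUTXyLZ0KMIvbkPHDEhWGHIWd2TZUoLNeP3pnEDRtaOELFFSGLPKBHkm3wkirPtUQXAgtIgojiVe4C1zx/XdqtJ2GCSLKW
+3hQv0AM2uhkxgqDUukNUQfCR3XIO4xtS7pPbi6G5Tkb+d4cA2vwgB79YXOxZkCeyIHo9sC3RIRUEA9ERAGUcpuOWuMgNcfys3PX
N6a4IweRXWX1d/67sFRWi5MmykyXC41qdIG1tFXWv38OO5XM38JkN2PmWRTG5ApmWyKocrchyXPAdzVR2hZRrdGS48ioxssuTl36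
nu98BQ107Up5wsm+pnrSmXgpMSNpkbe25sd5d8B2jsK93KrusAfU1ouuNOIwpMpjQhk88wjk4VlF/ibnxmzc0eshFkR9i0Kn/eBb
r0uUZ1H8J2sob3Nu8kN5+serMT3q6MX49fThApeJDV5GS7ImHfZUe433kj9bdvPyKr2HEHRk/V0N1ljdte43ElCcEljaWLksyZf2
I3wBUV2pndAnBz0Oh/w4nLgsN7F4fxyqg6ZA/7BScPMSC4itE/tUlk7s+gI6HQQtTcDTMLlIc13hUNLUiOblTPFN+o9Q8DtXKPKE
a9/U+3FFmfiwGPGznLRoWkKCNBginW6oTTEw9zXnfi/G8T9D7yUUYJNiQTIBAE5JYhVaEgP7PmOtbW4StVw+vZIS48Zbt10VQAna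
jt+vwEGEAOuLVQ1LbRqDUVHjmNik0ZLx5UFJ80cb0+7ODsVkd1WiPsubu2LaYjI+WeaevPyAWSc8+W5BEpfBeKcCjTiJaRn8A1xK
zeZ88YcLXYyQeziQJlMuazkrqgDvy7BUicsgbbsuuT6delohQE6dSkfHyuC7KBwOxue5WtafW1W2s0GUze/boBz50oKMSQSNQiNc
VRcvvYqHIwV1yNkeynNcygzmJ9lmPz/vhgpPEDqN8OBUI3/l+kzOfeNwcquBQJ2kKbCt8rpohZldaioB1h8WWv0mFuGaGTsfmZTt
l7Rrkg15A7Sw51eGPZTExTpma6BAZNcTYvD/cJ19ncasTYfIEuckPixi+OYGJKzKBJ3dO39Wioo/OO6MK2/SjX9E3UDatUQq/eTa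
n9YWb0Z29nNMFz9zOC0jlt948OmCql6qjJ/QmOopXgbmklAw31uS4kr9/++KS/oKAluJ0fxOx0Io1NZxe7nmnJT5cWoXSWb348Ms
Dwjrb6tOvWbcU16YhsGgLQRcqlIOt0QkaNNWk9xjnUnBPyUZqQ00rQIYZdFIV6+WqtYyC4ze+NBE2+id6qrpXdEYk7iUHdjv6Loe
ArR6ifmkz9M9xmmE5GfOySxrt4nQouuJfLIvPjHWLCVgt8lb1twBOBV40ZPrDJWyaRt7KizIYtrDYiDGvmWXoqZvYyFU4bkX6YC3
YP4KlTKATbM5Vv+BFK49L6+3mh4Me4wVE0R+0qBASWZCnGlWFHAz1OZSy4QDGvX5F1827mPKfnbjeOdWIWT4U9jUzxVOrmaTmBOL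
kWjzZ0vxDbu1aDb5EberRL5Xp1cA541aNXbH2Q9yiijt1NGrTk5yAiIJm2mRDGlflGRX8qySp4afGn7mlmpx+eVzZBIui/9H0quW
MEBERu59H4vZKwBsCrh25tLyd11/iTTf2GseAwBbH68bAjTnE2OIv9nKHbholoOyvnSMapX0j09gys5FHH3D/VWeHhNYm2fKntOp
JPBSDd2TFUNDVqf/ENVr2X0U1fNklng46xFI2hdPQ4duyiScsHIR2Qu5bcEtP0wbKhHXqkdLY8tGNT5DFwk3hUn/WtEfYBxReAiK
q7Nf1vlIw+1RwdOdHZzaD+ks/bm9czsxdr+hiBpyL2pjpy/a4GnX38sV6KRT1HqBfrxQbkkZYCVoyXbfeyX+FER9kzNvI4TKlmKI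
AI7fPTo+6yk1YqzBdw/CNZQ3K/FgQcsRCbpp4y9jeNvEa83cagCe4iFjntQ2Xr5R8rHY6Mg+56wWGzGiAi+ODnDlX+Ed1bjHrAFd
KhPR0e5z0EPpU7s0l3bcKpLRZD8Zn4m8hFOYpUM1k/3KY7tCKAZm7U+/VMk8HorW9fjAdL4bfp8Z5orsOQNRTrPMxTT5EPqbn8Ng
/qxuvDPzQ3MynNCwX20hHiVzO2QRHBQVoZ09Q/w7fVgYEckhYYHXoAOWTf4jGA0OMxcj/B6jFLI1eVkwk0oC/avlthFJWRR1XEYq
tDZJGrhne197V5MObfGFAFeDplQ84jzDnyjeav5b1a27A482W1uGwQ5vBAXjsqF6u2JW8xkzj2Ep48LxnsfdYCsgCcTqul/khmE2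
KHyCkQGW45AwJCpY3osk8mlWtquoBZ69mCGipAzDScBdUlw/mHYawKsCz6Lt6W5PIB7Y28UIM9MN8GQjtyLSiSdbsR0gDuCPZNHK
vQ8QCH6sTW/c7TlDZ/DABpqIBKVY5YO/p6S5B9HrxtZP0y8+0DFfeqlXuay02gg8H0/g6EU5FizABh7xXkrEzsAbQo6YxsY5mEI+
FzJOrO+gMQeK0Ow8foJjO/JQ0njIjp2RIEBOXtRKkvDOPO9Y0BLOLZRudwpLynNfSQX7N9arpg857Igm+5gEa+aG9F4jFrYXO2+5
4uji0XOn0wyUlIvWMoPc/VaoBT7UcjhYC99zlGEgwotbzvHs9EMufSAaG3nstxdyHZzD4zTb8RBNFZcyTh1XaRzMXkqznpoIKGOj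
m17jWvx0TXkbRMQEaBRQ4ml9ynPbobm09jdvmhTKMfKfOIEtAeOTgu2AysVxN0OlXZsz/pOWcSERuy8f+xgJUAkW2q6f5/5qmXxB
b4CitCVCJprThaIpvmycRkYn4s1ZK3mI66/JN2FGdjhNSPE+3b3+ribScXYzRuUf0/AjEN+2+gGCUJ8oJYbyXgpbc/G/OByalh5z
k0sDNnYAVjUUhiGGgXQheHcUOOgj2wYzqMcQu4u0AMaT92DJbpU+OxQvnye4aNQhJaCiRyju+nDwAFvrF9SK2uBC/n+ZCcqHHYK1
ZXbUULN4XpM1nmkam1jidNlZUyyiXJT6OMEGG+Bx/8etdG7mg0vw4ka8H1EvIoqG5xQR+RJUhdDib5Grc8G4tvcxNJDg0GZGp3xH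
EYyyIqy5r3s6BEIHGZchMwPpZxeNiMruQoR+IZSY7VXVSlSzC0yA0d+q7nmdQSz94avHTFYiRNHDDT26i1QR4NeRC/abji+1kAUp
fhmA8TdjrhkP1qSl0qMI/yKwfDk7qjwtwI2Imqx/aQEk01UotE3vVbyz2WLoWVCGKUJ91IP1k5Ky96IocafUxHMsPv/28Be9SUoz
+eSDJX9A/vUGDgRc/Ht3Al14ZOGBjc3+DOYNvxKRBrFdLiMyz8jcKpzJp4wLAXZ6b6jL//KxhZi3TFpLcDGUWdZVQpgbQCPfcwK+
uxBxc8owFCKn986WQD65/OXKGIQEJoJSqGGpLJsuIYO5dWuluJJ5U12T45p86wJ/7KpBR5BlAI6ANvlfXUuduPtXg9GOERl7iYaq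
ga4vLUrA+4REV85W6W+0LG69HyWWkATXTzKDIb1ftC/BBLReTfr1hZT/4xsOR7anSzPOpQybrPC3LV84ascSCyB/A07VfdmMvF7R
mbHL+3AI2be0+orpf+T83h6Hm6USf+SXYuIvERxYpZ4C6MWNU0svnD/4pVyQEuaE4aTW+G8Ud4889Mv20v2PnrcIBvZ6ct56X3wO
xwDsxnL4dbb8/HfpY1pv4TNrVNHwuJA6NQlqmn505yLYrwJo0prgoq156J7XPCr0elDjY3nF5vr4hNA45C1PBSCC15iMAqnKHVOx
r0Qz6bvQKfY6cYZ1iVWrTA6t9XrvfCQbNVvlFk0a+FvbRvmT6GwlDbK2YxLEebubh/9mY/vgASH52ljhwivMTi0rF8XLDFLCmJdn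
pkl6mdrZEFieOHOrk9dua7LhF4q8EvU3JNlbLKDYYrdn5MgrNsMwZGGbDpafWylYrtCtW+eQX+SF6GuTkwF+qw4/oHUHYkeJ9pCX
elXE1lgrqmYO4qxYkoBuOleYWR4B4wYJohiADspi8Mpx6pt52jskcIuisCUr/GflGftQcblVPGgjdboGvJKQXRWNA98WJtEj3VaB
O/sEa8QXfk5dohMt8ZVl3qXDBn7RDZfnpdGaKKPTMQymH7uIcpsUzksg94ijtrvOajAynMwGYRniGTE5InrlRfnZifnobRBdEUdI
slh+zkDuRsIg9fZVYuXadwkAoFVkBZbPmvNFS3lRHY+ISr7Bb3ek/OY8+r0smxFZvuzjQJFqzORffgEcXDNk8D/yEHaEXNwI4QiQ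
VDOlt+ghBbEasC16jKCBtyUkrwriSbdiY3CN+vz3Xhs2jbgHX+wTV2MD6p/hhKedl8MDz3GnE8VAxjx1H3/RrJL02Oaz7/ohVNWJ
VARh461usDVGz+s19hTl6qP0Ist0KtfjurZTPx8CYslYCdkPLDCUzMIHmNL0uf5ys5+RscaQtHdzgEjfp2nXgD2o+XEe6GHAb7CW
l8xfDEbK0fcfwt+J1ibRGco9+0z2voVKnolSnNPEx3Cyx+k/GO8NOnB1u7NCYGgrP3s/agyo1Vovi3PgZ5kgj84fTBk1vw8eZzWP
+CPgoY96Ngthu1zF5MH5QpmA/f7j30PEfNg933UubUrifve5E+7nA/0ARoZTN3KLuXa6zEjUbXIeGsqzjO1aUbYTz268LHtD+WIJ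
Nu7npS6fO/a/n6Sw6sKM8kpWLVvKJPUT2TIqKzfRMx9KYdrP4T3CGxfpmSBsCQ+fGWKUfJmLcef+rigr+ENapGfR0j+KIeupps7S
ll9h03ekJ7aYjgFGUrEHZkoZn9/dnUtI+33OdQfLM6Q1mNvTKniIw7Bs9xT7a9A4OBz2P1LMFfE17SrX17IR4IKeGySDFmsJ/uBM
WB3ZVG9/7TLZGqQyzMrVKFcEVY1eg/d3jXp4+/Mtrmj9aYnl4VyXCoB9fbvup3k6jc3/0nQ1ysRX8Myu8//uHWiA2xyQvdOgPZ3V
VuviGGFKCQhiianj2luIjcTMWbbPdajgbpn0rR9jIMjVvQha8L95seIdNR8zaQ23YfE9U2z17YjGqITxoYmnD+HUxa2BPmJ9eEzG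
q/Kkg+wRlWXvsG3s6gZa7Hp/r3XPohOOxQ5GWSn7Xqb8QujKb0cH9sjJs4LADjqbiilCxnYidpJoeyPhr+gfnvUZTOQ4sFAiXWaI
as75wm0ly10/lzV6gglOQ8una3lQB2sYOvYr+qKBqWbq55p7FKQIzQzUqiEHR8+hPZNmZdgXooLCWn11T/e9UBOd3FfIna6FL3Tq
xjBKihWS1KR2JxMik8uqq1wsKEuIh0zPkHP4dFDnGwPCud30P2vLUpRFonfwz+zHvPTLn5IE02GmxXuogeOfYzcyHxcx5WdPxcdj
TM8zg/tj9bQgDJIzZK05KGY6uD37bYhMGmGOi30yqHJ5sZumHjM5DSrObqgbyBuQVXD/mKQXCaTGKA+7fVUfTvYk1NJ62YkVGU2l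
t9vuzN/EAeJhQ46Q3FxjJFfdlpt6bZT2ZTT1CYx3rnAQwB93JhwtuCAE0XOvHvoy6+neGjN5CH4FK6zZyuylizTafvtAtaomNXrr
kzkvttnM1AN79PCIpfNJnwRdsWLZHKSsTXw6r5qT+xi4k8ZEV4l/PqhXj5vcdsiU9w+LApAoanxXqJBePgqN8iui57MW3QPpk0E2
HC6Nf4uQyr6iqV9Zx9cNEEKXLqCMPPWQDPd8ldj1KTl07s8kvHJHCZi3BXqweAHKBL5AkwVQ98m2TdAWiznBKvzGfVheoh7QxkZU
RJwZ7Lq8e5rErBtoauW7NXSyIufEszSww83Q4FzajlOsZ6aEqXkDcO3a9lJcZvSmYnrn3s2lu4imj8de5MvyNwGaztjZeGwwgpzy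
yPvO+rGVMFla1E1896ixW2pzAz1LvOgbgse1W/WDserkGeh4TT4XwDLcQvau5nvXbyeClgjAevjCKaPz+6le4pV14BSA3c6HC8Ac
G+he4Tpz2RWcNgukcHeU50j+1IM34JeXLkNUgnnQGqHROSCSbfrR22xugONmW1oAo/UelkdtcO5JjCZ/pZL0y17Z5TS9KuHbuOES
fdKcVmgzP/d6LA2fKzyjt6fFtrVbzKuUFhIzvEbgVO6tvopCeYGMn9YEPNUd20Psjf+t2CMgBUv8+LaU/XdTFaROmCj+B0aLJID2
RyNAlLSPa4aZoJe1uB+bpLMMTHfSMzyBHyQN0shIo72tBJXFC7wfRbF4wJhoPGIP/uN9jT9Hnj5B48wqCZInN/98sFbNyqfaFeAU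
E5RGhy6pfPhiryXgE5cLx/QL8grbaJlt5aRq4JkCyj6edH367rVnuIVv23LnrvHqzUU6fELrYgmg57HdRzR3HI7Csc6uqcG/aFj+
6163zlZIWSgFZDQkw0mSgNVl2J5yzukK/eZo7rzcARoRbNLAQUnc77xi4WfcOjjsf/EjG5JnOt033P4TEzupvEAJeFm1aaPOz63k
Va1X7irfPTP0rq7QHxjcCgsAGAuEZ+DQaGpsYVCvOYs95dqQY/xlDxYYW42FgR1fKPorkAfOfVzK+PNaJWxLLYnHps6iZlnnaD+Q
ps2hvI+sfG7bpNzNqJBdvbDJCQ8zfED+7QPNpMPYCf+iSJIem0oTzJ9Pgd6c0KTHGHUjyULk2mt5+WkajlPwJLOa1vq0P+PQKruE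
K6b0tQNPI9tQ+8Uw04+f3N6ytk/6xisnKzwl7d/0l2iX7FdmcgPApfc6I32gXqFTBUI5PLH5nYMV67T7lalBuHXb7U+/CQSJR4mb
RB2Jvj91rTKkOtlMRxT1FwgTEoG91KFY1dT5NVaiASWPZ9gQ1qWIyqBeNYadQNEUWT+7F5YAPj97bNUSXTK1+TXaDy2XXW4gO8Mz
7+0zJ2Wfoixfrd2QsKaja7GjNPUfVBvNaTVdcdsBIKzscLZcxtlXctspwFe6EtuosVhsFfVcX/QaomZ2Qtr+mCmlGu66uzondSiw
IqN79p1rvlAmCs/Tzzm2844+Xvn3PM6ScP2IvMqchiOn7pPnQPL27qu57IcbYxvOJwOeaXlO4liTFJYjC3Q96+ID+iuZN3MedS/O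
YYYkeMWwLAjyglNP4qiS1TQDkeD63mFNnh62kbWw+MPsxlMN26E1zpZXtn603oF/EDbW0pe8kxU/v5p3X1of3M9wavHFokBrozUN
S2JnnOx8x5WArSKXtM6zU5Lpoum2dy+BEFaHxs6Y4z2EmxEWxp04+Vy1PK7EJ4ioCquYnsPEhFhnar89cfmpn/Ak/STB16p+1igO
cjTK07KsI3GQ3A0RNcgGT+UBsJmqBSkzvawv46zPq7urmlaaVlyML1ZSglhHU6Sm9aqIFvyAZ7ovmQVhzii/+xNvUC3oabTebf+I
J+gybWuZZ/Z2xtNvtVsW2s7DWph465GbqCSl3FlSVimkhs/YX3LOo0WCKw4CUK32e71Zho635nLiJ/SDjb+oOgXV8qF7iG+EGww/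
siNk5UbOXm2VqPPXX7OZKaIGmY8gD4HsmCw3XtRx4TaClKvb+H/2o2b0AP4QvIG3rsCTDiE9vXEMD7UJwucG3Fu4zC0+/JPHg18C
ABrljD8HeaFeZyKsWyxh2nZzvBu58eo6uF9TNFwjORUNfSlz+wnXsMmptJa3MePvtVsLeFrJsJ39511bS5hGyXln9y4UvCIHO14A
wMGmBiqPKuCKYOUXrUzzijYGIFc061bgHoG/8Y9TQtvCkij/dBuQiiXj+9KDPareFHFqyrugFElIHZstQ2OFmDJMG+PdeFzy5weo
5fjY6XVFrKZZMH6I5LCyyixGAFzhVmw+tRS8COtnmvrFdPfMh0F9raVxBGVHhUY5UKzPV+sPhBMzSHBjSjt3dnCuQI6gR5wpdKpw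
2netzW1XDQHUDY1gTVjqmXhWmU2JWOPGPhHJQHc7jBcUmGf/s+PZhNzTZk8BlbIvQW0ECBl+s8PCBMUtKF9Bk5zRzVTpTYmzJV+n
NatNHrZL3egPRofShUxR0C/t3elkupmHmSiTAN33iA7wh/wPwqtFdvqKJM5lMYDSFLwTyY8nFYT5kITZpPJeWyGmJzDUzFL7jyfn
aEwkS0+MT5ZRra9rlloflF7Pb7AJGVgWukpJE4XVHDb0OtNtaKyMFyzsj7dWvb17yoaqmYtBW2hQtWHH1l8Odcj/DfDzKqa2K2rF
MSj7V4y1bv4qAG2CNbjOyQizhcZREh/9UOQfT/SwAXtPCIKySm1dD2vH5bwcY/ugVe+l8vtG5CNEx4d1/7lKJRdgdjdUvg+aSUT2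
sHoBYQvURT4YT3MFzqaZiyaWpK+rLpo01L2zOoAxOvy3w9r+tbHQ86lF23+0aszHiGV4WIG1X3RKPG/czEqFAbU79RddXXsEdavW
//bFwIWPKE6e0HFGxsOl406iRUmev9G4VFttFhkE2JfTWaCFA+DQ8mV6LG/x2eQyco60pqxVngsji1gCxrAwbi5OoB9mEWgHUEkA
Afv48Io5t3277zjfe1Rxj9XXT03LwBAxGVNouhiKdIIU9tkSxDOMpS/yXP/HSqHkLkBjOCMtw0mAV5SOAG6zCwMOnF0VAA+MOngA
ANIqxhuE80mznRTVsBPXHB/uZW+AaDgBpgDQ3mQLekoAjP/WvPSOcfh43oeNo5zvXnsAM0zegnBE/u36F0+QeL5tFZb9iru27gsW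
sq1H+DStyt/YOE6mOnTQtHjh7tg06s+27HEzxOTnW3l7eeBe5gCj5XdOlep8Q3bCzrh/YQAC+SjVLVQGCo/wOlBSuxLKrnLSz/y5
n9y8MGjZ2Bs8soAUaOXhwFNVptgHUNe5IM9AkKrOOvlXpuxoDby0gXvGIhfwW6kKVeIHdSXNMzNWoR/ZeonGayOelYNUt/HotrDq
ID/e2GjLuq8pnzo9KPQQxbw84ySGvibroV88MJVQnDn2SoinX7vyoOzBMwSeL/UEf1vOlYf7b5BuqwmHjpWcMIshOXDbFCRs5VZg
RhMlEiQQaUFSXSsv6+xxf4BiLE+i4ddFa1nfZAY5eR8gVDFSuylqFx7Q6n/2J/A90vfOnCA0BLHoa4aUuJY1SqzjuxxsKE+U/OYP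
hbh5Oc3iGIev6+VzwRr83dQg++GMLGvqlpZ68dZfNaqIwejI6Y64Q6iUNsJdhnjCe85jzASaTGNGMHYd2BXzzq3nnNkZg/7PGKYC
OTNJ3Setyyx7H3lw44Jysq3P38bVNcSlkpz32xyYCEHJs8IzcsYYNY3Mi1KmTzwWogYkaqx1msSGDb7qGiD3yqwPFfkgQun+Lqq4
pa58QohPaG7LPoNgl4py6kMoCNNKJWu0TGZ95b90ZfVj7Hz42BkjzgkZR8ZV2GDSxcK417CoOItCN9IKFW4Ym7uaMofS2yj6bvYi
9YgU5YYFTbvCw5aHBtIH3k9PlrcZNx35rpjfuAj0l3zo/v8V+Qp8oqDT0sKU6B0iCCNnjDvNkccbdgWIRSm5mI3IkkfD8gtu5MPc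
jSPSEyumgdcJ12FUB9syiMb+3ow+v19nh14OI4yFhYwzJFMS+WVr7bk8EgUz2g4wiBTJZrx0MB95lpf9Wb/ntM3yvKNUfGBG9gCK
LSuWp0oUsSLNU5sJPc8EZ5tQ8bbjTVflp4RP8elO1OFdQ/fXAl+ewAzYqsmcNYPlifU4nZhO3ojkmuJP1PGaPwOgz9aPFeFrwFmU
/RHbg2g5ZDO2E88006BpPqTvwnBtk5VqNU03+TCP2kb4S1+l9/KRGnJFRLDddwPR8CCtDwUvEdiuPu2Tyn2gPFXVgSaPlBhStyi2
MVMNM52gTiHUEcFfKh3+eePzoqDHyuKVmHgbRie9vg/RK8dBMmywoF48UKDwD92u5nVnqEkEa9Rb4sO2sQqaCLNjQQCPdqtk7Fdf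
cgm9WtAKwhEghGERcUXU6HX4O9QUTeRm8r19fOcd5kwWa8dUa3xHrGWkxkkcwAs83jKQDblDFelNM6G/nV8G87OUVzBQqaXNiBvO
JpGGLmyK18bJTemRAbmPRXe4rmqkg63C3XykOygIiPpat3Ti6SPIyx7JfukLHEYCBn84npLtjn+WnqAlTojJWlqJS5/3p9Z0OHuv
NW/Jb/i7owHqZ/iLcTFzJ6hOnCl9+ve9EEF+XmkhR2Vg/SpyCIDaeFSP7DJg2xRRxbaGryH3uifYWrDmdtQY/A3WNJYoKK6WzRC+
e+OpZDWGgSPmdSHV/ILDRF4LfZv3ZAnPyDo8LeI9BES7itxeIag6rTjkM5U2MXIi9XBqKHdbh6oJ/NpdqzTLihafqqDcsoGO8Quh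
0WOxo2poHv9R+DDKcdmngbYY+fiD+MyLMOxCcmlxtOI7iWO2ktXROrKntA8rr2wHIgBHK6opo/T882pJ2T2oNoLO7/UH8kcPsikV
x3tfwM+/nqtyU6KYPxnPHGtqrJ8CKY5R/LDSCew15MrCn+Vb5ziZ85p59spp9QFk04Iw/MPna7ug+F6CKRqhZ1JkTXcAL7pWzDwJ
GqIEUA1890Zv5VkDDy/Olq4/ONwqpBvoG3gtgv+xl9GEiyL7FdoFBACyBC8Cj9a27oDnPuQJvaSV84ZIBRbA25l1gY0jR0mFCfBH
T0SjTfuo3FtX8oyT5hlNchBTwl7D497fbSufQ21gcQ+jk0AO/1k7xndVUZK9emuFf+td/YsoRGLwTVPW8vzWMd8P6KsXsLBMSI4P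
eGGwkQiIG60tE/vg0hSssXJ27Eekc8WIIFoAVf7beVXWQBm+cc6OWctfsM2IMDxf+vbfkDQlKb4c/NR+CvXYrH0cT6Qfq2bScVJk
ag6EKdgGGOkbs1pT0J9M1H9ggCrqAiFEykmFT/j1f8Q0tIWn2QhjAvFsYl5OcgF5p+R72lXVsxEOWpDn/OQFxIyxBQG7KVy8pPYc
gTlLIOskO9R4LiYluP+QSvahTKFCFG7bXGh5tm3AQs8CEuzvCSzXFVWirJuyyQ37IfNzu84fLsrjtNKDJKD1LEm94ADOcK5jv+Kw
Ts9FMil28thhmxPaiCTtDjeVk2xkIz5ANja/YKatB4aRmjzOdTzQnngTKLqLY1Ux7ExgOsIoseKbUva+Kjgnb94QaKHhZuCQ1YT4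
XyQW1T43l06ItsOJDK7aTy6dnLQSdsXs6PCiM3o4JEuMHJDIfyF+86jVjDpwNEgD+1qGNiD3t7lMWOO5dFxN+rSD9p2gnt0iPx54
qQe9NsJ9M7J6e8pmLuX0CPj4parGXVnMqPlxYOnZgbflDP8zzeAKYuZCp/xC5UO2NGe+z4oyCZw/NGTIwUHmNL2Ri6GrPcm3sSlD
ozTfqPsCa1xQ0Ry9scwq+0z8nSnCOeRVbAkKvXLp8Z0kNzjLwQPlqIMo2j8Bkh6Kn/3KGVqEFHj82oRGRao35/ucWaNwd2Rrk1Cr
l6srSVy9GVGj5GLpVCkW3sRvVRCJ0AYuVYkaMq0TQQp9cyT4KxdRGxXMmPMMrdFLZOBRizlYjqf+Ky2WJKKMDAi3Vp0Ii0gxvMjb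
FNUFwafLtXAU7I8m0rGLK1DgAZYVs4mMZrwV/Gm590KwoXlTbJl7dmUJOcPkqTbhGFVX9L5VQXneK+3TGZIDrtvUTfhZ0OHLeErM
KTcIlsOoIcm8ghk8/9CY0fh2S4Rfy6fSjbAPvv2WYvllK9LBC/c//10ZTmgvtdPwx5OnMnmInl/qGkepVVcqG6rdq8I0MHUH18yZ
9dYLAyDN7kWkisTePc+JUXFCnm14FHdM8UBnlP02aM5s0uyRGsRWb/9X2NJyax991je6Cm9chR6ToAgUEYsrcjsKUvH4OmIb7YyI
m6VVkNNP6LuVYKos3hMh8ROHT/eL1fpAlA60/EEpRyR4jIE0YSes4CAmclz9v7WawZHzuQp3dIwAeONl0ylAkWVhro5yjPZTtkub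
e4VU2l0vMD00O56+tXoV0ARXmBkf7jW1Fn5ZF2r1AjfoCtDf37LDug8YsTAq3Pyemi/nJuDbWCGGkgp1i/DxU34GlMI/fayB0uXo
AND4ZINt5myZKYn+uAh6lwWiqG429YpgrsUJaAqpXjZPPlNFdxKCdlJ7YMxLMT5l6nMJgZonyh2ehkthG+cMgX7ykDa7qYULslsV
S+WA0ebY0QB7Rm6P1ryvhjsflAgN3l6OM5LCiHQPGo0lOopceVfbZKHLpXfqYfAR8cxpDWTLh2YgBxdpW6eCO8qazzQcdnrTKuK9
E7m4WISH6pFJRwW4jr2nMfy3lwHk1/KiLs84qb63DpWgRRAGCMyq7lF0cloPOv8d9aalVpfsHDwd5RNJBOYnx9gj5Xha/Tf3KN/q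
x4yUwIlvdNI7frdu9Jt9egNq50DM96xzSyQf7JLq8MpEdDas709hpjZK5FDoV8jO4voP1fb2j/K+oTm8QL/OvX0BOugvOy5j2oWK
G3HRsxddwI7DObFCkrpXsmHy2QIUoLf9FuDr8QYQbbUDzK+ErayVS5+xfnrzChqcfRo0KMG65RFYmxvdlwoUs6MWC5TNQ/C08HWz
sABj2iM1OnLP4NiY9tn3faiHBe8GMisRvznI/bljsxgb+p1b9lieZAeFErYJ0J06INWEzuJ+5tBD5Padn7WGwk6KLirFBqotLX1h
84DhL10Qqu5yyQ/d+XjC1tQY0UJV0sIh3B7bdUMR4SwiPWrqSFPUg8ziwRTt09K3F8cumoMtLzRadKzxxmiliUcwaEOhLD494zSH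
5OjnVWhNBkOhp5e7PKIDb9ITPXSJAq6EkbNTNhKAL+1/+9rTnIQ0YLk+qYtvqjYuggx3aGmPY7GN8eaOStBBIZOcGGeJtkvyAtkX
hJhK2Wt5IDrqleBTCBkOuWU7k/Slp3BKxXJMsO/J3LogQT7odTCh/oE1Szb20A5LqRefnohd3kRthDQmcYz+gxY0KEmgppUkhorl
pRCP/2zfFWJYag1L5E7jiu5BqiBn9bg73HhHb379eDykGohQMpzxBIfFFd5BSnCY0lWagO+3EK+50+Ys77INllfnA+tTsWBHDEpW
+hq3SxpB10C8vIJLDZeOx8usq23uXHpmHlQkEfwCRCQ5DIUzYp9hqta3L7I4RKkmjUX2/tgl+y3veT3hg0G0KifNNyYsYb6IoM8c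
oOpcfFgHqQ+v1lnrdAuOqVHQ9t/+GQuBQuuGICRIWikOuYEi+FgN3PCiH697xT69tH7MOv5QlauQN0ChXx6ZrNZ+lQQ0w3uvt4NL
sLSo8pFlTYR0j0gfV3ZKPICUBGAkGAdLkWNwvpsKGIK4xTWOsHSz6f2RVtnobKiRDHK2Xr4oyk5garjeVZNQdgHfUa4OpND6erfN
RhQsAKpnXzR0e8aUgW3wXTg/aH0ncXRTeefMVYLVYApauYKN/xVW5OE9jo+MMHSUBOI/qCzTWwfBS4ziPUqqm0ZeBMgO3zypdMAc
rQciidhT85D/Z7rzk2Wa1sLxjJShkAvzaUVz78CwHH7QVZoQVm8krfduUMGGJZQmFeWZhCcyzC/q4yQPfiONuLARJSI6ORsyWj+U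
VfvgTO1JKBD6OHhGda5oIZHjecXpViRYFoN3+58XntBZL3VQAjdLs14654OgCwyBSUKK0q4bCUhZ2cZW5NSXFYnLhunV+d6rqf9E
kZj0Qpmu78qwP2iMbCUssjs+aJ0ASWoaEv09jOsU7ZcNLbY8eKCbITz1v8YTMgB5iv/tL2dxM/j9IqpUsopm30wmVM5KAHCw2/zo
fYHYKXSPDfRoZV9VYge46eL5UKWEBKxK0fC93gQ9uGUKQUzOuo4blu/z1q1rgLGJaZAzo1hY/Ylq9DBYu9iNUOOcwwpt9kXL92tg
TMlbzDCy7Z4cNpXXby7DL3tZW/WJ4N+13ap6EK+31yRICOWL/UFP6vpxauqnPEXrkpZqOKj1ffRdZybXUh33jD1pSOrNOVsyWCea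
9GRxcEz/CBxtMRE3YcYHKwL+1qgcP+puJTgWKWlBQDpwd5wjwpK6B/S7NdvK4ozp3Mt3uvaWCM/aKvDh7HgoOfAK/4G/QKHmRSZz
F8Buc24BgYbHbd6QD5FCcpxZcYLd3NSJqmbxuZvEaDovkRrLRB5cRWdeGlDo3/Y6f0c15gFBnOTjROXCXAAgCcfPNo7EHpn+pVK6
kuVx2iNV38oaAsrMcjHc5chvfGYAJvZTQd0kdVLhYWRAAgWjT+/BsqbCx7nyzKNc4e9RONAUWq/o7nP1/O+0ZSm7zrClK/Tw9PKd
Jk4vlAQ7zPn+oqvP4pAhW+K7KTmykBm69pLF+RQFD9E3lPo//2DVHvUCDauLmdo6ZvvrKbmdHZVGY6q8iKamgFvhq2m8Z3yT75xH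
xkAtRVGRMx7xbP52crJaZLmOAmDcb5ZKeJFCyqfntmzILQCQE3RjqZcOapsgjnwrtquNZ15SdCyPBxMRWjlj0keQVWq60KGAqunE
kvD2Y2mwLPSBzWPTyDZGKVNmEImiZPPKJm8q2GpN4zpdHGd6aCMgf9H9v6iiODmrgUquUl/4nc35+t+IIqzEh/MCRImkdcP6Uu6H
UR2IOTmXHlGRFhXfrlODINIjbNUkNRO+q+rMTuleWJ3+TtpbKJWSphH4OzXbCUhQxGM0C6YJL5w2C/lzDjqpA5tv6qrfun2OKC6N
whUtqL2uSZQIN94pqRwhZuwrIlc1LlM/8JEWD7w8x4smiiuWd5YhHQutc7VbUu/wLkWkUzh+vQ92OpzYGyatkeab7PbFYlu9fOKT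
sIB+fKpSpQDbwzGBygbGb5dG60Lmf3vZocEOm/dYTAJZTkgPZEYaQDk99HM0Dj9Iizv2ZXrDr8IzGAzNDMLQc9nzaIkIHbLNaoOE
F1mrzsEv5btaXyNOElIWj19n99u9xj4SC5U76uiXBx/GajV8eo6RuVWFXg62Y6Z0QVKCgefBf4Efyr45zkLmRPnX6INAE9lLlzXa
hyYJKylrFZplHO9C5n6tZKupdZdsWNhjvpqs850+5k+0ofVrBa/4311SLY19r+2MoZQH0g+xMESZVHBcCpV9vB8ed5jK2xSBN7IM
yBR7MZa1+Nwau/PmDwAcyLJI+AxYWvp1InbOaw34tnV+QmuTMV/R6jSJ47C+wpCtQnbUQshCfw5IDu45lrsiFIM/y9DOI2r9iyHA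
PXWe5qrmRtwgnYvtDYATCe1Wms1Ll0rlXT4rETNGwdb3hjcZHY1RslmI7jhtkjRDS0VjCv+dPtgJ1aVwUbcA90dGfFLKjErYqXAX
FDamdPXayxXFjMCazQWn7Ijbo2uohQkXZ0hAdO2RYMOAQ4BbdkZq0f9hwOdeWF923uFtIZhhgmonpa4TnY0l0nscE3CMnQqj+6Bh
0Tfr9JhTcCGEVmtwvNGzLMFlXbFdh3D6oEDWPGis2pLnURw84fbZ3Bz47OFhqRkvZzrpMTAT6Q6S97dN+o7ERNFxB/nh9m9duuRT
T2fDUOOHo/MFcfVloYouyrumB9YM+Cbamlkys8iKWeyEaz0UAJqZ9AybXBDw0+rNw7627GiAtIHXG87ypvEE8Mx8eOv8oXK3+lOP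
rueXkN9akJx+qglE5LEsstTqlxSo7LocFQlZ8Yza9Fj8yT27CSPhE8h90THTMlZpTV2Gzlf6FadnI1Cf91Lv2EOy+rej7SrLn17L
6No139OD0qvbyt9iYiyCjCHFN81wBbtPDUlO4BBkWu/yfU1DSyHFLqC3MjnNGaIWVXUua1kZHb2mf3ZzOh7I/6jB5BNcbAFyH6SN
PzRAbEhql8AOzKI8MmKDWjR+/xmRKc4zzUf1s4vBZJPPPskDvxozEaCEjLLD+32Td2/vFvrRpqP8XHMDz71LwBV5X2I1KRxLde46
upJ23Ue8+ZyKVMVdsafjJRsaYVpABysbDmvjUX/AoCUCjIMTekbIAeELlPrzxa0iz0OkCOihXzjn6bcLkVS91X0032Wx0BJ5L9WY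
UoNrH/KSlvQ3KBVpwhqXB02BY/iy0nBZdqMEV3s9Of1ViC78SwRvj7QWC2C7WSlAMK4O7i+i+3oSLP1ypTcX/pmf63zOWfkrw6Wk
aZr2r9ScZD/agmrlXprs5DedbA+8rQNHMrGHEfv5GDNk2tV/1NAjhtKGgaCWtfNU1knB18S9u2Po9bvO00w/JecVumM3HscJEoTn
YuagQB5kBae5oAFxrBui80cJ+9aEOUPWJaXLK/YtAj22D28uTv/icqLzBeexuNMO9I3NJtrdWBctG81zNKVQlE5hFusYI0RxpOqf
6xp4QamuVfMszHZKlzowAqSaHO7AxSyRo2f2fpwf5EZeNmIsaG3Pm2VIuB+5t8RSlUyWW6iKS07NnCtUYGkQtiAD+sdKYxbCKyO7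
nav+uhGG7glW8aRzfapt5XRnrwTQ/yw/BImq0NbCFeGcXvY0G686uzCnN3pAXIsR4sLR2oH/W8szG2uf6PSauc4GC1PDaiSI1Clf
MEUVAMYQx6WTFGJ+Se6WD85JbZ7qKDNt/Z2MTVa30lzbL2bFq23U5t74ExL9zgNaSBAm4ibOojYVcQhH7tJ2cQegLDEmiMHvLWbg
JmXQ9m7gyN2Yd8ReYBXxa+LLa0Dv4i9v8dLF9/OmqYOBrsk347amBFZYbiCFwhKjRpRO/RKnMU6KSdxeu3f/RGTwtGm8akKHRgCQ
0GaTdcdGEbg6+RnJBfiTiHTBSqcScKsUSLaFg4QoROrfdOubggYQdhz+KoWOIGk61Mdsx8IeI7PH0rYg2lyxx4sF/7gBbDQZxo49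
OdBoy3Mjt07PwvCp8CPV3fS5F2u9TCEz9+XgiXs+lsUAt1HCUWZ9Uxfc7E/a1n3xV3b2ZY2rOGTj9mrDOsPrrdmN71kohNUuTcmW
EUkKrpt+SQo5QrFYBhpWErD8cF3QPCfIyOqweEMbANKI30X/NK2bPQMzqXXX39NMtdaMpGGnN2THq/RXWkT3zXbjPpIoDKfqJC1l
DMb0/u/yw4Qn4sZQ2Gn1DpuwUaRmdtD3T09CfO9DcTD79naikFBex1bYvVXBf/IFEsY6jt4kSSs+fr66jvEz3d6JOYiYhVTazCxr
PdBrwzHCEzZAyAyNmwShsDyfuA0J4thgnrt7j9iDb/3Mh9V/CwVwQM0LtqLemzbWhqF11jhaxsjNoTPGIxQ5dfUNnluWQeZ+X7xm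
+JNvC9OC1dBFm+AaJImlXQqIn5K2sDUbwX2c7m+URGSihOA4Z/7n9t4lVrejUkus8pY7k0PvC2++Tk94eI7l/iRWO+07Hxgz7jSX
Ib5fnmvntz4GIc0D9Q44D1LJfxr6m/MDCShXP11eAopDWzhQXm7ret1g6a+F8Sy0iuxedFGrUShnohBbflIxZZSNPQ5m3Lq0kSV0
/ijfRb7vXCa31b5ft7Z3zr1K4e2wzXoiPNTfcxuqzE8L8yjs2wDe3GLzALDTXktQnCdi7knwJ7wRCbVxvGtBF1hKvpAVO6JTgHuz
bi/A4jVlG9+A9uyEwQhs8X8A2R3Z1JqxM5FSmVapaKz+V4Tipxf6seZEPluBd3msaTiqC+/Mc6Vgg1MWQMTfGbWZyHO87NR6Xkmg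
zpoDT74gL3jK2F0ndaIwft+I01XWe0gr6Z1l3k5w9CLU+UR32OSihsgPutLT9hPtVjF5ULXxCKni7xD9a1kxDFffoKWEsXTrplzA
CUp+gL60MZ1lXT1qrJ9TAKYfwfECcZU+SWjEhfU6vPnMOk7PcrXfkoio2T3KJ8/x7qHsE2/wNPlReP8LTkUTyMw6HpRK80Y8/dOs
QGmDUkIvh575NDcCgJKdD8jRugVtfU51JTPaMb9A5lpoopmYRvgyZBA5mNAczusSqTLF+nXFFyiUcZUL4GTF8QvUD7+iSE+gHXUr
vcnDPJ9AU4679e08AgONepAPHZv8ot1tr5t1XKLZClc0aoEJ6XEqoZVSvq7qFiuTv3auNkxGE8mLodc7snpb/AfNzPJpsah4bfxO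
SradRMC7csmpRxTwSsU2a6bSpUtcAS0wW0gKixvwxvoA7OLp1SG9XN+8gKoJJV9fFuFKQRlljTwxcWkuR/UmpcJy1KFJlDuDZTsC
hQ/LUdr/9WoIkio7ZOl08Nvb+qOpuAVzilVq0GN0nAm9mNfv5M0uJPqXKAd4UK8AAFgVBlJ98sahxMfhrTvKcYkodcPu/hjZHdLs
Ez7EB32UYxM8Hay08o08zn5ERSb/aS6RF5NsgPyCZqloxM1mRQKgFhhYXhE9YxNrhXw09J4EmCKHVqPo2AHLnReKXleRu3eW8mTR
dEM3IBdPMENw1M/6lZzj4KfgZPaOCUg6Rpa2jEQgYrtAcB6UQtgmPdTXdtcs+sCVC0yBrsU/NE2gjnexmEgAaRYnAihwORLv9Q19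
CWEFh1qBUQN1BzM75Rk7Jisi0B7aOC1IQePZqTgsXdS9unPEOs/2NsKX4RBaBB5y1UIvCVGeTxMig+cYg3SEZnVTBE8hR+AhXQcq
JDGjQXlyMDouH3eXIIHbacjbvx41rXkumjW2MwkycELZoRsrHheq6LySqkf/wWTDveeDcJGaloIFwE6YSiZ0MBe7WgPvBobhUUB/
JUs9OfF6AucC7ANmUrbYINDQOIKHrXZTnaOyQkg2c5EpBWXXHTnglmonNTbytScL1BS23ob74yWxw/P5/Wrnyxpx+kvP7chDmROS
o9R7o0RQz3cUdnZVnhVnYwOsfPyrTs8RPr1SABhDFYb1ldGZCTKXAp9nfytmsxLYTgk3CDpzXM5K03WRkx545lf5OydQp+psibr+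
q54auNj7/L8YRA1nNpKDtdtBQ8J9Gcfb5qiCgXExJ40z8ttmCwHB5eSNgPaQQPN+GhDJDAo+mrftp5zDJJOwuv+UdqGT5EoEFVe1
sNnUKTiAVKJTSp0JK4W3Q6eGoPh1iJBo9fiAaEBj/e9MtzgKy+z/rrmMvDBbEIwoGtlo/KvE5aTArS1BU3P4LScp4fsUkP48m9K6
yK5YVZWT7+P2p6UjHESWswT66kb55KioYpjLSjHrRyeM6C11a54vHgmGPSZD9rs532bRRTL0NdRQ7zdyV/HMi2z7qybUVmeGJp5k
y8oFKldI960brCrb3iHg/x4HTPstmlhG8ic3tbM3y+CyLL25UHkapHFRsQN1C7kN5UZLXs4cGdHmV/fb0qZRHpG+Vxr0aLYv0Y0w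
8NioXfD89N40fYDd9dmKDdGVeGAjhs/iuT9TT4Feh6Qy884564NeuT9RCZ5/H5WMrbMGPfD/q7rJbxJ2Imh3bLll11xNtPh3wRLt
c2y0IfuiDtYRNTGSC0PaEACt7kSQKxB5GhgVOZVD5Bh3yjgSllelVjXr8eFpEiZQrlIdalcu0Sm5LHZnxqqyIvlOQFZcalkzVwi5
jOpo6FYyb4YPgj0x6wh3U6L04OORgKn4Ll6xkOllGIBIvzMgtVO9KlGWhtVI0rkDR5Mmsp2FNI4AiH6hqPG7LG8HwHPgjYHtdwtK
muO9VcQ8ebPt6heDOAFUf0pQx/8Z9RNy7/70H3c3CHutgnOX5bzlDRuxHCJBabIntySO9rDUzNzfJ9AWEAyKT5Czlf/jb/txRN/F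
easC3ZoMDnZsK2QLvVKzcnQiH+C8nKyXLb19OgjaWp4yO/iJcR2483sas2oDQVbIs1OeyKnntViMN7Fm0YhtRmUYE2va2LJJTjv2
pNOG7UrJzvcdDJ9kkGtErQLIik5Ssb03rojbHdR8MQlkVZgNYKxTA0rnN473YXillC2+X9bSVsuGQGGZgku+wXHoLnhL4waOmAwo
47QdrS0Mv9gKiUHn1b2sEs2MGyH7e9VbVBIcivu/c+psS44RXkF69VBz5mXuAW6SVzkMHNZ9+Roe3N+VXGSk6BNT/9efWFiSXIBP
Vs6pzzB96Bad5bgGmS+AjhcVHwMxDdlRCKhNFjCMAunZxHALiaeyJxwP73bEwxr7k/g6xg1w6q8HbPdqHfDT5Pw2RYtg3pyUaZhq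
z0twuwbmui8dWsqCI4DC/Zw2N6pd7YDwMp4PoUiyFKV+i3b0g96h6fBAwnybTd4j1t2qhO4nIMmYopl/pPGtb8se4JZV8WSBGgw/
e7ukxQFIacuUMeqwXt6C+h5YgBAHMd/6sLaMsXtyx6Z11nsoW7uOvxmNXlh/Nid4NRqOVz0KZeHq3sMpbnwBNkK1VUUc5hyZP5L9
fETUN4RJdWJgnzAhoz+X+cTCA5jGt9jmTjGw/VRWzkEXOIFzyaurRTQ/MgbE2gRC9g5lZPs4Yk+LgaXwBOA7ewXSe66rKC2hpkx1
yJojUi8tMUeklCRcSsW9A/WHe7+pLibKLn5+tPRRflYxvEWmOAe/FertWk4ZZi1QP9j8HQaN0s4mqXCE2pIHN77FZbY4DLDkYq2Z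
zJzPY6xDpUZFzoeRnUdFcfMVYXNfltpBI4TS5p6pPws4NT58M6yRDWuhjosImA0UvubcACFK0wxRhpgEaiTgWv3NP8FgaCxXRGEu
Y8BjAXVToM8AFc2+D7RLyHMUOV4OEYUxCKFb+h4BpfWtQVKKJc9U0xo4+uUb852Jbkpk05lNH+mxLekhT5+VCYR1Bmp5X8ymgnTn
TN5gCPJFF/YSXdEDAWqs/8t3fjhhujk+upazMY55z19YdIqP2SBaombXKvC1r5bCiKT6EaA2t/OHyBJjJ4PSK4N2timBPCg+xKz7
JmL9/kVgu9rV4033LysAGSfr0CgpyHArY0R2n0L96ti8NuxWbjGkjJRuADp2II8m6QkZpvejxUl8+dko76XWmEx8q0aDC7TTfYoB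
B6ocmS4T/hs+bJQzBhfV+Xkf+IbO+BtzoWh/A1FxZvpHpBc0lcG2JVmEO/fEB/ITdVCMqP8KG3K2Gss+cKbzzZ5EGyKOrsH+TLXJ
pXEOFKIBmNANx6GgWRJGVDTbIqQntGjb50QpkZkmfnoxHQSRAIYbTRutIxmSTxGueVkq/lXsiIlFG7UG6mKspi0uo4DnkSNsgBzP
efkP1nKRGbbFXVnzd/CDy6nCY/5GNPDL7PbP5G9iBRmkHWE/2+3hZh4uiVrqgK9uJRgA4JOLszyVoTRLH3jJsaDxbXSzvwVbXAgF
L979nnHo1DKsITFM6eQED79I0NrAeoVhpnzgOcSoE5K59uf98uQeXGhilUbj8f8HL/J0J5BhPt8TQ2Sz8q+hTwuUPaBVO5FdryZH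
7rNHaBdLZAXYSUwZwaBu07axXnvCwyuzziK4udd8S/+D8Z5D6HyXQfvQqIt841TdK/OVNqcd/PxHxuqOkxr0DC1Zh33/o+fRpqSn
3qiPKyjeiLH5/n7pQLN8XNwAHa5xiVFJrtnOjIz/Cgi6nIvgmVnJLnCaR2oMxXasDL73eElLSEjtBlFzDI6Zx4Z3xorgyZXYg8Qr
BDpWeYp4Cez5EtaIdjcmjDqd+r1YA8M1HH+wc0L9/KIIFz+0AI+4wTixorOwK4LylWFXcdr8yDwDnMJaTN/eEwuiX03DmdImQd6Q
BgrvYFzrZmFKhxA4+b/c3ofEH2td7uph58C1huKouQVJiil76aExpgICCordWO+g21CO8Af6DGQQ2uPCxk9ZgAgPDKCF4LatmGDS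
AX+fEIyY7O4iqZnKozTpbTVMTlsScfguZd11qxn3qM/bDidf4xWYzbSlKXNvQhXZ9tDPLDK+HeoP8fBN8LynFJsCY2rV6UX3B/5F
EpO3rqrTCMwLEA2FtK8xVUrs9+VBYJETIa05X02pdVZRADrMNmfJ6LZosAcQDUVjYom1FFJcdKxMJmdxN8Cck+20SxX3URlnAJpl
C3yzmV3v2O1Uf1WuLCYSRTwwnSnrlsFzGFQKBVuQhMs9A4cQzVLHsSjzcj7XbvBs96CnGmuBl5TpyAOVn1WZ5ssIj2+13kxqFdta
tYmX2/uwI+2sOu4JiGla3h4AA2wSLho9xrhDSsKg7q5KbxsCio4RmTx0CVdDTCAvvy+jXU/KIjVYNRCo0TG6YmR61TX+8W5KqZG7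
dQxmNfK8c7YqT9CkvlSsquaPLKY1El9C8b60d0f3fcqlZVKNjtQS+zIlXjUYRFjBSbx+KPW6X2+p2f0wo37GhxCd8KO4RoeCNmUb
4BuLJ5fVZLYTPrQqOy+Xkw6sr29fUFsdNaLxPeuROdfaGj2hXf3Oi08AUZlF+IAklFpyeVE08sNC5ehGlOE9v8qrB1hfGDARnS1n
k0yreqPBHopKdc4CzBISh+ZOdL1s7Ej5DXKC4xYNMZW0vYXS7kjCclMX3gyH3kjfzl8QUx0OL/PQnnsTOwhgPMc9P2XVQB8ZIv+J
mEkkrMY/ocqczjW6dJSmlGx3HRdqJ41FkjAgoK/xeoDOY+1U4ulT7mLe/TM7ZvUV8oSEwaLl9r8bFGbTeIjF/Ns9ayqhU3353YM8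
m7O3LVF3HA3piNXKJkI+I9u0H+kYJrA7xKv3IwBbPrttqT/R12MG07uZi0aicciGapnDa9libMXrq4/xxDgf7MXcik03mLrGGUsb
KBswYlIF2yvqCOY9wsA7VX53NLzVPFDJw/NuspWJSVA64XZX7h1xhtsLus8e2ujm3+BJ+l+BtshYJqTVhPp9NAlKpY2rk2hNfijE
1Sa6kmTRxyBiicdCugf+UXjSzqjTDDqpqPFNBJgrrUOHaUXFn6r90gDSfVgNI+3zD9b5qA9yC+gyEeo0Q5XWigKWnyW6Gp4fmz7g
2WgKDsCuknUdJZ3Kt7vnki5rAvfvzUF5WRxGVK25QCyJ9iKW8Ej9rWO4AqtBqIaHDj1FmL4erIHd260P47Ybyee1IX/JGXL+Yrqf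
A/KVbxdI0XcBlr+c8zCt+Dltvgrh/ZjmkHLe9vXtuQHa2V4SgzFMDlEDHRoVZXyph+NupbFyaA5M3EQDQ2WZn3qetCz0jvDWHYzT
//qGTae24shwJQcYDN3mp80pM66JQbZwbLvzzSK8889/VjeA/Rc9k9tuO1gjmKUQeMxhhrnklknkDcG8jjjwvNxy6T99YzkM57zD
A1TVbfg0OSyd2k8DenTa8afroRrMlLWAJiPZmOFFDRLDeaCn0OPOObz/zgWl59kI7BKoqHWPNNInWrEjR8W8TAleCkTsUGM2CBVD
/6IBXXowYo/DIpiKcjFhlr/dsoiyxPxvO+nnyh7onLm6lF9r1VKz5YP10EIh0KDzqc5AcLSciltDwo9+a5zXmm0GGGk33FELd6Va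
u+6EReGTR9WSW+hpUniyg3PWsq6RAccX0ryqJkDCw74TcIFWgk2HmeqF4l2s+PKI6bozLZtonFnX4m3HV/hTKXU+CtMeVcInC9wv
IfR5boh4dA4oLnaPtH50VAghttjkwqanNrHuHDZGjhPUNIbvbro3ZfegIyg7cHXujOysfnjt/HZRUMKO3soY8kG6XHyXUYe8+ELF
Nl2NcUirb9DPj6WftMig3DTUAGUfTiFO+2KT3jMV82Z+CbhMmO8+lwDSqtZE6aCKDA4WvbqNb+Lj/9719PWgqGKvSo5hi2lC6CCn
wP20VXEDu5c4LF4Tl8Ft/qoVN27quIzeI+n8rBGhL4XjnZFOyka1gz4rPpzZSiVi/ap5XJWkPtnSjzGHgl4Y0A1tc76T/L37sTgJ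
ZmvQ5b3wezJSR5xbIPqxxS9UOjhxzAUuJYjm9MNpLZ6SlMHEMp192g/QEor0UwQ/mHTzAn8AdTlWdQF8HdWVjFR6wUiG2VPNTznI
QRTvGSonEB8pIwguopvKvtvzcC337b14tKtTqB28LFvj8fWpsk8inq0PlqzfHMc9hG8CwqDhGXRe8iSBrApt1ECskiut8uNhcGjj
eIWm0SROfvZpVBGG56O94mVxXpc+Z0u49MjqEKU4VIXqu27Jj7e6xrjo5qVSGDMGrhMVfLf2aemhQf5ZO95ttuiW1qdlmCOb5kB/
DV8nf9+4ykS5/WAdLhwT0LPaHejWRaEPuYcUMCQnw7y/qSFMEFijh8prDux4lRw1DEYOg91wXdpc4IW9qewr3rPO3Jt7idVwQP3J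
Q0EtJqj/hoRSM68iinLByFPtePR7ojEagPFbhQdz3SAJlchA3F0Jx0Qoy96vFXUbGy5qHVgNZwR3jnTn1XAokAyLRXNv6/r65imK
MVHcuUSI1l76Jpyr034v9lVTKHhDP1BZA9W6N4utLn1laJsPfY/LDVP4JKY+kpEsazgV11wDhCFNw7yn6t21xcrb8K9OI1rnIpCS
RtqGvEzdZDEfBFyhZ0Zl/cGi0KQumVri6y3M8OpWaD6KsBM8YSTSRz9hOz7zx4eZW/DXDNlUeUTVL7q3Schbsylkn95wSWVi+YBQ
VG9185RedGx14yNgcfi1JOCky6pX8dzqLiha4OijceAvM7Omt+dQO7k2D8Gg8iKHrYEE30R+zfpJhR5kWM7nsZayEY9w+5R5RDyo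
bpmaigBJaksaB6/06aFh2eClsqrmYTrtOGAFEi8NW92gG7l+C8utrjOo79V++LzeEK1BrsBnV8iZfDeFAmv3pPkVeqHQkHCzklVA
5jzQMp+VGMVQIT7FHzKTRxN33qodHoOve5zJRPBAx47eoSBTi5W7Nnqg88e4nJ7632Gushaj+stdCeyyDrfXh80Fp23OtDugLeQw
hSN8lec5nj4k2WEnuL3Fn4Nlu2JxKdsYTg0ZqhlAxwuXLgJnL1+tswFl1Xi2i955+VZS4NQeiCY2VgUnPv9pITbgE9S4QmcGSvrd
5rhfCsCzpfFJ6q207rACGSfUJitlaH46TGFe7VU30ezCoT/EkM78T2+qMkqa+RRBqCWeU22NVAr/vVTgokbJ+NM5u8rPH/rHaP1I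
pKk7sy30S+bjhW6dAZg2zNoTLKcUsscUqIhu97CgQTjYMLohmSzacWJ7lBN1iWkJ7gZ3c/q0JdiBE834zKCUgLF4hI6cS76BbPSa
P6l8azzwWHfsnKn2X90Sy0GC5i9dlECzDxhwn3gAFeNz82AmWZqEhcu5IKlZ1jdVP+XIC5F1kHfk0IoGeT/z0iy4Tgs/+77rkcYi
jXhCU2Csa+B9VYDYQpM7/EkjiJmd4+556CmFBYq7RerWWF9cUrgzHyIw+ZSCwyDOwwDBd8L9Y7HApbeZGFEhEFZVEgqMxGkVGigP
foEmTJBWkh1lAAYlLyj/Q5mgi7shZEGBlvhgSzeI7CkNi7D3o6NPdTvsppABDG+T+Um6+Yv25TmJ9d1P2mvb6hNV3a24jTEuJGbd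
UvmQwua0VTzuqhpDYVd8LQ1jXzK3ybTDK7N0AnxY3QHu4MPXuf7/ODAKR1c5Fdf9dtwrdlrBLRLuuwRU+10VJ35yE1W88yeiWXEX
NxVlfx5t4HxXHqFPLQo1cvUxv02mmqPW2t/Rjbr9Di1o0Spw54/7XsgnzsHlRTJQqd9i/ld/mZgbUWeVALETSFTwNR6XQt61wbHk
4ljowC+yhRpjLIrRbSKTx0P4dnCKdgNdK0cHQufCogThvzgAMeTtBsBg5vMtWuKl3zD5RmlAOOSqzpzoWqJW4bFlSD17FnY6GzDW
/qx4Ld14B6m/D2q4pzaQRM5WU7+Q+3jQDTDZE7c1JXXadzcvbI7z/tTlAFaJfzyjDjmAEhb+oupvWQzkQr9h5jMDR1esOrxGP64k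
+6ro4kXpGkin1xT0iKgL1gaAO95RUIJujRijznvTVD8ZvKJ4kTklcJuR5qBtaP0QLide3WpgVxp7RNvlC+3bCj9YDzmSYvb8OyAM
QtWUul3ty1VOJ/TId7fLg2FOnH6O9aRqhjOLX3xur+gANGeGqMOTejyyieePqg7cUAPcr/YnWcdKaKA06o0QDg6i1XMJwAqKU85T
4m+g9mN9m2kCuNJjvW/Pxr659GsV836ZgWZrjhJpsumxVfF/BFmX2KpDftl2XpbHr+Ria4bUn+g5ukQMAPCP/FvzEBb0jYznrzVt
2avETBv3u3BC5eFQEly/5T2bmTJe5Ov1KnoX0ZM65II4mOrEnDBmI2ngNEXw3j46f8ieLQQOyYaMX2lzp8G2Cgh3zFkvIEGg7EtF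
DblW+r6Ak7CFzV/uSCDFiDcXbyMQ4rkU7Drz/y8ZQ5hGb+TpX/VGh3s7UPqM+I/uXasIVuFVQNtRtluPa1p0Ia2Y/VO/03dGQZ6W
3jXK2U5gubcg9alGvap/YAJDOglATt7iiC2rYPXtlsTyvONu45U+2WUispYI4UEmOI2ccBE9+51mK3GheMIxGvt+4E3JRNf7/+VP
prABdAzymcp9mXY8lUSqpGnGS+ip+TU4wtGRCziI3PO6TmuXe2g+jHexftNpWrAumGL+3B+of4UnWF9h2UA6YjMbyqujEvh0+gvn
iXr7uJXzyCa4/bcKxjJUNPG893Uz/yLBaonKxqxp07jndaXAtKR1uXJgbuQW7/zYkhCBobzHgV3R7Z0Ppe3Wi5M9wpSUwP93ISlq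
jk9DoIsvWVBZiTAUnY6Kkua3fky6H+fWEBJZ1Ybp5u95859kzBKk+s0Gh66NyxHSpJUTVCmV5apWOem4gnx7GrctOxDSvpv6cbVv
3mxDli28PdM21pMD81K2pH7KwsmT0MAIqlIBzGcAgbypCPkV117602zAjnO3wd1ZUG10iV5XbjSKnZf2C9JbhqpcdTfaWdGFX1x9
k45dyniyLedb0leNIndjDNUvgeoCsZv6GmeaFYlJiHAXuc8n9K6tYKvyJZ+w/f+oLxcoyd5wsieHR2HzRZlzyIRZmZorlWFGC7jO
GjWZtNfIyCefRbUvhorakgkcE3UZelODEEQyHzHCzs70IR6byhwVScVNuIvMyxF7AXmodyA3dNZu5iqurqGDVXmOAP/wCn87dwab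
0otqVkWtpzpre+8c2UEd+S/CSIIp3/jDAhqTrcTom1biZBzllEN7uR3w2d8rifdMhcWsT3T2PJDqcJ3xah0hl42pVHP41s07qTld
32iZI9BFfje1ev5mgTgoNIKODB6bjfmkuSORfn469OCU0GzwNvWaT8aTHQJd5U6PvC6jI5cQGoZ3/cE8+9NS4QUwlZrJleR8NkkL
nyf6hU+/z4IVZeWKClN/zw2QMCXwv5gvacJ519Xlh6tJ/R+AYApSvHhy2oWYQfvGUuWhl+tY1hlkGcfOoI+YZi9DEq7zO4jehEcl
TGZ57VUjWEaCxZQdJLTcBjDga0wSNZPznDVBvO0YZfKyOhlGq7Td0Y/GUe8/SH4P+PPtm+EkmfTJXG35RHoHZm/8tevB9PNbBM0/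
2+8rdSvhrQF/QOp55Lrytkyty4yoWyc7rqaU54txzURcdJMw1aVfcWEwPVtZ6apaxwuQ8opIsNFrA7/EyS1viNykdeT+ncMFiZht
k+h34xKlzB+sjqAqZDooZD94+DoIRiLXERxgOyMWvPVaAzjz8QP+a21q7OMfBP1U9nfBMTp4Dt0a+BU7uDFa2ehioT+MNDVF2xK4
dtLtNwMSUm9cEgCdmoVzeejxAN8jJ65qwoqKPyUoQT8O4zWNr3Ny47/wWW6k/SulzP9duM2ylfFH629lhd86voEXVVgzfr1rfaIl
W6QhF3cLsxF5IfOmS4MC65TPBbYQwdsD3e+QmU7V5jBI7hwn+Vf81iHBWczYuHyYynvBPgnQThwKlBrUc2h8klD3IUbtZCfFbNcH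
TG2ev63c+4E1EG3AfcuTG0Y2u9toWzncto2/1Mg1qAhFa4/uSIWb0MVcLIu8Y6yZEoPfUTZpdN7FqMuJfROA457S8x75RfvTPuOz
kxvye1b79XDu4hf/7DsyzilP3cZW0bZokkhX2XN57r8daq7NTPxKyejoMEb2TpJwfd4bvhpf+MI+31M+hfbCLoM9jTxXYmFu6CGH
wQLaWKLvUmCvB2xS2WTYrLCO7QMNx0L4TH6iHZzrCqbMOoZmlYnACeI28NY+R9NP8rAF0GYQ+iNBUS6D+/R2K4WPnslaLFCTxYss
0aGe+5v7paJe4NJZmFvu+a89CZ1Dax0mGPEo0w6zlER23Hb/5zn2WVBZxdcPBsIwHqEdl3cIiQLFs7l7OAjAsEwRZp3gQqjMWaNp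
I0XCC9ezGUKoZKjND6vyGsfv7pwQxLVVKp/TgK5sFavFH6LGDh6BP9mQ8oUQBeBGc0EVf05DP0Z9HNszMvouAqBrc7Hr0iRyeKDQ
NOelT0++G7yZIX5lGYY1iqT/MKuIv38UhHdVumfPQzZmRuJbpSFCr1d/S9jRJOEpefm3YgdYhMQaDF2IzAa720v4M7iIg4ItgcZ+
PiwR/nMQNF4IXPjWD16/kWPGrAZLdAIJDQ96j/H0oXMdisSXjxN8e82yquDpBQybGWTn5tJBbdVZ3As9nakLtxKgrHUadAURccoX
CqjSanJS+53F/oU5iWqvhz1hyCXYnx6p/qW665hAyFtVmVIf3aiAc8vwmdYp5iLe7Bf/OD6bQgsJ+UI902MYeivObgP2t5ZHU+Nv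
inzjfQmgMZI0MopHt37FDp/0bxOIq2gqfSZ8VlFbNSeDg3bYbwrpZIWRZNM4RK/bx5LJ7V1zaiGDVURl2rWrGnud+h+baAgfij+p
E13bG6lq/B4J5/ybDf0ZCIFRDei0xVkr8kndFdGQCl205dVnRNBI2TlCeqHhtlY5jULq6W9fgzNdnn5rAB5S23hTVFTiniWFk2LO
v7iyc+4vcWsmE01cEQqBm+SQoteqEMthr3ZHcaKyqWH/etOWU9d21UVn6DiEgDEAC8xJXz/PnU2EZDfr+j4ehAukuNMZ5PKo49H7
g4INfH/sIuFHPI2mrRARgR5m+JSwqPlUP0SC8GHpExDdwiBlTBgS63ZTdYhLGE5Jd68Bx2h5TjWGyQJXl/S488ZLy4UOL3genBIe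
tya5ap4MCvVIkOsa1jzKe2X158ZjYMMG3ew14ZuOS3QZAhuNV7/t4cY+tiSr5lxpyImcCVMg3FDDLwJM4QgfdFja8X8BNabZ7xB2
rKKUybTbB1GNepH8LVUk/NXMtQwOVANnFqS7sKO6CvB+DZyP8qqhAJfen600snEbiHuTpsHh3SxjPZe6kLzqB09Lst0oohxytCFk
xPPOczwesLgLaR0Ep09BVRI/HwUWHCvaA8y2vwD1xD/kRmWGu1gn6v+HmUkSGAuQ65bRk1MVs9vX5p9yOB25NgPWmh5lMvRxi4qO
k1szSqdc2Uvi1NDTYZhPJ5p/bNaEmv8oygl7GL8ZdvwmePApd1b1yMX9RbxCm/oavlqGdgM7Lo++MbWp8pNcY5uX5FKjhzFKGlG0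
5jMYGY0HR79msZ5xEoZkq6FOZuQVPPCQ51k0wF2thL/lZOSHdnXm3f4oYkcZksSlTNVMf8+JKw3nUPkQId9JBfOVmBysEFc0OO1f
he+GPuMVsimUn80ScMuQOAia48N4yQkq8p706xGXE7bKrZuShv8QeewjALUyrrO2oVjIhYGtckBTK93C60B6IwIW7CpF9x5eo1wg
Z6xsH/NKexRXSbRH62xTnrwKWoMnlaEDWCrdQxXY+JRHSfIwe6X1Gp3s3itpejRxX/vvA+D+a1LokQKGjndv4oktrNOOnfqEgJB1
9hAzZyPsIzHelFyRz6f6zBsMzS0P7sPtdBTQhhM9E8VlLFBvMy5WUOx2CRvpVA+mGjtHDtpZScRWOfVF787BtcBygGsUaFExzM/s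
yUQmdZLU0I7yKe4//fat0Z9lFUoWtBnM60mflNEtHcfjoV8CH1lu2rnfO5O0iureiuRiSehmTg9XR1nVnFByIZW4vUbmPmdcy1gw
YCBemcNPbEsMlqRF0WnB4eNDnW+A0RYEemkdjt6jZ2uEHwg0YHDArPPEtFNdBU4N9tLU9TQ6YpToVBwSCmHqDiRtHg6HX28MUWNU
7ipNgO/o56LEopMR8KSZttsErppWwo5PFWasjgbvynkBqH3r2WwdBYWWwXPx/v465a4xq+0bVN40CkfD6N/63P8JzkliHFroMpFE
tydQ7GVXwhJSp/TEpsCEumvkAnM5lBPRParGQRuSNSFGTSRLYWX6tR+8aPs+i4ROjyemlzDUJJO6A1jrtTJlg9cyLYMe6ecnaa2U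
X2vDRea/4wGmfMX9HcTADA83jF9pyYh5Emd3RJEmvNt7U2noGs0cCQ4dcT73yUgRSVXiFYYemYZ8pSfskH632+OMr+/EKO/KnHja
B2BEg7BV2LBrDamytywF6qzEB2gq5zGvvSN6WDm/woIGksyoBbJPqU8TswRz48MF87SCpwv/32Sh5lHrJ/BQYg6bkiyfxxwGbpXM
Lw43GrOsMjAst1HPqH7KRyrXXkTpVVn+MTSJr0yAdpYPOLvZAlm4hiqSI2QYu+czVv3qCGh/nVd3s+5OfzgEdyaVUUz0KywEU7OP
SMJuQoQ9iDOrXbxikEp1CMMgPqqgV9Ozewm9UUg2PM4vU+G4wTqUK3sASS2VP2w5AdV6PNTD9+uG9o+b29FEpZOxvdvdUiut6A80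
bQmPdH8EvYNNtKcMXkQ3LMvcJboF7I2zms/3VyzIB5+w8t9oFHd5PVf8I+zISHl5xzYjvlg7/KOFBsfTaVh7NG7/cGrcQ+2lQRHV
Cu3Y5oLjYjxIjGAfZ5WwSrTbeDYeaXlBQeTVoVjdKJ/roTBsV0P0m5A1IN5VwiisWV/I06d5r/X3WSZTd7DcAZiFMuSk19//S4+b
rWCMsn6aSgpys4t+w8iPBIhvXwdkWcvOElCCYO7rrCv1IgSOHwKQTIENtcj55UmO35Ynxr0XjGNA73Lqw+GYhYVqQi2JoCSg/akm
hzljQrYVC5XlD6h0Hx71oWnGom0ZqhsEzZBBSjx0gYowhJHPcS/hjBp0hm1bzxpPk3TqHhVyhaWvtKFB5weph1GjXp0+Uy08hreb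
ICPh+FrOZEiBeFflpKDiu9C8ULXXPviNXIFBfuW4oz2KssF4IsHVJpoo9p0x+XHqKT84ErxtLBOH/jXtjRMdZMxHnQPAN/20G+3q
+yLozhXXKuqfQmqkk5FV9FguTZO8bNHx/F0Owdt1GlPt4/KX2D6h1A+VneLXErSsNHuMAXk8lznij5kyn2I0A8iV0PNDocV2zvWE
eIDs4mFZvEj9kEzW5aLLC1PjfZRR5t+gqJBPjfugPCgEW1B0M1/WVxzTvkeIfuZHO+DQn4ZNO/4GPtF5uGupXVDPM/q/UxNWZPkq
kPhMIz3BzF63s/9SI+Aabcl2+WU/NNQu25Us4HqdPD54ny14CwHHxKxhF9tNLvmyAyoc6JfK+e3qljh/nSjwCB3iTtwEEqbAPyY6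
2SnQuVNulY8NcQ7RbocO0pUxrhyfd7+yLcrXRA7+9D2qD0xT88d8nZk4DVSF5il29ip3mWmq03DcRWrlncqfV/g/CPMjJeenRmfy
T7S6a/1cARbakRGQ4M9Wdw31Tx9yMjFWCsDjbmUz9Q8x+U8VgTh5p177DuSzCe/IaP5h/SHA/sSNbY2K9915tRfHr5b+MQAtL2K7
+1GuMoQwmFo0A89AfreSdKQwMjyeEbGNaaJ+1Thx7QOETC9QZ3hF9OWmAnZ7/SNqt8ZTF6U6xU+1Un4W8ZI+XNYPNKTGT8fVzYH1
9tJStIrrJia6qiWXgzNgS/q7jBRlgjwMA3kHi8YN8ck7idu5sjwfJCHZz538mjLV2rW1JSLEx2R7r/LwyGDuEWnoru2lnkOoxmGB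
cgLH7jiLsqaXO9dUjK1ff7UkvrGyQL1egjiO6pbDjTOGThcPCbD8ak0eaYG/z1PJf4wMyfiaROPBijsA6zJbtFECKmayRWIFST4c
915IqOy6PAnHpnYbkL4AykDUq59MOansL/ytKnuSwUqIBm/rp/nBSviJC2hDdRg7/2wdi+I4dtqFjztYFuD6cps6D6hW/Yu7QJHF
5i3ZDzCdzcDQld3E5zXdO9AXKBhlBFLxDam3jR0lJeHXAAhp7txJGTu2FtGniHZbOgy7H0X8gfG+hfvWl1k3gOofzRIHHrNqVQXT
WtL8gAV5pOeymmZW8qsrdaiHgtJaZjNXuYEWYWxGfDVuA7AUynpOHY0Ri4tzkicZ6GT9sk/i1Bi0uf8Ap36F+iLEq5TF8mtWTSyy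
wSQ5B2fDAOBDSeY163s/mXyty5JG0eWCQFLHp216PScExUoZViLXbc+pqEzig4gWTftyeVBQOuY1ZvhEs6X1QZc1Ld+815wb8O8+
d6watnwubuvcrZLelElJfzviC1N5IvRFF5qJ4AAJaOxIJOXgXgYRu7IKRrLhrp6Uo78QL+w8T0Lds/X9Ahg+0rDnBPtxI/eq1Sqp
vG+6kd1t8Iq0kfHFIV4T06V92jBSfhm7L6nySFfMdiSPLlOX7rpZoGAmppkV5wZwFJSLL2lqbWksVexzYoA60zZ37laXQPxj1E7C
Ckk2hSvYyXuaN7jDfMtdWg/FDCSSNoZL+uRmIxhJk3p4dmEGl5zRTleqDnSC2h0Rf7p1GvoAFR6lEQ8+7JLuaEMhJ0Ir9RBL1Q2Q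
aDMjP5mAbaFUlDRsDIYFHDYbJJAyMSSOYs/2TEi9hT1ExBnd9m9OBdE86brhyTkU0JSDsRK5T1yunqqVTzL4g3WbXl1OzYODtovG
/JED4qRdktp6/1N1NZ6NjKA15baIJqrlidOq4qxFlrr7p9OI7BkbMqwO/7wlkcVVJgaYD5UJ6gsIYfWwCo+NSyqndqM6oEWTV+ZY
mVlNaV/7AtXrcEHLCNtMtFK/ShWU7SuA6cs+Q+SClpFvwNUlmz/CDkfPOD+Z7JCs0eCJO/NgGEzvSYY0DUAUJm96gP6cc1DxqW5G
dPinj45gcRMesV6kjuR8DZER/tvtHt7yscBf1X2Szw4E0crCOsRgXGj0Jsu66tUo54ZInKJ+mZ5Fq3Wqnac4GxQph47hecQeEkQA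
0PXmxgJLtTsa1xj0Pq3bXu25+RIXGQbP5vHp7sxDzHpZ9tG2gK+r25UZbxaPPRrzEYNUX+ii7rE2nF3q9EI28AZKwcqN18UAB5pq
9fSPijvSxXnMZGvfb74GqUbdjwOwGPovni8c/3X475xSwAr6cdVPt0NqaCtUNGqQ4SFFit4UINsVY1PzVRV4VaUJM7DY0jjp9XRK
kGXRzxnUmZuTM2rAZipuqplanVVnANFY9zsaMZdzs3vhh5BoVqsPjFQNfr4UPou1DsblZ+M9nmwZrm+WxqfeFGuumr/os213cMco
GD0GoamOBS+CidXOHM7E+ruw5gA+9lkpN8e7pfDoFtTjjJtRzTfvHN+iZ3Uil0lT7+rv94CdI0oMAbbKYEebrKuOyse/pFur0l1x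
i601m41KT9fccWIgb4Mb6Np4W6LwPMfOf0n1ojeueUWkHq2bgxylEqa5ON7s+ccwbvM9MRniQd9OTED9H1NaaJuwemIpmfyJcoUg
cb7qsHNIVzjSlcapypwpAi5DVssbH3+uGpAPJDOy7LJdw+05L2/vRwA6Hu/pBidyIQVC20kri6uuEYslAL5H9dLmF9/5SIGfzYjP
lKFXmBIxUmae9AROU6xfs4Lo9pz9EadsB1pOzS73WOlZZ0Ds5CLH1JXposMdW+V6nnRNMNLnSEufzLJv0IOwNqm85dsg4+Z4aqYY
/A4vBauBBegTi+QoHiGDjqDz9YmgIClYq/4JaJxThAlQ2fvxre49CblVcAkOeDiYy2+k2VJ6wNb8nwkzOcCE/XHUOTsmhzjsm/hk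
GUgrqbhiuYEcEEhFsbI/CrY3Otl+aZrzmpvgLsKbv1bnZVBgTKbzMukrfhbHqQQLrfz9NfP79CxydoUzlYwhIOgB/gUZoqo8CXeO
WsG8JxmwVqWSZ2LZCwkiUxrxrocyAAAAAABJH5UM5ltyjgABuaoEgMAWn/9+lbHEZ/sCAAAAAARZWg==
..........
-/
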